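import Pool.Agent.K1H39.NearHad.Build
import Pool.Agent.W851.Had.Tower

/-! All large orders. -/

set_option autoImplicit false
set_option linter.unusedSectionVars false

namespace Pool.Agent.K1H39.NearHad

open Finset Matrix

open Pool.Agent.W851.Had (tow tow_zero tow_succ tow_pos)

/-- the combined conclusion -/
def Ok (V : Type) [Fintype V] [DecidableEq V] (n δ τ β : ℝ) : Prop :=
  ∃ Q A : Matrix V V ℝ, Q * Qᵀ = n • (1 : Matrix V V ℝ) ∧ (∀ i k, |(|Q i k| - 1)| ≤ δ) ∧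
    (∀ i k, A i k = 1 ∨ A i k = -1) ∧ (∀ x, nq (x ᵥ* (A - Q)) ≤ τ ^ 2 * nq x) ∧
    (∀ i k, i ≠ k → |(A * Aᵀ) i k| ≤ β)

theorem nq_comp {V W : Type} [Fintype V] [Fintype W] (e : V ≃ W) (x : W → ℝ) :
    nq (x ∘ e) = nq x := by
  unfold nq
  exact e.sum_comp (fun i => x i ^ 2)

theorem Ok.congr {V W : Type} [Fintype V] [DecidableEq V] [Fintype W] [DecidableEq W] (e : V ≃ W)
    {n δ τ β : ℝ} (h : Ok V n δ τ β) : Ok W n δ τ β := by
  obtain ⟨Q, A, h1, h2, h3, h4, h5⟩ := h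
  refine ⟨Q.submatrix e.symm e.symm, A.submatrix e.symm e.symm, ?_, fun i k => h2 _ _,
    fun i k => h3 _ _, fun x => ?_, fun i k hik => ?_⟩
  · rw [Matrix.transpose_submatrix, Matrix.submatrix_mul_equiv, h1]
    ext a b
    rw [Matrix.submatrix_apply, Matrix.smul_apply, Matrix.smul_apply, Matrix.one_apply,
      Matrix.one_apply]
    by_cases hab : a = b
    · rw [if_pos hab, if_pos (by rw [hab])]
    · rw [if_neg hab, if_neg (fun h => hab (e.symm.injective h))]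
  · have e1 : x ᵥ* (A.submatrix e.symm e.symm - Q.submatrix e.symm e.symm) =
        ((x ∘ e) ᵥ* (A - Q)) ∘ e.symm := by
      funext b
      have e2 : (x ᵥ* (A.submatrix e.symm e.symm - Q.submatrix e.symm e.symm)) b =
        ∑ a, x a * (A (e.symm a) (e.symm b) - Q (e.symm a) (e.symm b)) := rfl
      have e3 : (((x ∘ e) ᵥ* (A - Q)) ∘ e.symm) b =
        ∑ a, x (e a) * (A a (e.symm b) - Q a (e.symm b)) := rfl
      rw [e2, e3, ← e.sum_comp]
      simp only [Equiv.symm_apply_apply]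
    rw [e1, nq_comp e.symm, ← nq_comp e x]
    exact h4 _
  · rw [Matrix.transpose_submatrix, Matrix.submatrix_mul_equiv, Matrix.submatrix_apply]
    exact h5 _ _ (fun h => hik (e.symm.injective h))

theorem Ok.mono {V : Type} [Fintype V] [DecidableEq V] {n δ τ β δ' τ' β' : ℝ} (h : Ok V n δ τ β)
    (h1 : δ ≤ δ') (h0 : 0 ≤ τ) (h2 : τ ≤ τ') (h3 : β ≤ β') : Ok V n δ' τ' β' := by
  obtain ⟨Q, A, g1, g2, g3, g4, g5⟩ := h
  refine ⟨Q, A, g1, fun i k => (g2 i k).trans h1, g3, fun x => (g4 x).trans ?_,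
    fun i k hik => (g5 i k hik).trans h3⟩
  exact mul_le_mul_of_nonneg_right (pow_le_pow_left₀ h0 h2 2) (nq_nonneg x)

/-! ### growth -/

theorem tow_ge (j : ℕ) : j + 1 ≤ tow j := by
  induction j with
  | zero => rw [tow_zero]
  | succ j ih =>
    rw [tow_succ]
    have h1 : 2 ^ (j + 1) ≤ 2 ^ tow j := Nat.pow_le_pow_right (by norm_num) ih
    have h2 : j + 1 < 2 ^ (j + 1) := Nat.lt_two_pow_self
    omega

theorem tow_mono {a b : ℕ} (h : a ≤ b) : tow a ≤ tow b := by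
  induction h with
  | refl => exact le_rfl
  | step _ ih =>
    rw [tow_succ]
    exact ih.trans Nat.lt_two_pow_self.le

theorem sq_le_two_pow (j : ℕ) (hj : 10 ≤ j) : (j + 7) ^ 2 ≤ 2 ^ j := by
  induction j, hj using Nat.le_induction with
  | base => norm_num
  | succ j hj ih =>
    rw [pow_succ 2 j]
    nlinarith

theorem tow_big (C : ℕ) : ∃ j₀ : ℕ, ∀ j, j₀ ≤ j → C ^ (j + 5) + 7 ≤ tow j := by
  refine ⟨C + 12, fun j hj => ?_⟩
  obtain ⟨i, rfl⟩ : ∃ i, j = i + 2 := ⟨j - 2, by omega⟩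
  have h1 : C ^ (i + 2 + 5) ≤ 2 ^ (C * (i + 7)) := by
    rw [pow_mul]
    exact Nat.pow_le_pow_left Nat.lt_two_pow_self.le _
  have h2 : 2 ^ (C * (i + 7)) + 7 ≤ 2 ^ ((C + 1) * (i + 7)) := by
    rw [add_mul, one_mul, pow_add]
    have h3 : 1 ≤ 2 ^ (C * (i + 7)) := Nat.one_le_two_pow
    have h4 : 2 ^ 7 ≤ 2 ^ (i + 7) := Nat.pow_le_pow_right (by norm_num) (by omega)
    nlinarith
  have h3 : (C + 1) * (i + 7) ≤ 2 ^ i := by
    have := sq_le_two_pow i (by omega)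
    have hCi : C + 1 ≤ i + 7 := by omega
    nlinarith
  have h4 : 2 ^ ((C + 1) * (i + 7)) ≤ 2 ^ 2 ^ i := Nat.pow_le_pow_right (by norm_num) h3
  have h5 : 2 ^ 2 ^ i ≤ tow (i + 2) := by
    rw [tow_succ, tow_succ]
    exact Nat.pow_le_pow_right (by norm_num) (Nat.pow_le_pow_right (by norm_num)
      (by have := tow_ge i; omega))
  omega

theorem growth (C : ℕ) : ∃ n₀ : ℕ, ∀ n : ℕ, n₀ ≤ n → ∃ m : ℕ, n ≤ tow m ∧
    (2 : ℝ) ^ (64 * 2 ^ (C ^ (m + 1))) ≤ Real.log n := by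
  obtain ⟨j₀, hj₀⟩ := tow_big C
  refine ⟨tow (j₀ + 4) + 1, fun n hn => ?_⟩
  have hex : ∃ m, n ≤ tow m := ⟨n, by have := tow_ge n; omega⟩
  classical
  obtain ⟨m, hm⟩ : ∃ m, m = Nat.find hex := ⟨_, rfl⟩
  have h1 : n ≤ tow m := by rw [hm]; exact Nat.find_spec hex
  have h2 : j₀ + 4 < m := by
    by_contra hcon
    have := tow_mono (not_lt.1 hcon)
    omega
  obtain ⟨j, rfl⟩ : ∃ j, m = j + 4 := ⟨m - 4, by omega⟩
  have h3 : tow (j + 3) < n := by
    by_contra hcon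
    have := Nat.find_min hex (m := j + 3) (by omega)
    exact this (not_lt.1 hcon)
  refine ⟨j + 4, h1, ?_⟩
  have h4 := hj₀ j (by omega)
  rw [show j + 4 + 1 = j + 5 by ring]
  obtain ⟨X, hX⟩ : ∃ X, X = C ^ (j + 5) := ⟨_, rfl⟩
  rw [← hX] at h4 ⊢
  have h5 : 2 ^ (128 * 2 ^ X) ≤ tow (j + 2) := by
    rw [tow_succ, tow_succ]
    refine Nat.pow_le_pow_right (by norm_num) ?_
    have h7 : 2 ^ (X + 7) ≤ 2 ^ tow j := Nat.pow_le_pow_right (by norm_num) h4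
    rw [pow_add] at h7
    omega
  have h8 : (2 : ℝ) ^ (128 * 2 ^ X) ≤ tow (j + 2) := by exact_mod_cast h5
  have h9 : Real.log 2 * tow (j + 2) ≤ Real.log n := by
    rw [mul_comm, ← Real.log_pow]
    apply Real.log_le_log (by positivity)
    have : 2 ^ tow (j + 2) = tow (j + 3) := by rw [← tow_succ]
    exact_mod_cast (this ▸ h3.le)
  have h10 := Real.log_two_gt_d9
  have h11 : (2 : ℝ) ^ (128 * 2 ^ X) = (2 : ℝ) ^ (64 * 2 ^ X) * (2 : ℝ) ^ (64 * 2 ^ X) := by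
    rw [← pow_add]; congr 1; ring
  have h12 : (2 : ℝ) ≤ (2 : ℝ) ^ (64 * 2 ^ X) := by
    have : 1 ≤ 64 * 2 ^ X := by
      have : 0 < 2 ^ X := by positivity
      omega
    calc (2 : ℝ) = 2 ^ 1 := by norm_num
      _ ≤ _ := pow_le_pow_right₀ (by norm_num) this
  rw [h11] at h8
  have h13 : (2 : ℝ) * (2 : ℝ) ^ (64 * 2 ^ X) ≤ (2 : ℝ) ^ (64 * 2 ^ X) * (2 : ℝ) ^ (64 * 2 ^ X) :=
    mul_le_mul_of_nonneg_right h12 (by positivity)
  nlinarith

theorem ev_log (K : ℝ) (m : ℕ) {s : ℝ} (hs : 0 < s) :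
    ∀ᶠ n : ℕ in Filter.atTop, K * Real.log n ^ m ≤ (n : ℝ) ^ s := by
  have h1 := isLittleO_log_rpow_rpow_atTop (m : ℝ) hs
  have hK : 0 < 1 / (|K| + 1) := by positivity
  have h2 := h1.def hK
  have h3 : ∀ᶠ x : ℝ in Filter.atTop, K * Real.log x ^ m ≤ x ^ s := by
    filter_upwards [h2, Filter.eventually_ge_atTop (1 : ℝ)] with x hx hx1
    rw [Real.rpow_natCast, Real.norm_eq_abs, Real.norm_eq_abs] at hx
    have hl : 0 ≤ Real.log x := Real.log_nonneg hx1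
    rw [abs_of_nonneg (pow_nonneg hl m), abs_of_nonneg (Real.rpow_nonneg (by linarith) s)] at hx
    have h4 : K * Real.log x ^ m ≤ (|K| + 1) * Real.log x ^ m :=
      mul_le_mul_of_nonneg_right (by linarith [le_abs_self K]) (pow_nonneg hl m)
    refine h4.trans ?_
    have h5 := mul_le_mul_of_nonneg_left hx (by positivity : 0 ≤ |K| + 1)
    rw [← mul_assoc, mul_one_div_cancel (by positivity), one_mul] at h5
    exact h5
  exact tendsto_natCast_atTop_atTop.eventually h3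

end Pool.Agent.K1H39.NearHad
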