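import Pool.Agent.K1H39.NearHad.Exact

/-! Entry estimates for the exactly orthogonal matrix. -/

set_option autoImplicit false
set_option linter.unusedSectionVars false

namespace Pool.Agent.K1H39.NearHad

open Finset Matrix

variable {ι ρ : Type*} [Fintype ι] [DecidableEq ι] [Fintype ρ] [DecidableEq ρ]

namespace Dat

variable {N lam : ℝ} (D : Dat ι ρ N lam) {r : ℝ}

theorem bTT (k l : ρ) : |(1 / (N * Real.sqrt N)) * D.T k l| ≤ lam / Real.sqrt N := by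
  have hN := D.Npos
  have hs := D.spos
  rw [abs_mul, abs_of_pos (by positivity : 0 < 1 / (N * Real.sqrt N))]
  calc 1 / (N * Real.sqrt N) * |D.T k l| ≤ 1 / (N * Real.sqrt N) * (lam * N) :=
        mul_le_mul_of_nonneg_left (D.bT k l) (by positivity)
    _ = lam / Real.sqrt N := by field_simp

theorem exists_M (hr : (Fintype.card ρ : ℝ) = r) (hsm : 2 * (r * lam) ≤ Real.sqrt N) :
    ∃ M : Matrix ρ ρ ℝ, M * D.Lm = 1 ∧ ∀ k l, |M k l| ≤ 2 := by
  have hN := D.Npos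
  have hs := D.spos
  have hl := D.lam1
  have hr0 : 0 ≤ r := by rw [← hr]; positivity
  have hdet : D.Lm.det ≠ 0 := by
    apply det_ne_zero_of_sum_row_lt_diag
    intro k
    have h1 : ∀ l ∈ univ.erase k, ‖D.Lm k l‖ ≤ lam / Real.sqrt N := by
      intro l hl
      have hne : k ≠ l := (Finset.ne_of_mem_erase hl).symm
      have e : D.Lm k l = -(1 / (N * Real.sqrt N) * D.T l k) := by
        unfold Lm
        rw [Matrix.sub_apply, Matrix.one_apply_ne hne, Matrix.smul_apply, Matrix.transpose_apply,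
          smul_eq_mul, zero_sub]
      rw [e, norm_neg, Real.norm_eq_abs]
      exact D.bTT l k
    have h2 : 1 - lam / Real.sqrt N ≤ ‖D.Lm k k‖ := by
      have e : D.Lm k k = 1 - 1 / (N * Real.sqrt N) * D.T k k := by
        unfold Lm
        rw [Matrix.sub_apply, Matrix.one_apply_eq, Matrix.smul_apply, Matrix.transpose_apply,
          smul_eq_mul]
      rw [e, Real.norm_eq_abs]
      have := (abs_le.1 (D.bTT k k)).2
      exact le_trans (by linarith) (le_abs_self _)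
    refine lt_of_le_of_lt (Finset.sum_le_sum h1) (lt_of_lt_of_le ?_ h2)
    rw [Finset.sum_const, nsmul_eq_mul, Finset.card_erase_of_mem (Finset.mem_univ _),
      Finset.card_univ, Nat.cast_sub (Fintype.card_pos_iff.2 ⟨k⟩), hr]
    have h3 : (r - ((1 : ℕ) : ℝ)) * (lam / Real.sqrt N) + lam / Real.sqrt N =
        r * lam / Real.sqrt N := by push_cast; ring
    have h4 : r * lam / Real.sqrt N ≤ 1 / 2 := by
      rw [div_le_iff₀ hs]; linarith
    linarith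
  refine ⟨D.Lm⁻¹, Matrix.nonsing_inv_mul _ (isUnit_iff_ne_zero.2 hdet), ?_⟩
  obtain ⟨M, hM⟩ : ∃ M, M = D.Lm⁻¹ := ⟨_, rfl⟩
  rw [← hM]
  have h1 : D.Lm * M = 1 := by rw [hM]; exact Matrix.mul_nonsing_inv _ (isUnit_iff_ne_zero.2 hdet)
  have h2 : M = 1 + (1 / (N * Real.sqrt N)) • (D.Tᵀ * M) := by
    have h3 : D.Lm * M = M - (1 / (N * Real.sqrt N)) • (D.Tᵀ * M) := by
      unfold Lm
      rw [Matrix.sub_mul, Matrix.one_mul, Matrix.smul_mul]
    rw [h1] at h3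
    rw [h3]
    abel
  intro k l
  have : Nonempty (ρ × ρ) := ⟨(k, l)⟩
  obtain ⟨⟨k₀, l₀⟩, hmax⟩ := Finite.exists_max (fun x : ρ × ρ => |M x.1 x.2|)
  have h4 : ∀ x y, |M x y| ≤ |M k₀ l₀| := fun x y => hmax (x, y)
  have h5 : |M k₀ l₀| ≤ 1 + 1 / 2 * |M k₀ l₀| := by
    have h6 : M k₀ l₀ = (1 : Matrix ρ ρ ℝ) k₀ l₀ + 1 / (N * Real.sqrt N) * (D.Tᵀ * M) k₀ l₀ := by
      have := congrFun (congrFun h2 k₀) l₀
      rwa [Matrix.add_apply, Matrix.smul_apply, smul_eq_mul] at this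
    have h7 : |(1 : Matrix ρ ρ ℝ) k₀ l₀| ≤ 1 := by
      rw [Matrix.one_apply]; split_ifs <;> simp
    have h8 := mul_entry D.Tᵀ M (a := lam * N) (b := |M k₀ l₀|) (fun i j => D.bT j i) h4 k₀ l₀
    rw [hr] at h8
    have h9 : |1 / (N * Real.sqrt N) * (D.Tᵀ * M) k₀ l₀| ≤ 1 / 2 * |M k₀ l₀| := by
      rw [abs_mul, abs_of_pos (by positivity : 0 < 1 / (N * Real.sqrt N))]
      calc 1 / (N * Real.sqrt N) * |(D.Tᵀ * M) k₀ l₀| ≤
            1 / (N * Real.sqrt N) * (r * (lam * N * |M k₀ l₀|)) :=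
            mul_le_mul_of_nonneg_left h8 (by positivity)
        _ = (r * lam / Real.sqrt N) * |M k₀ l₀| := by field_simp
        _ ≤ 1 / 2 * |M k₀ l₀| := by
            apply mul_le_mul_of_nonneg_right _ (abs_nonneg _)
            rw [div_le_iff₀ hs]; linarith
    calc |M k₀ l₀| = |(1 : Matrix ρ ρ ℝ) k₀ l₀ + 1 / (N * Real.sqrt N) * (D.Tᵀ * M) k₀ l₀| := by
          rw [← h6]
      _ ≤ _ := abs_add_le _ _
      _ ≤ _ := add_le_add h7 h9
  have := h4 k l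
  linarith

theorem bDf (i : ι) (k : ρ) : |D.Df i k| ≤ 2 * lam / Real.sqrt N := by
  have hN := D.Npos
  have hs := D.spos
  have hl := D.lam1
  have e : D.Df i k = 1 / N * D.Z i k - 1 / Real.sqrt N * D.Y i k := by
    unfold Df
    rw [Matrix.sub_apply, Matrix.smul_apply, Matrix.smul_apply, smul_eq_mul, smul_eq_mul]
  rw [e]
  refine (abs_sub _ _).trans ?_
  rw [abs_mul, abs_mul, abs_of_pos (by positivity : 0 < 1 / N),
    abs_of_pos (by positivity : 0 < 1 / Real.sqrt N)]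
  have h1 : 1 / N * |D.Z i k| ≤ 1 / N * (lam * Real.sqrt N) :=
    mul_le_mul_of_nonneg_left (D.bZ i k) (by positivity)
  have h2 : 1 / Real.sqrt N * |D.Y i k| ≤ 1 / Real.sqrt N * lam :=
    mul_le_mul_of_nonneg_left ((D.aY i k).trans hl) (by positivity)
  have e2 : Real.sqrt N / N = 1 / Real.sqrt N := by
    rw [div_eq_div_iff hN.ne' hs.ne', D.smul, one_mul]
  have e1 : 1 / N * (lam * Real.sqrt N) = 1 / Real.sqrt N * lam := by
    rw [← e2]; ring
  rw [e1] at h1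
  have e3 : 2 * lam / Real.sqrt N = 1 / Real.sqrt N * lam + 1 / Real.sqrt N * lam := by ring
  linarith

theorem HTDf : D.Hᵀ * D.Df = D.X - (1 / Real.sqrt N) • D.W := by
  have hN := D.Npos.ne'
  unfold Df
  rw [Matrix.mul_sub, Matrix.mul_smul, Matrix.mul_smul, D.HTZ, smul_smul]
  have : 1 / N * N = 1 := by field_simp
  rw [this, one_smul]
  rfl

theorem DfTH (k : ρ) (j : ι) : |(D.Dfᵀ * D.H) k j| ≤ 2 * lam := by
  have hs := D.spos
  have hl := D.lam1
  have e : (D.Dfᵀ * D.H) k j = (D.Hᵀ * D.Df) j k := by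
    have : D.Dfᵀ * D.H = (D.Hᵀ * D.Df)ᵀ := by
      rw [Matrix.transpose_mul, Matrix.transpose_transpose]
    rw [this, Matrix.transpose_apply]
  rw [e, D.HTDf, Matrix.sub_apply, Matrix.smul_apply, smul_eq_mul]
  refine (abs_sub _ _).trans ?_
  rw [abs_mul, abs_of_pos (by positivity : 0 < 1 / Real.sqrt N)]
  have h1 := D.aX j k
  have h2 : 1 / Real.sqrt N * |D.W j k| ≤ 1 / Real.sqrt N * (lam * Real.sqrt N) :=
    mul_le_mul_of_nonneg_left (D.bW j k) (by positivity)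
  have h3 : 1 / Real.sqrt N * (lam * Real.sqrt N) = lam := by field_simp
  rw [h3] at h2
  linarith

variable {M : Matrix ρ ρ ℝ}

theorem bF (hr : (Fintype.card ρ : ℝ) = r) (hr1 : 1 ≤ r) (hM2 : ∀ k l, |M k l| ≤ 2) (i j : ι) :
    |D.F M i j - D.H i j| ≤ 9 * (r ^ 2 * lam ^ 2) / Real.sqrt N := by
  have hs := D.spos
  have hl := D.lam1
  have e : D.F M i j - D.H i j = -((D.Df * M * (D.Dfᵀ * D.H)) i j) -
      1 / Real.sqrt N * (D.Y * D.Xᵀ) i j := by
    have : D.F M - D.H = -(D.Df * M * (D.Dfᵀ * D.H)) - (1 / Real.sqrt N) • (D.Y * D.Xᵀ) := by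
      unfold F R
      rw [Matrix.sub_mul, Matrix.one_mul, Matrix.mul_assoc (D.Df * M)]
      abel
    have h := congrFun (congrFun this i) j
    rwa [Matrix.sub_apply, Matrix.sub_apply, Matrix.neg_apply, Matrix.smul_apply,
      smul_eq_mul] at h
  rw [e]
  refine (abs_sub _ _).trans ?_
  rw [abs_neg, abs_mul, abs_of_pos (by positivity : 0 < 1 / Real.sqrt N)]
  have h1 := mul_entry D.Df M (a := 2 * lam / Real.sqrt N) (b := 2) D.bDf hM2
  have h2 := mul_entry (D.Df * M) (D.Dfᵀ * D.H) h1 D.DfTH i j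
  have h3 := mul_entry D.Y D.Xᵀ (a := 1) (b := 1) D.aY (fun k j => D.aX j k) i j
  rw [hr] at h2 h3
  have h4 : 1 / Real.sqrt N * |(D.Y * D.Xᵀ) i j| ≤ 1 / Real.sqrt N * (r * (1 * 1)) :=
    mul_le_mul_of_nonneg_left h3 (by positivity)
  have h5 : r * (1 * 1) ≤ r ^ 2 * lam ^ 2 := by
    have h6 : 1 ≤ lam ^ 2 := one_le_pow₀ hl
    have h7 : r ≤ r ^ 2 := by nlinarith
    calc r * (1 * 1) = r * 1 := by ring
      _ ≤ r ^ 2 * lam ^ 2 := mul_le_mul h7 h6 (by norm_num) (by positivity)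
  have h6 : 1 / Real.sqrt N * (r * (1 * 1)) ≤ 1 / Real.sqrt N * (r ^ 2 * lam ^ 2) :=
    mul_le_mul_of_nonneg_left h5 (by positivity)
  have e1 : r * (r * (2 * lam / Real.sqrt N * 2) * (2 * lam)) =
      8 * (1 / Real.sqrt N * (r ^ 2 * lam ^ 2)) := by ring
  rw [e1] at h2
  have e2 : 9 * (r ^ 2 * lam ^ 2) / Real.sqrt N = 8 * (1 / Real.sqrt N * (r ^ 2 * lam ^ 2)) +
    1 / Real.sqrt N * (r ^ 2 * lam ^ 2) := by ring
  rw [e2]
  linarith

variable {a b : ℝ}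

include D in
theorem sN : Real.sqrt N ≤ N := by
  have h1 : 1 ≤ Real.sqrt N := Real.one_le_sqrt.2 D.N1
  have := D.smul
  nlinarith

theorem bGp (hr : (Fintype.card ρ : ℝ) = r) (hr1 : 1 ≤ r) (hrN : r ≤ N)
    (hM2 : ∀ k l, |M k l| ≤ 2) (ha1 : 1 ≤ a) (ha2 : a ≤ 1 + r / N) (i j : ι) :
    |D.Gp M a i j - D.H i j| ≤ 20 * (r ^ 2 * lam ^ 2) / Real.sqrt N := by
  have hN := D.Npos
  have hs := D.spos
  have hl := D.lam1
  have hr0 : 0 < r := by linarith
  have hrN1 : r / N ≤ 1 := by rw [div_le_one hN]; exact hrN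
  have e : D.Gp M a i j - D.H i j = a * (D.F M i j - D.H i j) + (a - 1) * D.H i j -
      1 / N * (D.Y * Jm ρ * D.Xᵀ) i j := by
    unfold Gp
    rw [Matrix.sub_apply, Matrix.smul_apply, Matrix.smul_apply, smul_eq_mul, smul_eq_mul]
    ring
  rw [e]
  refine (abs_sub _ _).trans ?_
  rw [abs_mul (1 / N), abs_of_pos (by positivity : 0 < 1 / N)]
  have h1 := D.bF hr hr1 hM2 i j
  have h2 := mul_entry D.Y (Jm ρ) (a := 1) (b := 1) D.aY (fun k j => by simp [Jm])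
  have h3 := mul_entry (D.Y * Jm ρ) D.Xᵀ h2 (b := 1) (fun k j => D.aX j k) i j
  rw [hr] at h3
  have h4 : |a * (D.F M i j - D.H i j) + (a - 1) * D.H i j| ≤
      2 * (9 * (r ^ 2 * lam ^ 2) / Real.sqrt N) + r / N := by
    refine (abs_add_le _ _).trans ?_
    rw [abs_mul, abs_mul, abs_of_nonneg (by linarith : 0 ≤ a), abs_of_nonneg (by linarith : 0 ≤ a - 1)]
    have h5 : |D.H i j| = 1 := by
      rcases D.hH i j with h | h <;> rw [h] <;> simp
    rw [h5]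
    have h6 : a * |D.F M i j - D.H i j| ≤ 2 * (9 * (r ^ 2 * lam ^ 2) / Real.sqrt N) :=
      mul_le_mul (by linarith) h1 (abs_nonneg _) (by norm_num)
    linarith
  have h5 : 1 / N * |(D.Y * Jm ρ * D.Xᵀ) i j| ≤ 1 / N * (r * (r * (1 * 1) * 1)) :=
    mul_le_mul_of_nonneg_left h3 (by positivity)
  have h6 : r ≤ r ^ 2 * lam ^ 2 := by
    have h6 : 1 ≤ lam ^ 2 := one_le_pow₀ hl
    have h7 : r ≤ r ^ 2 := by nlinarith
    calc r = r * 1 := by ring
      _ ≤ r ^ 2 * lam ^ 2 := mul_le_mul h7 h6 (by norm_num) (by positivity)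
  have h7 : r ^ 2 ≤ r ^ 2 * lam ^ 2 := le_mul_of_one_le_right (by positivity) (one_le_pow₀ hl)
  have h8 : r / N ≤ r ^ 2 * lam ^ 2 / Real.sqrt N :=
    div_le_div₀ (by positivity) h6 hs D.sN
  have h9 : r ^ 2 / N ≤ r ^ 2 * lam ^ 2 / Real.sqrt N :=
    div_le_div₀ (by positivity) h7 hs D.sN
  have e1 : 1 / N * (r * (r * (1 * 1) * 1)) = r ^ 2 / N := by ring
  rw [e1] at h5
  have e2 : 20 * (r ^ 2 * lam ^ 2) / Real.sqrt N = 2 * (9 * (r ^ 2 * lam ^ 2) / Real.sqrt N) +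
    r ^ 2 * lam ^ 2 / Real.sqrt N + r ^ 2 * lam ^ 2 / Real.sqrt N := by ring
  rw [e2]
  linarith

include D in
theorem bYGa (hr : (Fintype.card ρ : ℝ) = r) (hr1 : 1 ≤ r) (ha1 : 1 ≤ a) (ha2 : a ≤ 1 + r / N)
    (hb : |b| ≤ r / N) (P : Matrix ι ρ ℝ) (hP : ∀ i k, |P i k| ≤ 1) (i : ι) (k : ρ) :
    |(P * Ga ρ a b) i k - P i k| ≤ 2 * r ^ 2 / N := by
  have hN := D.Npos
  have e : (P * Ga ρ a b) i k - P i k = (a - 1) * P i k + b * (P * Jm ρ) i k := by
    unfold Ga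
    rw [Matrix.mul_add, Matrix.mul_smul, Matrix.mul_smul, Matrix.mul_one, Matrix.add_apply,
      Matrix.smul_apply, Matrix.smul_apply, smul_eq_mul, smul_eq_mul]
    ring
  rw [e]
  refine (abs_add_le _ _).trans ?_
  rw [abs_mul, abs_mul, abs_of_nonneg (by linarith : 0 ≤ a - 1)]
  have h1 := mul_entry P (Jm ρ) (a := 1) (b := 1) hP (fun k j => by simp [Jm]) i k
  rw [hr] at h1
  have h2 : (a - 1) * |P i k| ≤ r / N * 1 :=
    mul_le_mul (by linarith) (hP i k) (abs_nonneg _) (by positivity)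
  have h3 : |b| * |(P * Jm ρ) i k| ≤ r / N * (r * (1 * 1)) :=
    mul_le_mul hb h1 (abs_nonneg _) (by positivity)
  have h4 : r / N ≤ r ^ 2 / N := by
    apply div_le_div_of_nonneg_right _ hN.le
    nlinarith
  have e1 : 2 * r ^ 2 / N = r ^ 2 / N + r ^ 2 / N := by ring
  have e2 : r / N * (r * (1 * 1)) = r ^ 2 / N := by ring
  rw [e1]
  rw [e2] at h3
  linarith

theorem bGpHT (hr : (Fintype.card ρ : ℝ) = r) (hr1 : 1 ≤ r) (hrN : r ≤ N)
    (hM2 : ∀ k l, |M k l| ≤ 2) (ha1 : 1 ≤ a) (ha2 : a ≤ 1 + r / N) {i k : ι} (hik : i ≠ k) :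
    |(D.Gp M a * D.Hᵀ) i k| ≤ 19 * (r ^ 2 * lam ^ 2) := by
  have hN := D.Npos
  have hs := D.spos
  have hl := D.lam1
  have hr0 : 0 < r := by linarith
  have hrN1 : r / N ≤ 1 := by rw [div_le_one hN]; exact hrN
  have e : (D.Gp M a * D.Hᵀ) i k = a * (D.F M * D.Hᵀ) i k - 1 / N * (D.Y * Jm ρ * D.Zᵀ) i k := by
    unfold Gp
    rw [Matrix.sub_mul, Matrix.smul_mul, Matrix.smul_mul, Matrix.mul_assoc _ D.Xᵀ, D.XTHT,
      Matrix.sub_apply, Matrix.smul_apply, Matrix.smul_apply, smul_eq_mul, smul_eq_mul]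
  have e2 : (D.F M * D.Hᵀ) i k = -(N * (D.Df * M * D.Dfᵀ) i k) -
      1 / Real.sqrt N * (D.Y * D.Zᵀ) i k := by
    rw [D.FHT]
    unfold R
    rw [Matrix.sub_apply, Matrix.smul_apply, Matrix.smul_apply, Matrix.sub_apply,
      Matrix.one_apply_ne hik, smul_eq_mul, smul_eq_mul]
    ring
  have h1 := mul_entry D.Df M (a := 2 * lam / Real.sqrt N) (b := 2) D.bDf hM2
  have h2 := mul_entry (D.Df * M) D.Dfᵀ h1 (b := 2 * lam / Real.sqrt N) (fun k i => D.bDf i k) i k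
  have h3 := mul_entry D.Y D.Zᵀ (a := 1) (b := lam * Real.sqrt N) D.aY (fun k i => D.bZ i k) i k
  have h4 := mul_entry D.Y (Jm ρ) (a := 1) (b := 1) D.aY (fun k j => by simp [Jm])
  have h5 := mul_entry (D.Y * Jm ρ) D.Zᵀ h4 (b := lam * Real.sqrt N) (fun k i => D.bZ i k) i k
  rw [hr] at h2 h3 h5
  have h6 : |(D.F M * D.Hᵀ) i k| ≤ 9 * (r ^ 2 * lam ^ 2) := by
    rw [e2]
    refine (abs_sub _ _).trans ?_
    rw [abs_neg, abs_mul, abs_mul, abs_of_pos hN, abs_of_pos (by positivity : 0 < 1 / Real.sqrt N)]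
    have h7 : N * |(D.Df * M * D.Dfᵀ) i k| ≤
        N * (r * (r * (2 * lam / Real.sqrt N * 2) * (2 * lam / Real.sqrt N))) :=
      mul_le_mul_of_nonneg_left h2 hN.le
    have h8 : 1 / Real.sqrt N * |(D.Y * D.Zᵀ) i k| ≤
        1 / Real.sqrt N * (r * (1 * (lam * Real.sqrt N))) :=
      mul_le_mul_of_nonneg_left h3 (by positivity)
    have e3 : N * (r * (r * (2 * lam / Real.sqrt N * 2) * (2 * lam / Real.sqrt N))) =
        8 * (r ^ 2 * lam ^ 2) * (N / (Real.sqrt N * Real.sqrt N)) := by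
      field_simp
      ring
    rw [D.smul, div_self hN.ne', mul_one] at e3
    have e4 : 1 / Real.sqrt N * (r * (1 * (lam * Real.sqrt N))) = r * lam := by field_simp
    have h9 : r * lam ≤ r ^ 2 * lam ^ 2 := by
      have h10 : r ≤ r ^ 2 := by nlinarith
      have h11 : lam ≤ lam ^ 2 := by nlinarith
      exact mul_le_mul h10 h11 (by linarith) (by positivity)
    rw [e3] at h7
    rw [e4] at h8
    linarith
  rw [e]
  refine (abs_sub _ _).trans ?_
  rw [abs_mul, abs_mul, abs_of_pos (by positivity : 0 < 1 / N), abs_of_nonneg (by linarith : 0 ≤ a)]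
  have h7 : a * |(D.F M * D.Hᵀ) i k| ≤ 2 * (9 * (r ^ 2 * lam ^ 2)) :=
    mul_le_mul (by linarith) h6 (abs_nonneg _) (by norm_num)
  have h8 : 1 / N * |(D.Y * Jm ρ * D.Zᵀ) i k| ≤ 1 / N * (r * (r * (1 * 1) * (lam * Real.sqrt N))) :=
    mul_le_mul_of_nonneg_left h5 (by positivity)
  have h9 : 1 / N * (r * (r * (1 * 1) * (lam * Real.sqrt N))) ≤ r ^ 2 * lam ^ 2 := by
    have e5 : 1 / N * (r * (r * (1 * 1) * (lam * Real.sqrt N))) =
        r ^ 2 * lam * (Real.sqrt N / N) := by ring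
    rw [e5]
    have h10 : Real.sqrt N / N ≤ 1 := by rw [div_le_one hN]; exact D.sN
    have h11 : lam ≤ lam ^ 2 := by nlinarith
    calc r ^ 2 * lam * (Real.sqrt N / N) ≤ r ^ 2 * lam * 1 :=
          mul_le_mul_of_nonneg_left h10 (by positivity)
      _ = r ^ 2 * lam := by ring
      _ ≤ r ^ 2 * lam ^ 2 := mul_le_mul_of_nonneg_left h11 (by positivity)
  linarith

end Dat

/-- the coefficients -/
theorem exists_ab {N r : ℝ} (hN : 0 < N) (hr1 : 1 ≤ r) (hrN : r ^ 2 ≤ N) :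
    ∃ a b : ℝ, 1 ≤ a ∧ a ≤ 1 + r / N ∧ |b| ≤ r / N ∧ a ^ 2 * N = N + r ∧
      N * (2 * a * b + r * b ^ 2) = -r := by
  have hr0 : 0 < r := by linarith
  obtain ⟨a, ha⟩ : ∃ a, a = Real.sqrt ((N + r) / N) := ⟨_, rfl⟩
  obtain ⟨g, hg⟩ : ∃ g, g = Real.sqrt ((N + r - r ^ 2) / N) := ⟨_, rfl⟩
  have ha2 : a ^ 2 = (N + r) / N := by rw [ha]; exact Real.sq_sqrt (by positivity)
  have hg2 : g ^ 2 = (N + r - r ^ 2) / N := by
    rw [hg]; exact Real.sq_sqrt (div_nonneg (by linarith) hN.le)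
  have ha0 : 0 ≤ a := by rw [ha]; positivity
  have hg0 : 0 ≤ g := by rw [hg]; positivity
  have ha1 : 1 ≤ a := by
    rw [ha]
    apply Real.one_le_sqrt.2
    rw [le_div_iff₀ hN]; linarith
  have hag : a ^ 2 - g ^ 2 = r ^ 2 / N := by
    rw [ha2, hg2]; field_simp; ring
  have hga : g ≤ a := by
    have : 0 ≤ r ^ 2 / N := by positivity
    nlinarith
  refine ⟨a, (g - a) / r, ha1, ?_, ?_, ?_, ?_⟩
  · have : a ^ 2 = 1 + r / N := by rw [ha2]; field_simp
    nlinarith [div_nonneg hr0.le hN.le]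
  · rw [abs_div, abs_of_pos hr0, abs_of_nonpos (by linarith), div_le_iff₀ hr0]
    have h1 : (a - g) * (a + g) = r ^ 2 / N := by rw [← hag]; ring
    have h2 : a - g ≤ r ^ 2 / N := by
      rw [← h1]
      exact le_mul_of_one_le_right (by linarith) (by linarith)
    calc -(g - a) = a - g := by ring
      _ ≤ r ^ 2 / N := h2
      _ = r / N * r := by ring
  · rw [ha2]; field_simp
  · have h1 : 2 * a * ((g - a) / r) + r * ((g - a) / r) ^ 2 = (g ^ 2 - a ^ 2) / r := by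
      field_simp
      ring
    have h2 : g ^ 2 - a ^ 2 = -(r ^ 2 / N) := by linarith
    rw [h1, h2]
    field_simp

end Pool.Agent.K1H39.NearHad
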