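import Pool.Agent.K1H39.NearHad.Fin

/-! The data from a Hadamard matrix. -/

set_option autoImplicit false
set_option linter.unusedSectionVars false

namespace Pool.Agent.K1H39.NearHad

open Finset Matrix

variable {ι ρ : Type*} [Fintype ι] [DecidableEq ι] [Fintype ρ] [DecidableEq ρ]

theorem HTH_of {H : Matrix ι ι ℝ} {N : ℝ} (hN : 0 < N) (h : H * Hᵀ = N • (1 : Matrix ι ι ℝ)) :
    Hᵀ * H = N • (1 : Matrix ι ι ℝ) := by
  have h1 : (N⁻¹ • H) * Hᵀ = 1 := by
    rw [Matrix.smul_mul, h, smul_smul, inv_mul_cancel₀ hN.ne', one_smul]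
  have h2 := mul_eq_one_comm.1 h1
  rw [Matrix.mul_smul] at h2
  have h3 := congrArg (fun M => N • M) h2
  simp only [smul_smul, mul_inv_cancel₀ hN.ne', one_smul] at h3
  exact h3

theorem build (H : Matrix ι ι ℝ) (hH : ∀ i j, H i j = 1 ∨ H i j = -1) {N : ℝ}
    (hN : (Fintype.card ι : ℝ) = N) (N1 : 1 ≤ N) (HHT : H * Hᵀ = N • (1 : Matrix ι ι ℝ))
    (f : ρ ↪ ι) {lam : ℝ} (lam1 : 1 ≤ lam) (hexp : 4 * N ^ 2 ≤ Real.exp (lam ^ 2 / 2)) :
    Nonempty (Dat ι ρ N lam) := by
  have hN0 : 0 < N := by linarith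
  have hs : 0 < Real.sqrt N := Real.sqrt_pos.2 hN0
  have hHTH := HTH_of hN0 HHT
  have hHH : ∀ i j, H i j * H i j = 1 := fun i j => by
    rcases hH i j with h | h <;> rw [h] <;> norm_num
  have hrN : (Fintype.card ρ : ℝ) ≤ N := by
    rw [← hN]
    exact_mod_cast Fintype.card_le_of_embedding f
  have hr0 : (0 : ℝ) ≤ Fintype.card ρ := Nat.cast_nonneg _
  have hlam : 0 < lam := by linarith
  have hKK : ∀ k l, ∑ i, H i (f k) * H i (f l) = if k = l then N else 0 := by
    intro k l
    have h1 := congrFun (congrFun hHTH (f k)) (f l)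
    rw [Matrix.mul_apply, Matrix.smul_apply, Matrix.one_apply, smul_eq_mul] at h1
    simp only [Matrix.transpose_apply] at h1
    rw [h1]
    by_cases h : k = l
    · rw [if_pos h, if_pos (by rw [h]), mul_one]
    · rw [if_neg h, if_neg (fun h2 => h (f.injective h2)), mul_zero]
  have hcol : ∀ (d : ι → ℝ), (∀ j, d j = 1 ∨ d j = -1) →
      (Matrix.of fun i k => d i * H i (f k) : Matrix ι ρ ℝ)ᵀ * (Matrix.of fun i k =>
        d i * H i (f k) : Matrix ι ρ ℝ) = N • (1 : Matrix ρ ρ ℝ) := by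
    intro d hd
    ext k l
    rw [Matrix.mul_apply, Matrix.smul_apply, Matrix.one_apply, smul_eq_mul]
    simp only [Matrix.transpose_apply, Matrix.of_apply]
    have h1 : ∀ i, d i * H i (f k) * (d i * H i (f l)) = H i (f k) * H i (f l) := by
      intro i
      have : d i * d i = 1 := by rcases hd i with h | h <;> rw [h] <;> norm_num
      linear_combination (H i (f k) * H i (f l)) * this
    simp only [h1, hKK]
    split_ifs <;> simp
  have hsgn : ∀ (d : ι → ℝ), (∀ j, d j = 1 ∨ d j = -1) → ∀ i k,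
      d i * H i (f k) = 1 ∨ d i * H i (f k) = -1 := by
    intro d hd i k
    rcases hd i with h | h <;> rcases hH i (f k) with h' | h' <;> rw [h, h'] <;> norm_num
  obtain ⟨d, hd, hd2⟩ := rademacher (S := ι × ρ) (fun x j => H x.1 j * H j (f x.2))
    (fun _ => Real.sqrt N) lam (fun _ => hs) (by
      intro x
      rw [Real.sq_sqrt hN0.le]
      have h1 : ∀ j, (H x.1 j * H j (f x.2)) ^ 2 = 1 := by
        intro j
        have e : (H x.1 j * H j (f x.2)) ^ 2 =
          (H x.1 j * H x.1 j) * (H j (f x.2) * H j (f x.2)) := by ring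
        rw [e, hHH, hHH, one_mul]
      simp only [h1]
      rw [Finset.sum_const, Finset.card_univ, nsmul_eq_mul, mul_one, hN]) hlam (by
      rw [Fintype.card_prod]
      push_cast
      rw [hN]
      nlinarith)
  obtain ⟨X, hX⟩ : ∃ X : Matrix ι ρ ℝ, X = Matrix.of fun i k => d i * H i (f k) := ⟨_, rfl⟩
  have hXX : Xᵀ * X = N • (1 : Matrix ρ ρ ℝ) := by rw [hX]; exact hcol d hd
  have hZZ : ∀ k, ∑ i, (H * X) i k ^ 2 = N * N := by
    intro k
    have h1 : (H * X)ᵀ * (H * X) = (N * N) • (1 : Matrix ρ ρ ℝ) := by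
      rw [Matrix.transpose_mul, Matrix.mul_assoc, ← Matrix.mul_assoc Hᵀ, hHTH, Matrix.smul_mul,
        Matrix.one_mul, Matrix.mul_smul, hXX, smul_smul]
    have h2 := congrFun (congrFun h1 k) k
    rw [Matrix.mul_apply, Matrix.smul_apply, Matrix.one_apply_eq, smul_eq_mul, mul_one] at h2
    rw [← h2]
    exact Finset.sum_congr rfl fun i _ => sq _
  obtain ⟨e, he, he2⟩ := rademacher (S := (ι × ρ) ⊕ (ρ × ρ))
    (Sum.elim (fun x i => H i x.1 * H i (f x.2)) (fun x i => (H * X) i x.1 * H i (f x.2)))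
    (Sum.elim (fun _ => Real.sqrt N) (fun _ => N)) lam (by
      rintro (x | x)
      · exact hs
      · exact hN0) (by
      rintro (x | x)
      · simp only [Sum.elim_inl]
        rw [Real.sq_sqrt hN0.le]
        have h1 : ∀ j, (H j x.1 * H j (f x.2)) ^ 2 = 1 := by
          intro j
          have e : (H j x.1 * H j (f x.2)) ^ 2 =
            (H j x.1 * H j x.1) * (H j (f x.2) * H j (f x.2)) := by ring
          rw [e, hHH, hHH, one_mul]
        simp only [h1]
        rw [Finset.sum_const, Finset.card_univ, nsmul_eq_mul, mul_one, hN]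
      · simp only [Sum.elim_inr]
        have h1 : ∀ j, ((H * X) j x.1 * H j (f x.2)) ^ 2 = (H * X) j x.1 ^ 2 := by
          intro j
          have e : ((H * X) j x.1 * H j (f x.2)) ^ 2 =
            (H * X) j x.1 ^ 2 * (H j (f x.2) * H j (f x.2)) := by ring
          rw [e, hHH, mul_one]
        simp only [h1, hZZ]
        rw [sq]) hlam (by
      rw [Fintype.card_sum, Fintype.card_prod, Fintype.card_prod]
      push_cast
      rw [hN]
      nlinarith)
  obtain ⟨Y, hY⟩ : ∃ Y : Matrix ι ρ ℝ, Y = Matrix.of fun i k => e i * H i (f k) := ⟨_, rfl⟩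
  refine ⟨⟨H, X, Y, hN, N1, lam1, hH, ?_, ?_, HHT, hXX, ?_, ?_, ?_, ?_⟩⟩
  · intro i k
    rw [hX]
    exact hsgn d hd i k
  · intro i k
    rw [hY]
    exact hsgn e he i k
  · rw [hY]; exact hcol e he
  · intro i k
    have h1 := hd2 (i, k)
    rw [Matrix.mul_apply]
    refine le_trans (le_of_eq ?_) h1
    congr 1
    refine Finset.sum_congr rfl fun j _ => ?_
    rw [hX, Matrix.of_apply]
    ring
  · intro j k
    have h1 := he2 (Sum.inl (j, k))
    rw [Matrix.mul_apply]
    refine le_trans (le_of_eq ?_) h1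
    congr 1
    refine Finset.sum_congr rfl fun i _ => ?_
    rw [hY, Matrix.of_apply, Matrix.transpose_apply, Sum.elim_inl]
    ring
  · intro k l
    have h1 := he2 (Sum.inr (k, l))
    have e1 : Xᵀ * (Hᵀ * Y) = (H * X)ᵀ * Y := by
      rw [Matrix.transpose_mul, Matrix.mul_assoc]
    rw [e1, Matrix.mul_apply]
    refine le_trans (le_of_eq ?_) h1
    congr 1
    refine Finset.sum_congr rfl fun i _ => ?_
    rw [hY, Matrix.of_apply, Matrix.transpose_apply, Sum.elim_inr]
    ring

end Pool.Agent.K1H39.NearHad
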