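import Pool.Agent.K1H39.NearHad.Lin

/-! An exactly orthogonal flat matrix from a Hadamard matrix and a border. -/

set_option autoImplicit false
set_option linter.unusedSectionVars false

namespace Pool.Agent.K1H39.NearHad

open Finset Matrix

variable {ι ρ : Type*} [Fintype ι] [DecidableEq ι] [Fintype ρ] [DecidableEq ρ]

namespace Dat

variable {N lam : ℝ} (D : Dat ι ρ N lam)

/-- difference of the two frames -/
noncomputable def Df : Matrix ι ρ ℝ := (1 / N) • D.Z - (1 / Real.sqrt N) • D.Y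

/-- small matrix to be inverted -/
noncomputable def Lm : Matrix ρ ρ ℝ := 1 - (1 / (N * Real.sqrt N)) • D.Tᵀ

/-- rotation -/
noncomputable def R (M : Matrix ρ ρ ℝ) : Matrix ι ι ℝ := 1 - D.Df * M * D.Dfᵀ

/-- partial isometry -/
noncomputable def F (M : Matrix ρ ρ ℝ) : Matrix ι ι ℝ :=
  D.R M * D.H - (1 / Real.sqrt N) • (D.Y * D.Xᵀ)

include D in
theorem sne : Real.sqrt N ≠ 0 := D.spos.ne'

include D in
theorem Neq : N = Real.sqrt N * Real.sqrt N := D.smul.symm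

theorem DfTZ : D.Dfᵀ * D.Z = N • D.Lm := by
  have hs := D.sne
  have hN := D.Npos.ne'
  unfold Df Lm
  rw [Matrix.transpose_sub, Matrix.transpose_smul, Matrix.transpose_smul, Matrix.sub_mul,
    Matrix.smul_mul, Matrix.smul_mul, D.ZTZ, D.YTZ, smul_sub, smul_smul, smul_smul]
  congr 1
  · congr 1; field_simp
  · congr 1; field_simp

theorem DfTDf : D.Dfᵀ * D.Df = D.Lm + D.Lmᵀ := by
  have hs := D.sne
  have hN := D.Npos.ne'
  have e0 : D.Df = (1 / N) • D.Z - (1 / Real.sqrt N) • D.Y := rfl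
  have e1 : D.Dfᵀ * D.Df = (1 / N * N) • D.Lm - (1 / Real.sqrt N) • (D.Dfᵀ * D.Y) := by
    have : D.Dfᵀ * D.Df = D.Dfᵀ * ((1 / N) • D.Z - (1 / Real.sqrt N) • D.Y) := by rw [← e0]
    rw [this, Matrix.mul_sub, Matrix.mul_smul, Matrix.mul_smul, D.DfTZ, smul_smul]
  have e2 : D.Dfᵀ * D.Y = (1 / N) • D.T - (1 / Real.sqrt N * N) • (1 : Matrix ρ ρ ℝ) := by
    unfold Df
    rw [Matrix.transpose_sub, Matrix.transpose_smul, Matrix.transpose_smul, Matrix.sub_mul,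
      Matrix.smul_mul, Matrix.smul_mul, D.ZTY, D.YY, smul_smul]
  have e3 : D.Lmᵀ = 1 - (1 / (N * Real.sqrt N)) • D.T := by
    unfold Lm
    rw [Matrix.transpose_sub, Matrix.transpose_one, Matrix.transpose_smul,
      Matrix.transpose_transpose]
  rw [e1, e2, e3]
  have h1 : 1 / N * N = 1 := by field_simp
  have h2 : 1 / Real.sqrt N * (1 / Real.sqrt N * N) = 1 := by
    have := D.smul
    field_simp
    rw [sq]; exact this.symm
  have h3 : 1 / Real.sqrt N * (1 / N) = 1 / (N * Real.sqrt N) := by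
    field_simp
  rw [h1, one_smul, smul_sub, smul_smul, smul_smul, h2, h3, one_smul]
  abel

variable {M : Matrix ρ ρ ℝ}

theorem RZ (hM : M * D.Lm = 1) : D.R M * D.Z = Real.sqrt N • D.Y := by
  have hs := D.sne
  have hN := D.Npos.ne'
  unfold R
  rw [Matrix.sub_mul, Matrix.one_mul, Matrix.mul_assoc, D.DfTZ, Matrix.mul_smul,
    Matrix.mul_assoc, hM, Matrix.mul_one]
  unfold Df
  rw [smul_sub, smul_smul, smul_smul]
  have h1 : N * (1 / N) = 1 := by field_simp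
  have h2 : N * (1 / Real.sqrt N) = Real.sqrt N := by
    have := D.smul
    field_simp
    rw [sq]; exact this.symm
  rw [h1, h2, one_smul]
  abel

theorem RRT (hM : M * D.Lm = 1) : D.R M * (D.R M)ᵀ = 1 := by
  have hM' : D.Lmᵀ * Mᵀ = 1 := by rw [← Matrix.transpose_mul, hM, Matrix.transpose_one]
  have e1 : (D.R M)ᵀ = 1 - D.Df * Mᵀ * D.Dfᵀ := by
    unfold R
    rw [Matrix.transpose_sub, Matrix.transpose_one, Matrix.transpose_mul, Matrix.transpose_mul,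
      Matrix.transpose_transpose, Matrix.mul_assoc]
  have e2 : D.Df * M * D.Dfᵀ * (D.Df * Mᵀ * D.Dfᵀ) =
      D.Df * Mᵀ * D.Dfᵀ + D.Df * M * D.Dfᵀ := by
    have h1 : D.Df * M * D.Dfᵀ * (D.Df * Mᵀ * D.Dfᵀ) =
        D.Df * (M * (D.Dfᵀ * D.Df) * Mᵀ) * D.Dfᵀ := by
      simp only [Matrix.mul_assoc]
    rw [h1, D.DfTDf, Matrix.mul_add, hM, Matrix.add_mul, Matrix.one_mul, Matrix.mul_assoc M,
      hM', Matrix.mul_one, Matrix.mul_add, Matrix.add_mul]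
  have e3 : D.R M = 1 - D.Df * M * D.Dfᵀ := rfl
  rw [e1, e3, Matrix.sub_mul, Matrix.mul_sub, Matrix.mul_sub, Matrix.one_mul, Matrix.one_mul,
    Matrix.mul_one, e2]
  abel

theorem FX (hM : M * D.Lm = 1) : D.F M * D.X = 0 := by
  have hs := D.sne
  unfold F
  rw [Matrix.sub_mul, Matrix.mul_assoc, Matrix.smul_mul, Matrix.mul_assoc D.Y, D.XX,
    Matrix.mul_smul, Matrix.mul_one, smul_smul]
  have h1 : D.H * D.X = D.Z := rfl
  rw [h1, D.RZ hM]
  have h2 : 1 / Real.sqrt N * N = Real.sqrt N := by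
    have := D.smul
    field_simp
    rw [sq]; exact this.symm
  rw [h2, sub_self]

theorem FHT (M : Matrix ρ ρ ℝ) : D.F M * D.Hᵀ = N • D.R M - (1 / Real.sqrt N) • (D.Y * D.Zᵀ) := by
  unfold F
  rw [Matrix.sub_mul, Matrix.mul_assoc, D.HHT, Matrix.mul_smul, Matrix.mul_one, Matrix.smul_mul,
    Matrix.mul_assoc, D.XTHT]

theorem FFT (hM : M * D.Lm = 1) : D.F M * (D.F M)ᵀ = N • (1 : Matrix ι ι ℝ) - D.Y * D.Yᵀ := by
  have hs := D.sne
  have e1 : (D.F M)ᵀ = D.Hᵀ * (D.R M)ᵀ - (1 / Real.sqrt N) • (D.X * D.Yᵀ) := by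
    unfold F
    rw [Matrix.transpose_sub, Matrix.transpose_mul, Matrix.transpose_smul, Matrix.transpose_mul,
      Matrix.transpose_transpose]
  rw [e1, Matrix.mul_sub, Matrix.mul_smul, ← Matrix.mul_assoc (D.F M) D.X, D.FX hM, Matrix.zero_mul,
    smul_zero, sub_zero, ← Matrix.mul_assoc, D.FHT, Matrix.sub_mul, Matrix.smul_mul, D.RRT hM,
    Matrix.smul_mul, Matrix.mul_assoc, ← Matrix.transpose_mul, D.RZ hM, Matrix.transpose_smul,
    Matrix.mul_smul, smul_smul]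
  have h2 : 1 / Real.sqrt N * Real.sqrt N = 1 := by field_simp
  rw [h2, one_smul]

end Dat

/-- all ones -/
def Jm (ρ : Type*) : Matrix ρ ρ ℝ := Matrix.of fun _ _ => 1

/-- combination of the identity and the all ones matrix -/
def Ga (ρ : Type*) [DecidableEq ρ] (a b : ℝ) : Matrix ρ ρ ℝ := a • (1 : Matrix ρ ρ ℝ) + b • Jm ρ

theorem JT (ρ : Type*) : (Jm ρ)ᵀ = Jm ρ := rfl

theorem JJ {r : ℝ} (hr : (Fintype.card ρ : ℝ) = r) : Jm ρ * Jm ρ = r • Jm ρ := by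
  ext i j
  rw [Matrix.mul_apply, Matrix.smul_apply]
  simp [Jm, hr]

theorem GaT (a b : ℝ) : (Ga ρ a b)ᵀ = Ga ρ a b := by
  unfold Ga
  rw [Matrix.transpose_add, Matrix.transpose_smul, Matrix.transpose_smul, Matrix.transpose_one, JT]

theorem GaJ (a b : ℝ) : Ga ρ a b * Jm ρ = Jm ρ * Ga ρ a b := by
  unfold Ga
  rw [Matrix.add_mul, Matrix.mul_add, Matrix.smul_mul, Matrix.smul_mul, Matrix.mul_smul,
    Matrix.mul_smul, Matrix.one_mul, Matrix.mul_one]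

theorem GaGa {r : ℝ} (hr : (Fintype.card ρ : ℝ) = r) (a b : ℝ) : Ga ρ a b * Ga ρ a b =
    (a ^ 2) • (1 : Matrix ρ ρ ℝ) + (2 * a * b + r * b ^ 2) • Jm ρ := by
  have e0 : Ga ρ a b = a • (1 : Matrix ρ ρ ℝ) + b • Jm ρ := rfl
  have e : Ga ρ a b * Ga ρ a b = a • Ga ρ a b + b • (Jm ρ * Ga ρ a b) := by
    have : Ga ρ a b * Ga ρ a b = (a • (1 : Matrix ρ ρ ℝ) + b • Jm ρ) * Ga ρ a b := by rw [← e0]
    rw [this, Matrix.add_mul, Matrix.smul_mul, Matrix.smul_mul, Matrix.one_mul]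
  have e2 : Jm ρ * Ga ρ a b = (a + b * r) • Jm ρ := by
    unfold Ga
    rw [Matrix.mul_add, Matrix.mul_smul, Matrix.mul_smul, Matrix.mul_one, JJ hr, smul_smul,
      ← add_smul]
  rw [e, e2, Ga]
  module

namespace Dat

variable {N lam : ℝ} (D : Dat ι ρ N lam)

/-- top left block -/
noncomputable def Gp (M : Matrix ρ ρ ℝ) (a : ℝ) : Matrix ι ι ℝ :=
  a • D.F M - (1 / N) • (D.Y * Jm ρ * D.Xᵀ)

/-- the orthogonal matrix -/
noncomputable def Q (M : Matrix ρ ρ ℝ) (a b : ℝ) : Matrix (ι ⊕ ρ) (ι ⊕ ρ) ℝ :=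
  Matrix.fromBlocks (D.Gp M a) (D.Y * Ga ρ a b) (Ga ρ a b * D.Xᵀ) (Jm ρ)

variable {M : Matrix ρ ρ ℝ} {a b r n : ℝ}

theorem GpX (hM : M * D.Lm = 1) : D.Gp M a * D.X = -(D.Y * Jm ρ) := by
  have hN := D.Npos.ne'
  unfold Gp
  rw [Matrix.sub_mul, Matrix.smul_mul, D.FX hM, smul_zero, zero_sub, Matrix.smul_mul,
    Matrix.mul_assoc, D.XX, Matrix.mul_smul, Matrix.mul_one, smul_smul]
  have : 1 / N * N = 1 := by field_simp
  rw [this, one_smul]

theorem GpGpT (hM : M * D.Lm = 1) (hr : (Fintype.card ρ : ℝ) = r) :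
    D.Gp M a * (D.Gp M a)ᵀ = (a ^ 2) • (N • (1 : Matrix ι ι ℝ) - D.Y * D.Yᵀ) +
      (r / N) • (D.Y * Jm ρ * D.Yᵀ) := by
  have hN := D.Npos.ne'
  have e1 : (D.Gp M a)ᵀ = a • (D.F M)ᵀ - (1 / N) • (D.X * (Jm ρ * D.Yᵀ)) := by
    unfold Gp
    rw [Matrix.transpose_sub, Matrix.transpose_smul, Matrix.transpose_smul, Matrix.transpose_mul,
      Matrix.transpose_mul, Matrix.transpose_transpose, JT]
  have e2 : D.Gp M a * (D.F M)ᵀ = a • (N • (1 : Matrix ι ι ℝ) - D.Y * D.Yᵀ) := by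
    unfold Gp
    rw [Matrix.sub_mul, Matrix.smul_mul, D.FFT hM, Matrix.smul_mul, Matrix.mul_assoc _ D.Xᵀ,
      ← Matrix.transpose_mul, D.FX hM, Matrix.transpose_zero, Matrix.mul_zero, smul_zero, sub_zero]
  rw [e1, Matrix.mul_sub, Matrix.mul_smul, Matrix.mul_smul, e2, ← Matrix.mul_assoc, D.GpX hM,
    Matrix.neg_mul, ← Matrix.mul_assoc, Matrix.mul_assoc D.Y, JJ hr, Matrix.mul_smul,
    Matrix.smul_mul, smul_smul]
  rw [smul_neg, smul_smul, sub_neg_eq_add]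
  congr 1
  · congr 1; ring
  · congr 1; ring

theorem QQT (hM : M * D.Lm = 1) (hr : (Fintype.card ρ : ℝ) = r)
    (ha : a ^ 2 * N = n) (hab : N * (2 * a * b + r * b ^ 2) = -r) :
    D.Q M a b * (D.Q M a b)ᵀ = n • (1 : Matrix (ι ⊕ ρ) (ι ⊕ ρ) ℝ) := by
  have hN := D.Npos.ne'
  have e0 : (Ga ρ a b * D.Xᵀ)ᵀ = D.X * Ga ρ a b := by
    rw [Matrix.transpose_mul, Matrix.transpose_transpose, GaT]
  have e0' : (D.Y * Ga ρ a b)ᵀ = Ga ρ a b * D.Yᵀ := by
    rw [Matrix.transpose_mul, GaT]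
  have e12 : D.Gp M a * (D.X * Ga ρ a b) + D.Y * Ga ρ a b * Jm ρ = 0 := by
    rw [← Matrix.mul_assoc, D.GpX hM, Matrix.neg_mul, Matrix.mul_assoc, Matrix.mul_assoc, GaJ]
    exact neg_add_cancel _
  have e11 : D.Gp M a * (D.Gp M a)ᵀ + D.Y * Ga ρ a b * (Ga ρ a b * D.Yᵀ) =
      n • (1 : Matrix ι ι ℝ) := by
    have h1 : D.Y * Ga ρ a b * (Ga ρ a b * D.Yᵀ) = D.Y * (Ga ρ a b * Ga ρ a b) * D.Yᵀ := by
      simp only [Matrix.mul_assoc]
    rw [h1, GaGa hr, D.GpGpT hM hr, Matrix.mul_add, Matrix.add_mul, Matrix.mul_smul,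
      Matrix.smul_mul, Matrix.mul_one, Matrix.mul_smul, Matrix.smul_mul]
    have h2 : 2 * a * b + r * b ^ 2 = -(r / N) := by
      field_simp
      linear_combination hab
    rw [h2, smul_sub, smul_smul, ha]
    module
  have e22 : Ga ρ a b * D.Xᵀ * (D.X * Ga ρ a b) + Jm ρ * Jm ρ = n • (1 : Matrix ρ ρ ℝ) := by
    have h1 : Ga ρ a b * D.Xᵀ * (D.X * Ga ρ a b) = Ga ρ a b * (D.Xᵀ * D.X) * Ga ρ a b := by
      simp only [Matrix.mul_assoc]
    rw [h1, D.XX, Matrix.mul_smul, Matrix.mul_one, Matrix.smul_mul, GaGa hr, JJ hr, smul_add,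
      smul_smul, smul_smul, mul_comm N, ha, hab]
    module
  have e21 : Ga ρ a b * D.Xᵀ * (D.Gp M a)ᵀ + Jm ρ * (Ga ρ a b * D.Yᵀ) = 0 := by
    have h := congrArg Matrix.transpose e12
    rw [Matrix.transpose_add, Matrix.transpose_mul, Matrix.transpose_mul, Matrix.transpose_mul,
      Matrix.transpose_mul, GaT, JT, Matrix.transpose_zero] at h
    exact h
  unfold Q
  rw [Matrix.fromBlocks_transpose, Matrix.fromBlocks_multiply, e0, e0', JT, e11, e12, e21, e22,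
    ← Matrix.fromBlocks_one, Matrix.fromBlocks_smul, smul_zero, smul_zero]

end Dat

end Pool.Agent.K1H39.NearHad
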