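import Pool.Agent.K1H39.NearHad.Main

/-! The theorem for given data. -/

set_option autoImplicit false
set_option linter.unusedSectionVars false

namespace Pool.Agent.K1H39.NearHad

open Finset Matrix

variable {ι ρ : Type*} [Fintype ι] [DecidableEq ι] [Fintype ρ] [DecidableEq ρ]

theorem sub_abs_one {x h d : ℝ} (hh : h = 1 ∨ h = -1) (hx : |x - h| ≤ d) : |(|x| - 1)| ≤ d := by
  have h1 : |h| = 1 := by rcases hh with h | h <;> rw [h] <;> simp
  rw [← h1]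
  exact (abs_abs_sub_abs_le_abs_sub x h).trans hx

theorem fb_sub {α β : Type*} (A A' : Matrix α α ℝ) (B B' : Matrix α β ℝ) (C C' : Matrix β α ℝ)
    (D D' : Matrix β β ℝ) : Matrix.fromBlocks A B C D - Matrix.fromBlocks A' B' C' D' =
      Matrix.fromBlocks (A - A') (B - B') (C - C') (D - D') := by
  ext (i | i) (k | k) <;> rfl

theorem nq_elim {α β : Type*} [Fintype α] [Fintype β] (x : α ⊕ β → ℝ) :
    nq x = nq (x ∘ Sum.inl) + nq (x ∘ Sum.inr) := by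
  unfold nq
  rw [Fintype.sum_sum_type]
  rfl

theorem nq_blocks {α β : Type*} [Fintype α] [Fintype β]
    (P : Matrix α α ℝ) (R : Matrix α β ℝ) (S : Matrix β α ℝ) {A η : ℝ} (hA : 0 ≤ A) (hη : 0 ≤ η)
    (hP : ∀ u, nq (u ᵥ* P) ≤ A ^ 2 * nq u) (hR : ∀ u, nq (u ᵥ* R) ≤ η ^ 2 * nq u)
    (hS : ∀ u, nq (u ᵥ* S) ≤ η ^ 2 * nq u) (x : α ⊕ β → ℝ) :
    nq (x ᵥ* Matrix.fromBlocks P R S 0) ≤ (A + 2 * η) ^ 2 * nq x := by
  rw [nq_elim x, nq_elim (x ᵥ* Matrix.fromBlocks P R S 0), Matrix.vecMul_fromBlocks]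
  have e1 : (Sum.elim ((x ∘ Sum.inl) ᵥ* P + (x ∘ Sum.inr) ᵥ* S)
      ((x ∘ Sum.inl) ᵥ* R + (x ∘ Sum.inr) ᵥ* (0 : Matrix β β ℝ))) ∘ Sum.inl =
      (x ∘ Sum.inl) ᵥ* P + (x ∘ Sum.inr) ᵥ* S := rfl
  have e2 : (Sum.elim ((x ∘ Sum.inl) ᵥ* P + (x ∘ Sum.inr) ᵥ* S)
      ((x ∘ Sum.inl) ᵥ* R + (x ∘ Sum.inr) ᵥ* (0 : Matrix β β ℝ))) ∘ Sum.inr =
      (x ∘ Sum.inl) ᵥ* R := by
    rw [Matrix.vecMul_zero, add_zero]; rfl
  rw [e1, e2]
  obtain ⟨u, hu⟩ : ∃ u, u = x ∘ Sum.inl := ⟨_, rfl⟩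
  obtain ⟨w, hw⟩ : ∃ w, w = x ∘ Sum.inr := ⟨_, rfl⟩
  rw [← hu, ← hw]
  have h0 := nq_nonneg u
  have h0' := nq_nonneg w
  have hs : 0 ≤ nq u + nq w := by linarith
  have h1 : nq (u ᵥ* P + w ᵥ* S) ≤ (A + η) ^ 2 * (nq u + nq w) := by
    apply nq_add_le hA hη hs
    · exact (hP u).trans (mul_le_mul_of_nonneg_left (by linarith) (sq_nonneg _))
    · exact (hS w).trans (mul_le_mul_of_nonneg_left (by linarith) (sq_nonneg _))
  have h2 : nq (u ᵥ* R) ≤ η ^ 2 * (nq u + nq w) :=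
    (hR u).trans (mul_le_mul_of_nonneg_left (by linarith) (sq_nonneg _))
  have h3 : (A + η) ^ 2 + η ^ 2 ≤ (A + 2 * η) ^ 2 := by nlinarith [mul_nonneg hA hη, sq_nonneg η]
  have h4 := mul_le_mul_of_nonneg_right h3 hs
  linarith

theorem fin_main [Nonempty ι] [Nonempty ρ] {N lam r : ℝ} (D : Dat ι ρ N lam)
    (hr : (Fintype.card ρ : ℝ) = r) (hs80 : 80 * (r ^ 2 * lam ^ 2) ≤ Real.sqrt N) (j : ℕ) {τ : ℝ}
    (hτ0 : 0 ≤ τ) (hτ : 2 * ((CC (2 ^ j) : ℝ) * (2 * N *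
      (2 * N * (80 * (r ^ 2 * lam ^ 2) / Real.sqrt N)) ^ (2 ^ j))) ≤ (τ ^ 2) ^ (2 ^ j)) :
    ∃ Q A : Matrix (ι ⊕ ρ) (ι ⊕ ρ) ℝ, Q * Qᵀ = (N + r) • (1 : Matrix (ι ⊕ ρ) (ι ⊕ ρ) ℝ) ∧
      (∀ i k, |(|Q i k| - 1)| ≤ 20 * (r ^ 2 * lam ^ 2) / Real.sqrt N) ∧
      (∀ i k, A i k = 1 ∨ A i k = -1) ∧
      (∀ x, nq (x ᵥ* (A - Q)) ≤
        ((τ + 20 * (r ^ 2 * lam ^ 2)) + 2 * (2 * r ^ 3 / Real.sqrt N)) ^ 2 * nq x) ∧
      (∀ i k, i ≠ k → |(A * Aᵀ) i k| ≤ r + 20 * (r ^ 2 * lam ^ 3) + 2 * r ^ 3 / N +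
        760 * (r ^ 4 * lam ^ 4) / Real.sqrt N + 2 * ((Real.log (12 * N ^ 2) + 2) *
          Real.sqrt (N * (80 * (r ^ 2 * lam ^ 2) / Real.sqrt N)))) := by
  have hN := D.Npos
  have hN1 := D.N1
  have hs := D.spos
  have hl := D.lam1
  have hl0 : 0 < lam := by linarith
  have hss := D.smul
  have hr1 : 1 ≤ r := by
    rw [← hr]
    exact_mod_cast Fintype.card_pos
  have hr0 : 0 < r := by linarith
  have hrl : 1 ≤ r ^ 2 * lam ^ 2 := by
    have h1 : 1 ≤ r ^ 2 := one_le_pow₀ hr1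
    have h2 : 1 ≤ lam ^ 2 := one_le_pow₀ hl
    nlinarith
  have hrl2 : r * lam ≤ r ^ 2 * lam ^ 2 := by
    have : 1 ≤ r * lam := by nlinarith
    calc r * lam = r * lam * 1 := by ring
      _ ≤ r * lam * (r * lam) := mul_le_mul_of_nonneg_left this (by positivity)
      _ = _ := by ring
  have hr2 : r ^ 2 ≤ Real.sqrt N := by
    have : r ^ 2 ≤ r ^ 2 * lam ^ 2 := le_mul_of_one_le_right (by positivity) (one_le_pow₀ hl)
    linarith
  have hsm : 2 * (r * lam) ≤ Real.sqrt N := by linarith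
  have hsN := D.sN
  have hrN : r ≤ N := by nlinarith
  have hr2N : r ^ 2 ≤ N := by linarith
  obtain ⟨M, hM, hM2⟩ := D.exists_M hr hsm
  obtain ⟨a, b, ha1, ha2, hb, ha, hab⟩ := exists_ab hN hr1 hr2N
  obtain ⟨s, hsdef⟩ : ∃ s, s = Real.sqrt N := ⟨_, rfl⟩
  obtain ⟨c, hc⟩ : ∃ c, c = 20 * (r ^ 2 * lam ^ 2) / Real.sqrt N := ⟨_, rfl⟩
  have hc0 : 0 < c := by rw [hc]; positivity
  have hc4 : 4 * c ≤ 1 := by
    rw [hc, ← mul_div_assoc, div_le_one hs]; linarith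
  have hc1 : c ≤ 1 := by linarith
  have hq : 80 * (r ^ 2 * lam ^ 2) / Real.sqrt N = 4 * c := by rw [hc]; ring
  rw [hq] at hτ ⊢
  have hG : ∀ i j, |D.Gp M a i j - D.H i j| ≤ c := by
    rw [hc]; exact D.bGp hr hr1 hrN hM2 ha1 ha2
  have hcen := fcen D.hH hG hc1
  have hcs : c * Real.sqrt N = 20 * (r ^ 2 * lam ^ 2) := by rw [hc]; field_simp
  have hNc : N * (4 * c) = Real.sqrt N * (80 * (r ^ 2 * lam ^ 2)) := by
    calc N * (4 * c) = Real.sqrt N * Real.sqrt N * (4 * c) := by rw [hss]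
      _ = Real.sqrt N * (4 * (c * Real.sqrt N)) := by ring
      _ = _ := by rw [hcs]; ring
  have hs1 : 1 ≤ Real.sqrt N := Real.one_le_sqrt.2 hN1
  have hNc4 : 4 ≤ N * (4 * c) := by rw [hNc]; nlinarith
  obtain ⟨n, hn⟩ : ∃ n, n = Fintype.card ι := ⟨_, rfl⟩
  have hnN : (n : ℝ) = N := by rw [hn]; exact D.hN
  obtain ⟨v, hv⟩ : ∃ v, v = fv D.H (D.Gp M a) c := ⟨_, rfl⟩
  obtain ⟨m, hm⟩ : ∃ m : Matrix ι ι ℝ, m = D.Gp M a - c • D.H := ⟨_, rfl⟩
  have hme : ∀ i j, m i j = D.Gp M a i j - c * D.H i j := by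
    intro i j
    rw [hm, Matrix.sub_apply, Matrix.smul_apply, smul_eq_mul]
  obtain ⟨B, hB⟩ : ∃ B : (ι × ι → Bool) → Matrix ι ι ℝ, B = fun ξ => m +
    Matrix.of fun i j => ev v (i, j) ξ := ⟨_, rfl⟩
  have hBe : ∀ ξ i j, B ξ i j = m i j + ev v (i, j) ξ := by
    intro ξ i j
    rw [hB]
    rfl
  have hBv : ∀ ξ i j, B ξ i j = D.H i j * (1 - 2 * bit (ξ (i, j))) := by
    intro ξ i j
    rw [hBe, hme, hv]
    exact fval D.hH ξ i j
  have hB1 : ∀ ξ i j, B ξ i j = 1 ∨ B ξ i j = -1 := by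
    intro ξ i j
    rw [hBv]
    rcases D.hH i j with h | h <;> rw [h] <;> cases ξ (i, j) <;> simp [bit] <;> norm_num
  have hBa : ∀ ξ i j, |B ξ i j| ≤ 1 := by
    intro ξ i j
    rcases hB1 ξ i j with h | h <;> rw [h] <;> simp
  have hma : ∀ i j, |m i j| ≤ 1 := by
    intro i j
    have e : m i j = (1 - c) * D.H i j + (D.Gp M a i j - D.H i j) := by rw [hme]; ring
    rw [e]
    refine (abs_add_le _ _).trans ?_
    rw [abs_mul, abs_of_nonneg (by linarith : 0 ≤ 1 - c)]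
    have h1 : |D.H i j| = 1 := by rcases D.hH i j with h | h <;> rw [h] <;> simp
    rw [h1]
    have := hG i j
    linarith
  obtain ⟨row, hrow⟩ : ∃ row : (ι × ι) ⊕ ({x : ι × ι // x.1 ≠ x.2} ⊕ (ι × ρ)) → ι,
    row = Sum.elim (fun x => x.1) (Sum.elim (fun x => x.1.2) (fun x => x.1)) := ⟨_, rfl⟩
  obtain ⟨bb, hbb⟩ : ∃ bb : (ι × ι) ⊕ ({x : ι × ι // x.1 ≠ x.2} ⊕ (ι × ρ)) → ι →
    (ι × ι → Bool) → ℝ, bb = Sum.elim (fun x j _ => m x.2 j)
      (Sum.elim (fun x j ξ => B ξ x.1.1 j) (fun x j _ => D.X j x.2)) := ⟨_, rfl⟩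
  have hK : (Fintype.card (ι ⊕ ι) : ℝ) = 2 * N := by
    rw [Fintype.card_sum]
    push_cast
    rw [D.hN]; ring
  have hEtr := EE_trace hcen hc4 hK (by nlinarith) (Nat.pos_of_ne_zero (by positivity) : 0 < 2 ^ j)
  rw [← hv] at hcen hEtr
  have hw : (0 : ℝ) < (CC (2 ^ j) : ℝ) * (2 * N * (2 * N * (4 * c)) ^ (2 ^ j)) := by
    have : (0 : ℝ) < (CC (2 ^ j) : ℝ) := by exact_mod_cast CC_pos _
    positivity
  obtain ⟨ξ, hξ1, hξ2⟩ := select hcen hn.symm (by rw [hnN]; exact hNc4) row bb (by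
      intro x j ξ
      rw [hbb]
      rcases x with x | x | x
      · exact hma _ _
      · exact hBa _ _ _
      · exact D.aX _ _) (by
      intro x j j' ξ z
      rw [hrow, hbb]
      rcases x with x | x | x
      · rfl
      · show B _ _ _ = B _ _ _
        rw [hBe, hBe]
        congr 1
        unfold ev
        congr 1
        apply Function.update_of_ne
        intro h
        have h2 := (Prod.mk.inj h).1
        exact x.2 h2
      · rfl) (fun ξ => (Sm v ξ ^ (2 * 2 ^ j)).trace)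
    (fun ξ => trace_nonneg _ (Sm_symm v ξ) _) hw hEtr
  rw [hnN] at hξ2
  obtain ⟨LL, hLL⟩ : ∃ LL, LL = (Real.log (12 * N ^ 2) + 2) * Real.sqrt (N * (4 * c)) := ⟨_, rfl⟩
  have hstat : ∀ x, |∑ j, bb x j ξ * ev v (row x, j) ξ| ≤ LL := by
    intro x
    refine (hξ2 x).trans ?_
    rw [hLL]
    apply mul_le_mul_of_nonneg_right _ (Real.sqrt_nonneg _)
    have hS1 : (Fintype.card ((ι × ι) ⊕ ({x : ι × ι // x.1 ≠ x.2} ⊕ (ι × ρ))) : ℝ) ≤ 3 * N ^ 2 := by
      rw [Fintype.card_sum, Fintype.card_sum, Fintype.card_prod, Fintype.card_prod]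
      have h1 : (Fintype.card {x : ι × ι // x.1 ≠ x.2} : ℝ) ≤ N * N := by
        have := Fintype.card_subtype_le (fun x : ι × ι => x.1 ≠ x.2)
        rw [Fintype.card_prod] at this
        rw [← D.hN]
        exact_mod_cast this
      push_cast
      rw [D.hN, hr]
      have h2 : N * r ≤ N * N := mul_le_mul_of_nonneg_left hrN hN.le
      have h3 : N ^ 2 = N * N := sq N
      rw [h3]
      linarith
    have hS0 : (0 : ℝ) < Fintype.card ((ι × ι) ⊕ ({x : ι × ι // x.1 ≠ x.2} ⊕ (ι × ρ))) := by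
      exact_mod_cast Fintype.card_pos
    have : Real.log (4 * Fintype.card ((ι × ι) ⊕ ({x : ι × ι // x.1 ≠ x.2} ⊕ (ι × ρ)))) ≤
        Real.log (12 * N ^ 2) := by
      apply Real.log_le_log (by positivity)
      linarith
    linarith
  have hst1 : ∀ i k, |∑ j, m k j * ev v (i, j) ξ| ≤ LL := by
    intro i k
    have := hstat (Sum.inl (i, k))
    rw [hrow, hbb] at this
    exact this
  have hst2 : ∀ i k, i ≠ k → |∑ j, B ξ i j * ev v (k, j) ξ| ≤ LL := by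
    intro i k hik
    have := hstat (Sum.inr (Sum.inl ⟨(i, k), hik⟩))
    rw [hrow, hbb] at this
    exact this
  have hst3 : ∀ i l, |∑ j, D.X j l * ev v (i, j) ξ| ≤ LL := by
    intro i l
    have := hstat (Sum.inr (Sum.inr (i, l)))
    rw [hrow, hbb] at this
    exact this
  have hLL0 : 0 ≤ LL := by
    obtain ⟨i⟩ := ‹Nonempty ι›
    exact (abs_nonneg _).trans (hst1 i i)
  have hcol : ∀ (P : Matrix ι ρ ℝ), (∀ i k, |P i k| ≤ 1) → ∀ i k,
      |(P - P * Ga ρ a b) i k| ≤ 2 * r ^ 2 / N := by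
    intro P hP i k
    rw [Matrix.sub_apply, abs_sub_comm]
    exact D.bYGa hr hr1 ha1 ha2 hb P hP i k
  have hη : r * N * (2 * r ^ 2 / N) ^ 2 ≤ (2 * r ^ 3 / Real.sqrt N) ^ 2 := by
    rw [div_pow, div_pow, Real.sq_sqrt hN.le]
    have e1 : r * N * ((2 * r ^ 2) ^ 2 / N ^ 2) = 4 * r ^ 5 / N := by field_simp; ring
    have e2 : (2 * r ^ 3) ^ 2 / N = 4 * r ^ 6 / N := by ring
    rw [e1, e2]
    apply div_le_div_of_nonneg_right _ hN.le
    have : r ^ 5 ≤ r ^ 6 := pow_le_pow_right₀ hr1 (by norm_num)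
    linarith
  refine ⟨D.Q M a b, Matrix.fromBlocks (B ξ) D.Y D.Xᵀ (Jm ρ), D.QQT hM hr ha hab, ?_, ?_, ?_, ?_⟩
  · rw [← hc]
    have h1 : 2 * r ^ 2 / N ≤ c := by
      rw [hc]
      apply div_le_div₀ (by positivity) _ hs hsN
      have : r ^ 2 ≤ r ^ 2 * lam ^ 2 := le_mul_of_one_le_right (by positivity) (one_le_pow₀ hl)
      linarith
    rintro (i | i) (k | k)
    · exact sub_abs_one (D.hH i k) (hG i k)
    · exact sub_abs_one (D.hY i k) ((D.bYGa hr hr1 ha1 ha2 hb D.Y D.aY i k).trans h1)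
    · have e : (Ga ρ a b * D.Xᵀ) i k = (D.X * Ga ρ a b) k i := by
        have : Ga ρ a b * D.Xᵀ = (D.X * Ga ρ a b)ᵀ := by rw [Matrix.transpose_mul, GaT]
        rw [this, Matrix.transpose_apply]
      show |(|(Ga ρ a b * D.Xᵀ) i k| - 1)| ≤ c
      rw [e]
      exact sub_abs_one (D.hX k i) ((D.bYGa hr hr1 ha1 ha2 hb D.X D.aX k i).trans h1)
    · show |(|Jm ρ i k| - 1)| ≤ c
      simp only [Jm, Matrix.of_apply, abs_one, sub_self, abs_zero]
      exact hc0.le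
  · rintro (i | i) (k | k)
    · exact hB1 ξ i k
    · exact D.hY i k
    · exact D.hX k i
    · left; rfl
  · have e1 : Matrix.fromBlocks (B ξ) D.Y D.Xᵀ (Jm ρ) - D.Q M a b =
        Matrix.fromBlocks ((Matrix.of fun i j => ev v (i, j) ξ) + (-c) • D.H)
          (D.Y - D.Y * Ga ρ a b) (D.Xᵀ - Ga ρ a b * D.Xᵀ) 0 := by
      unfold Dat.Q
      rw [fb_sub, sub_self]
      congr 1
      rw [hB, hm]
      ext i j
      simp only [Matrix.sub_apply, Matrix.add_apply, Matrix.smul_apply, smul_eq_mul]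
      ring
    rw [e1]
    apply nq_blocks
    · positivity
    · positivity
    · intro u
      rw [Matrix.vecMul_add]
      apply nq_add_le hτ0 (by positivity) (nq_nonneg u)
      · have h1 := nq_vecMul_pow v ξ j u
        have h2 : (Sm v ξ ^ (2 * 2 ^ j)).trace * nq u ^ 2 ^ j ≤ (τ ^ 2 * nq u) ^ 2 ^ j := by
          rw [mul_pow]
          exact mul_le_mul_of_nonneg_right (hξ1.trans hτ) (pow_nonneg (nq_nonneg u) _)
        exact le_of_pow_le_pow_left₀ (by positivity) (mul_nonneg (sq_nonneg _) (nq_nonneg u))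
          (h1.trans h2)
      · have h1 : u ᵥ* ((-c) • D.H) = (-c) • (u ᵥ* D.H) := by
          rw [Matrix.vecMul_smul]
        have h2 : nq ((-c) • (u ᵥ* D.H)) = c ^ 2 * nq (u ᵥ* D.H) := by
          unfold nq
          rw [Finset.mul_sum]
          refine Finset.sum_congr rfl fun i _ => ?_
          rw [Pi.smul_apply, smul_eq_mul]
          ring
        rw [h1, h2, D.nq_H, ← hcs]
        apply le_of_eq
        calc c ^ 2 * (N * nq u) = c ^ 2 * ((Real.sqrt N * Real.sqrt N) * nq u) := by rw [hss]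
          _ = _ := by ring
    · intro u
      refine (nq_vecMul_le _ (hcol D.Y D.aY) u).trans ?_
      rw [D.hN, hr]
      apply mul_le_mul_of_nonneg_right _ (nq_nonneg u)
      calc N * r * (2 * r ^ 2 / N) ^ 2 = r * N * (2 * r ^ 2 / N) ^ 2 := by ring
        _ ≤ _ := hη
    · intro u
      have h1 : ∀ i k, |(D.Xᵀ - Ga ρ a b * D.Xᵀ) i k| ≤ 2 * r ^ 2 / N := by
        intro i k
        have : D.Xᵀ - Ga ρ a b * D.Xᵀ = (D.X - D.X * Ga ρ a b)ᵀ := by
          rw [Matrix.transpose_sub, Matrix.transpose_mul, GaT]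
        rw [this, Matrix.transpose_apply]
        exact hcol D.X D.aX k i
      refine (nq_vecMul_le _ h1 u).trans ?_
      rw [D.hN, hr]
      exact mul_le_mul_of_nonneg_right hη (nq_nonneg u)
  · have eT : (Matrix.fromBlocks (B ξ) D.Y D.Xᵀ (Jm ρ))ᵀ =
        Matrix.fromBlocks (B ξ)ᵀ D.X D.Yᵀ (Jm ρ) := by
      rw [Matrix.fromBlocks_transpose, Matrix.transpose_transpose, JT]
    have hP1 : 0 ≤ 20 * (r ^ 2 * lam ^ 3) := by positivity
    have hP2 : 0 ≤ 2 * r ^ 3 / N := by positivity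
    have hP3 : 0 ≤ 760 * (r ^ 4 * lam ^ 4) / Real.sqrt N := by positivity
    have h12 : ∀ i l, |(Matrix.fromBlocks (B ξ) D.Y D.Xᵀ (Jm ρ) *
        (Matrix.fromBlocks (B ξ) D.Y D.Xᵀ (Jm ρ))ᵀ) (Sum.inl i) (Sum.inr l)| ≤
        20 * (r ^ 2 * lam ^ 3) + LL := by
      intro i l
      have e1 : (Matrix.fromBlocks (B ξ) D.Y D.Xᵀ (Jm ρ) *
        (Matrix.fromBlocks (B ξ) D.Y D.Xᵀ (Jm ρ))ᵀ) (Sum.inl i) (Sum.inr l) =
          (B ξ * D.X + D.Y * Jm ρ) i l := by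
        rw [eT, Matrix.fromBlocks_multiply]
        rfl
      have e2 : B ξ * D.X + D.Y * Jm ρ =
          (Matrix.of fun i j => ev v (i, j) ξ) * D.X - c • D.Z := by
        rw [hB, hm]
        simp only
        rw [Matrix.add_mul, Matrix.sub_mul, D.GpX hM, Matrix.smul_mul]
        have : D.H * D.X = D.Z := rfl
        rw [this]
        abel
      rw [e1, e2, Matrix.sub_apply, Matrix.smul_apply, smul_eq_mul, Matrix.mul_apply]
      refine (abs_sub _ _).trans ?_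
      rw [abs_mul, abs_of_pos hc0]
      have h1 : |∑ j, (Matrix.of fun i j => ev v (i, j) ξ) i j * D.X j l| ≤ LL := by
        have e3 : ∑ j, (Matrix.of fun i j => ev v (i, j) ξ) i j * D.X j l =
            ∑ j, D.X j l * ev v (i, j) ξ :=
          Finset.sum_congr rfl fun j _ => mul_comm _ _
        rw [e3]
        exact hst3 i l
      have h2 : c * |D.Z i l| ≤ c * (lam * Real.sqrt N) :=
        mul_le_mul_of_nonneg_left (D.bZ i l) hc0.le
      have h3 : c * (lam * Real.sqrt N) = 20 * (r ^ 2 * lam ^ 3) := by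
        calc c * (lam * Real.sqrt N) = lam * (c * Real.sqrt N) := by ring
          _ = _ := by rw [hcs]; ring
      linarith
    rw [← hLL]
    rintro (i | i) (k | k) hik
    · have hik' : i ≠ k := fun h => hik (by rw [h])
      have e1 : (Matrix.fromBlocks (B ξ) D.Y D.Xᵀ (Jm ρ) *
        (Matrix.fromBlocks (B ξ) D.Y D.Xᵀ (Jm ρ))ᵀ) (Sum.inl i) (Sum.inl k) =
          (B ξ * (B ξ)ᵀ + D.Y * D.Yᵀ) i k := by
        rw [eT, Matrix.fromBlocks_multiply]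
        rfl
      have e2 : (B ξ * (B ξ)ᵀ) i k = (m * mᵀ) i k + (∑ j, m k j * ev v (i, j) ξ) +
          ∑ j, B ξ i j * ev v (k, j) ξ := by
        rw [Matrix.mul_apply, Matrix.mul_apply, ← Finset.sum_add_distrib, ← Finset.sum_add_distrib]
        refine Finset.sum_congr rfl fun j _ => ?_
        rw [Matrix.transpose_apply, Matrix.transpose_apply, hBe ξ k j, mul_add, hBe ξ i j]
        ring
      rw [e1, Matrix.add_apply, e2]
      have h1 := D.mm_entry hr hr1 hrN hM hM2 ha1 ha2 ha hc0.le hik'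
      rw [← hm] at h1
      have h2 := hst1 i k
      have h3 := hst2 i k hik'
      have h4 : 2 * (c * (19 * (r ^ 2 * lam ^ 2))) = 760 * (r ^ 4 * lam ^ 4) / Real.sqrt N := by
        rw [hc]; ring
      rw [h4] at h1
      have h5 : (m * mᵀ) i k + ∑ j, m k j * ev v (i, j) ξ + ∑ j, B ξ i j * ev v (k, j) ξ +
          (D.Y * D.Yᵀ) i k = ((m * mᵀ) i k + (D.Y * D.Yᵀ) i k) +
            (∑ j, m k j * ev v (i, j) ξ + ∑ j, B ξ i j * ev v (k, j) ξ) := by ring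
      rw [h5]
      refine (abs_add_le _ _).trans ?_
      have h6 := abs_add_le (∑ j, m k j * ev v (i, j) ξ) (∑ j, B ξ i j * ev v (k, j) ξ)
      linarith
    · have := h12 i k
      linarith
    · have h1 := h12 k i
      have e1 : (Matrix.fromBlocks (B ξ) D.Y D.Xᵀ (Jm ρ) *
        (Matrix.fromBlocks (B ξ) D.Y D.Xᵀ (Jm ρ))ᵀ) (Sum.inr i) (Sum.inl k) =
          (Matrix.fromBlocks (B ξ) D.Y D.Xᵀ (Jm ρ) *
        (Matrix.fromBlocks (B ξ) D.Y D.Xᵀ (Jm ρ))ᵀ) (Sum.inl k) (Sum.inr i) := by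
        rw [Matrix.mul_apply, Matrix.mul_apply]
        refine Finset.sum_congr rfl fun j _ => ?_
        rw [Matrix.transpose_apply, Matrix.transpose_apply, mul_comm]
      rw [e1]
      linarith
    · have hik' : i ≠ k := fun h => hik (by rw [h])
      have e1 : (Matrix.fromBlocks (B ξ) D.Y D.Xᵀ (Jm ρ) *
        (Matrix.fromBlocks (B ξ) D.Y D.Xᵀ (Jm ρ))ᵀ) (Sum.inr i) (Sum.inr k) =
          (D.Xᵀ * D.X + Jm ρ * Jm ρ) i k := by
        rw [eT, Matrix.fromBlocks_multiply]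
        rfl
      rw [e1, D.XX, JJ hr, Matrix.add_apply, Matrix.smul_apply, Matrix.smul_apply,
        Matrix.one_apply_ne hik']
      simp only [Jm, Matrix.of_apply, smul_eq_mul, mul_zero, mul_one, zero_add]
      rw [abs_of_pos hr0]
      linarith

end Pool.Agent.K1H39.NearHad
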