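import Pool.Agent.K1H39.NearHad.Asym

/-! The theorem for all large orders. -/

set_option autoImplicit false
set_option linter.unusedSectionVars false

namespace Pool.Agent.K1H39.NearHad

open Finset Matrix

open Pool.Agent.W851.Had (tow tow_zero tow_succ tow_pos)

theorem small_pow (R : ℕ) (hR : 1 ≤ R) : (240 : ℝ) * (R : ℝ) ^ 2 ≤ 2 ^ (64 * R) := by
  have h1 : (R : ℝ) ≤ 2 ^ R := by exact_mod_cast Nat.lt_two_pow_self.le
  have h2 : (R : ℝ) ^ 2 ≤ 2 ^ (2 * R) := by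
    rw [mul_comm, pow_mul]
    exact pow_le_pow_left₀ (by positivity) h1 2
  calc (240 : ℝ) * (R : ℝ) ^ 2 ≤ 2 ^ 8 * 2 ^ (2 * R) :=
        mul_le_mul (by norm_num) h2 (by positivity) (by positivity)
    _ = 2 ^ (8 + 2 * R) := by rw [pow_add]
    _ ≤ 2 ^ (64 * R) := pow_le_pow_right₀ (by norm_num) (by omega)

theorem PP_le (m : ℕ) : ∀ a, PP m a ≤ (a + m) ^ m := by
  induction m with
  | zero => intro a; simp [PP]
  | succ m ih =>
    intro a
    have h := ih (a + 1)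
    have e : a + (m + 1) = a + 1 + m := by ring
    rw [e, pow_succ, mul_comm]
    exact Nat.mul_le_mul (by omega) h

theorem CC_le {k : ℕ} (hk : 0 < k) : (CC k : ℝ) ≤ (16 * (k : ℝ) ^ 2) ^ k := by
  have h1 := PP_le (2 * k - 1) 1
  have e : 1 + (2 * k - 1) = 2 * k := by omega
  rw [e] at h1
  have h2 : PP (2 * k - 1) 1 ≤ (2 * k) ^ (2 * k) :=
    h1.trans (Nat.pow_le_pow_right (by omega) (by omega))
  have h3 : CC k ≤ (16 * k ^ 2) ^ k := by
    unfold CC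
    calc 4 ^ k * PP (2 * k - 1) 1 ≤ 4 ^ k * (2 * k) ^ (2 * k) := Nat.mul_le_mul_left _ h2
      _ = (16 * k ^ 2) ^ k := by rw [pow_mul, ← mul_pow]; congr 1; ring
  exact_mod_cast h3

/-- the estimates -/
theorem estimates {n N r L lam : ℝ} {k : ℕ} (CK : ℝ) (hCK : 0 ≤ CK)
    (hCK2 : CK ≤ (16 * (k : ℝ) ^ 2) ^ k)
    (hn : n = N + r) (hr1 : 1 ≤ r)
    (hL1 : 62 ≤ L) (hL : L = Real.log n) (hrL : 240 * r ^ 2 ≤ L) (hlam0 : 1 ≤ lam)
    (hlam : lam ^ 2 = 6 * L)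
    (hn4 : 4 ≤ n) (hE5 : 2 * L ≤ n) (hE4 : 4 * L ^ 2 ≤ Real.sqrt n)
    (hE1 : L ^ 2 ≤ n ^ (1 / 4 : ℝ)) (hk1 : L ≤ k) (hk2 : k ≤ 2 * L) :
    1 ≤ N ∧ 4 * N ^ 2 ≤ Real.exp (lam ^ 2 / 2) ∧ 80 * (r ^ 2 * lam ^ 2) ≤ Real.sqrt N ∧
    2 * (CK * (2 * N * (2 * N * (80 * (r ^ 2 * lam ^ 2) / Real.sqrt N)) ^ k)) ≤
      ((60 * L ^ 2 * n ^ (1 / 4 : ℝ)) ^ 2) ^ k ∧
    20 * (r ^ 2 * lam ^ 2) / Real.sqrt N ≤ L ^ 2 / Real.sqrt n ∧
    (60 * L ^ 2 * n ^ (1 / 4 : ℝ) + 20 * (r ^ 2 * lam ^ 2)) + 2 * (2 * r ^ 3 / Real.sqrt N) ≤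
      n ^ (1 / 4 : ℝ) * L ^ 3 ∧
    r + 20 * (r ^ 2 * lam ^ 3) + 2 * r ^ 3 / N +
        760 * (r ^ 4 * lam ^ 4) / Real.sqrt N + 2 * ((Real.log (12 * N ^ 2) + 2) *
          Real.sqrt (N * (80 * (r ^ 2 * lam ^ 2) / Real.sqrt N))) ≤ n ^ (1 / 4 : ℝ) * L ^ 3 := by
  have hn0 : 0 < n := by linarith
  have hr0 : 0 < r := by linarith
  have hL0 : 0 < L := by linarith
  have hrr : r ≤ r ^ 2 := by nlinarith
  have hrL' : r ≤ L / 240 := by linarith
  have hN2 : n / 2 ≤ N := by linarith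
  have hN4 : n / 4 ≤ N := by linarith
  have hN1 : 1 ≤ N := by linarith
  have hN0 : 0 < N := by linarith
  have hNn : N ≤ n := by linarith
  have hs0 : 0 < Real.sqrt N := Real.sqrt_pos.2 hN0
  have hs1 : 1 ≤ Real.sqrt N := Real.one_le_sqrt.2 hN1
  have hsn0 : 0 < Real.sqrt n := Real.sqrt_pos.2 hn0
  have hsn : Real.sqrt N ≤ Real.sqrt n := Real.sqrt_le_sqrt hNn
  have hsn2 : Real.sqrt n / 2 ≤ Real.sqrt N := by
    apply Real.le_sqrt_of_sq_le
    rw [div_pow, Real.sq_sqrt hn0.le]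
    linarith
  have hss : Real.sqrt N * Real.sqrt N = N := Real.mul_self_sqrt hN0.le
  have h80 : 80 * (r ^ 2 * lam ^ 2) ≤ 2 * L ^ 2 := by
    rw [hlam]
    nlinarith
  have h80s : 80 * (r ^ 2 * lam ^ 2) ≤ Real.sqrt N := by linarith
  have hn14 : 1 ≤ n ^ (1 / 4 : ℝ) := Real.one_le_rpow (by linarith) (by norm_num)
  have hLsq : 0 < L ^ 2 := by positivity
  have hr3 : r ^ 3 ≤ L ^ 2 / 240 := by
    have : r ^ 3 = r ^ 2 * r := by ring
    rw [this]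
    have h1 : r ^ 2 ≤ L / 240 := by linarith
    have h2 : r ≤ L := by linarith
    calc r ^ 2 * r ≤ L / 240 * L := mul_le_mul h1 h2 hr0.le (by positivity)
      _ = L ^ 2 / 240 := by ring
  refine ⟨hN1, ?_, h80s, ?_, ?_, ?_, ?_⟩
  · rw [hlam]
    have h1 : 6 * L / 2 = Real.log n + Real.log n + Real.log n := by rw [← hL]; ring
    rw [h1, Real.exp_add, Real.exp_add, Real.exp_log hn0]
    have h2 : N ^ 2 ≤ n ^ 2 := pow_le_pow_left₀ hN0.le hNn 2
    nlinarith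
  · have h1 : 2 * N * (80 * (r ^ 2 * lam ^ 2) / Real.sqrt N) ≤ 4 * L ^ 2 * Real.sqrt n := by
      have e1 : 2 * N * (80 * (r ^ 2 * lam ^ 2) / Real.sqrt N) =
          2 * (80 * (r ^ 2 * lam ^ 2)) * Real.sqrt N := by
        rw [← mul_div_assoc, div_eq_iff hs0.ne']
        calc 2 * N * (80 * (r ^ 2 * lam ^ 2)) = 2 * (80 * (r ^ 2 * lam ^ 2)) * N := by ring
          _ = 2 * (80 * (r ^ 2 * lam ^ 2)) * (Real.sqrt N * Real.sqrt N) := by rw [hss]
          _ = _ := by ring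
      rw [e1]
      calc 2 * (80 * (r ^ 2 * lam ^ 2)) * Real.sqrt N ≤ 2 * (2 * L ^ 2) * Real.sqrt n := by
            apply mul_le_mul _ hsn hs0.le (by positivity)
            linarith
        _ = _ := by ring
    have h2 : (2 * N * (80 * (r ^ 2 * lam ^ 2) / Real.sqrt N)) ^ k ≤
        (4 * L ^ 2 * Real.sqrt n) ^ k :=
      pow_le_pow_left₀ (by positivity) h1 k
    have h3 : 2 * (CK * (2 * N * (2 * N * (80 * (r ^ 2 * lam ^ 2) / Real.sqrt N)) ^ k)) ≤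
        2 * ((16 * (k : ℝ) ^ 2) ^ k * (2 * n * (4 * L ^ 2 * Real.sqrt n) ^ k)) := by
      apply mul_le_mul_of_nonneg_left _ (by norm_num)
      apply mul_le_mul hCK2 _ (by positivity) (by positivity)
      apply mul_le_mul _ h2 (by positivity) (by positivity)
      linarith
    refine h3.trans ?_
    have hk0 : 1 ≤ k := by
      have : (0 : ℝ) < k := by linarith
      exact_mod_cast this
    have h4 : 4 * n ≤ 12 ^ k := by
      have h5 : n ≤ 3 ^ k := by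
        calc n = Real.exp L := by rw [hL, Real.exp_log hn0]
          _ ≤ Real.exp k := Real.exp_le_exp.2 hk1
          _ = Real.exp 1 ^ k := by rw [← Real.exp_nat_mul, mul_one]
          _ ≤ 3 ^ k := pow_le_pow_left₀ (Real.exp_pos 1).le (by linarith [Real.exp_one_lt_d9]) k
      have h6 : (4 : ℝ) ≤ 4 ^ k := by
        calc (4 : ℝ) = 4 ^ 1 := by norm_num
          _ ≤ 4 ^ k := pow_le_pow_right₀ (by norm_num) hk0
      calc 4 * n ≤ 4 ^ k * 3 ^ k := mul_le_mul h6 h5 hn0.le (by positivity)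
        _ = 12 ^ k := by rw [← mul_pow]; norm_num
    have e2 : 2 * ((16 * (k : ℝ) ^ 2) ^ k * (2 * n * (4 * L ^ 2 * Real.sqrt n) ^ k)) =
        (4 * n) * (16 * (k : ℝ) ^ 2 * (4 * L ^ 2 * Real.sqrt n)) ^ k := by
      rw [mul_pow (16 * (k : ℝ) ^ 2)]
      ring
    rw [e2]
    have h5 : 16 * (k : ℝ) ^ 2 * (4 * L ^ 2 * Real.sqrt n) ≤ 256 * L ^ 4 * Real.sqrt n := by
      have h6 : (k : ℝ) ^ 2 ≤ (2 * L) ^ 2 := pow_le_pow_left₀ (by positivity) hk2 2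
      calc 16 * (k : ℝ) ^ 2 * (4 * L ^ 2 * Real.sqrt n) =
            (k : ℝ) ^ 2 * (64 * L ^ 2 * Real.sqrt n) := by ring
        _ ≤ (2 * L) ^ 2 * (64 * L ^ 2 * Real.sqrt n) :=
            mul_le_mul_of_nonneg_right h6 (by positivity)
        _ = 256 * L ^ 4 * Real.sqrt n := by ring
    have h6 : (16 * (k : ℝ) ^ 2 * (4 * L ^ 2 * Real.sqrt n)) ^ k ≤
        (256 * L ^ 4 * Real.sqrt n) ^ k := pow_le_pow_left₀ (by positivity) h5 k
    have e3 : (60 * L ^ 2 * n ^ (1 / 4 : ℝ)) ^ 2 = 3600 * L ^ 4 * Real.sqrt n := by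
      rw [mul_pow, ← Real.rpow_natCast (n ^ (1 / 4 : ℝ)) 2, ← Real.rpow_mul hn0.le,
        Real.sqrt_eq_rpow]
      norm_num
      left
      ring
    rw [e3]
    calc 4 * n * (16 * (k : ℝ) ^ 2 * (4 * L ^ 2 * Real.sqrt n)) ^ k ≤
          12 ^ k * (256 * L ^ 4 * Real.sqrt n) ^ k :=
          mul_le_mul h4 h6 (by positivity) (by positivity)
      _ = (12 * (256 * L ^ 4 * Real.sqrt n)) ^ k := by rw [← mul_pow]
      _ ≤ (3600 * L ^ 4 * Real.sqrt n) ^ k := by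
          apply pow_le_pow_left₀ (by positivity)
          have : 0 ≤ L ^ 4 * Real.sqrt n := by positivity
          linarith
  · rw [div_le_div_iff₀ hs0 hsn0]
    have h1 : 20 * (r ^ 2 * lam ^ 2) ≤ L ^ 2 / 2 := by linarith
    calc 20 * (r ^ 2 * lam ^ 2) * Real.sqrt n ≤ L ^ 2 / 2 * Real.sqrt n :=
          mul_le_mul_of_nonneg_right h1 hsn0.le
      _ = L ^ 2 * (Real.sqrt n / 2) := by ring
      _ ≤ L ^ 2 * Real.sqrt N := mul_le_mul_of_nonneg_left hsn2 hLsq.le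
  · have h1 : 20 * (r ^ 2 * lam ^ 2) ≤ L ^ 2 := by linarith
    have h2 : 2 * (2 * r ^ 3 / Real.sqrt N) ≤ L ^ 2 := by
      have h3 : 2 * r ^ 3 / Real.sqrt N ≤ 2 * r ^ 3 := div_le_self (by positivity) hs1
      linarith
    have h6 : n ^ (1 / 4 : ℝ) * (62 * L ^ 2) ≤ n ^ (1 / 4 : ℝ) * L ^ 3 := by
      apply mul_le_mul_of_nonneg_left _ (by positivity)
      have : L ^ 3 = L * L ^ 2 := by ring
      rw [this]
      exact mul_le_mul_of_nonneg_right hL1 hLsq.le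
    have h8 : 1 * L ^ 2 ≤ n ^ (1 / 4 : ℝ) * L ^ 2 :=
      mul_le_mul_of_nonneg_right hn14 (by positivity)
    linarith
  · have hl4 : lam ^ 4 = 36 * L ^ 2 := by
      have : lam ^ 4 = (lam ^ 2) ^ 2 := by ring
      rw [this, hlam]; ring
    have hl3 : lam ^ 3 ≤ 36 * L ^ 2 := by
      rw [← hl4]; exact pow_le_pow_right₀ hlam0 (by norm_num)
    have hL11 : 1 ≤ L := by linarith
    have hLL : L ≤ L ^ 4 := by
      calc L = L ^ 1 := (pow_one L).symm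
        _ ≤ L ^ 4 := pow_le_pow_right₀ hL11 (by norm_num)
    have hL3 : L ^ 3 ≤ L ^ 4 := pow_le_pow_right₀ hL11 (by norm_num)
    have hL2 : L ^ 2 ≤ L ^ 4 := pow_le_pow_right₀ hL11 (by norm_num)
    have hr2 : r ^ 2 ≤ L / 240 := by linarith
    have b1 : r ≤ L ^ 4 := by linarith
    have b2 : 20 * (r ^ 2 * lam ^ 3) ≤ 3 * L ^ 4 := by
      have : r ^ 2 * lam ^ 3 ≤ L / 240 * (36 * L ^ 2) :=
        mul_le_mul hr2 hl3 (by positivity) (by positivity)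
      have e : L / 240 * (36 * L ^ 2) = 36 / 240 * L ^ 3 := by ring
      rw [e] at this
      linarith
    have b3 : 2 * r ^ 3 / N ≤ L ^ 4 := by
      have : 2 * r ^ 3 / N ≤ 2 * r ^ 3 := div_le_self (by positivity) hN1
      linarith
    have b4 : 760 * (r ^ 4 * lam ^ 4) / Real.sqrt N ≤ L ^ 4 := by
      have h1 : 760 * (r ^ 4 * lam ^ 4) / Real.sqrt N ≤ 760 * (r ^ 4 * lam ^ 4) :=
        div_le_self (by positivity) hs1
      have h2 : r ^ 4 ≤ (L / 240) ^ 2 := by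
        have : r ^ 4 = (r ^ 2) ^ 2 := by ring
        rw [this]
        exact pow_le_pow_left₀ (by positivity) hr2 2
      have h3 : r ^ 4 * lam ^ 4 ≤ (L / 240) ^ 2 * (36 * L ^ 2) := by
        rw [hl4]
        exact mul_le_mul_of_nonneg_right h2 (by positivity)
      have e : (L / 240) ^ 2 * (36 * L ^ 2) = 36 / 57600 * L ^ 4 := by ring
      rw [e] at h3
      have : 0 ≤ L ^ 4 := by positivity
      linarith
    have hlog : Real.log (12 * N ^ 2) + 2 ≤ 7 * L := by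
      have h1 : Real.log (12 * N ^ 2) ≤ Real.log (12 * n ^ 2) := by
        apply Real.log_le_log (by positivity)
        have := pow_le_pow_left₀ hN0.le hNn 2
        linarith
      have h2 : Real.log (12 * n ^ 2) = Real.log 12 + 2 * L := by
        rw [Real.log_mul (by norm_num) (by positivity), Real.log_pow, hL]
        push_cast
        ring
      have h3 : Real.log 12 ≤ 3 := by
        rw [Real.log_le_iff_le_exp (by norm_num)]
        have h4 : Real.exp 3 = Real.exp 1 ^ 3 := by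
          rw [← Real.exp_nat_mul]; norm_num
        rw [h4]
        have h5 : (2.7 : ℝ) ≤ Real.exp 1 := by linarith [Real.exp_one_gt_d9]
        calc (12 : ℝ) ≤ 2.7 ^ 3 := by norm_num
          _ ≤ _ := pow_le_pow_left₀ (by norm_num) h5 3
      linarith
    have hsq : Real.sqrt (N * (80 * (r ^ 2 * lam ^ 2) / Real.sqrt N)) ≤
        2 * L * n ^ (1 / 4 : ℝ) := by
      have e1 : N * (80 * (r ^ 2 * lam ^ 2) / Real.sqrt N) =
          80 * (r ^ 2 * lam ^ 2) * Real.sqrt N := by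
        rw [← mul_div_assoc, div_eq_iff hs0.ne']
        calc N * (80 * (r ^ 2 * lam ^ 2)) = (80 * (r ^ 2 * lam ^ 2)) * N := by ring
          _ = (80 * (r ^ 2 * lam ^ 2)) * (Real.sqrt N * Real.sqrt N) := by rw [hss]
          _ = _ := by ring
      rw [e1]
      apply Real.sqrt_le_iff.2 ⟨by positivity, ?_⟩
      have e2 : (2 * L * n ^ (1 / 4 : ℝ)) ^ 2 = 4 * L ^ 2 * Real.sqrt n := by
        rw [mul_pow, ← Real.rpow_natCast (n ^ (1 / 4 : ℝ)) 2, ← Real.rpow_mul hn0.le,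
          Real.sqrt_eq_rpow]
        norm_num
        left
        ring
      rw [e2]
      calc 80 * (r ^ 2 * lam ^ 2) * Real.sqrt N ≤ 2 * L ^ 2 * Real.sqrt n :=
            mul_le_mul h80 hsn hs0.le (by positivity)
        _ ≤ 4 * L ^ 2 * Real.sqrt n := by
            apply mul_le_mul_of_nonneg_right _ hsn0.le
            linarith
    have b5 : (Real.log (12 * N ^ 2) + 2) *
        Real.sqrt (N * (80 * (r ^ 2 * lam ^ 2) / Real.sqrt N)) ≤
        14 * L ^ 2 * n ^ (1 / 4 : ℝ) := by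
      calc (Real.log (12 * N ^ 2) + 2) *
          Real.sqrt (N * (80 * (r ^ 2 * lam ^ 2) / Real.sqrt N)) ≤
          7 * L * (2 * L * n ^ (1 / 4 : ℝ)) :=
            mul_le_mul hlog hsq (Real.sqrt_nonneg _) (by positivity)
        _ = _ := by ring
    have h1 : 6 * L ^ 4 ≤ n ^ (1 / 4 : ℝ) * (6 * L ^ 2) := by
      calc 6 * L ^ 4 = L ^ 2 * (6 * L ^ 2) := by ring
        _ ≤ n ^ (1 / 4 : ℝ) * (6 * L ^ 2) := mul_le_mul_of_nonneg_right hE1 (by positivity)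
    have h6 : n ^ (1 / 4 : ℝ) * (62 * L ^ 2) ≤ n ^ (1 / 4 : ℝ) * L ^ 3 := by
      apply mul_le_mul_of_nonneg_left _ (by positivity)
      have : L ^ 3 = L * L ^ 2 := by ring
      rw [this]
      exact mul_le_mul_of_nonneg_right hL1 hLsq.le
    have h7 : 0 ≤ n ^ (1 / 4 : ℝ) * L ^ 2 := by positivity
    linarith

theorem main : ∃ n₀ : ℕ, ∀ n : ℕ, n₀ ≤ n →
    Ok (Fin n) n (Real.log n ^ 2 / Real.sqrt n) ((n : ℝ) ^ (1 / 4 : ℝ) * Real.log n ^ 3)
      ((n : ℝ) ^ (1 / 4 : ℝ) * Real.log n ^ 3) := by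
  obtain ⟨C, hC, hHad⟩ := Pool.Agent.W851.Had.main_had
  obtain ⟨n₁, hgrow⟩ := growth C
  have E1 := ev_log 1 2 (show (0 : ℝ) < 1 / 4 by norm_num)
  have E4 := ev_log 4 2 (show (0 : ℝ) < 1 / 2 by norm_num)
  have E5 := ev_log 2 1 one_pos
  have E6 : ∀ᶠ n : ℕ in Filter.atTop, (62 : ℝ) ≤ Real.log n :=
    (Real.tendsto_log_atTop.comp tendsto_natCast_atTop_atTop).eventually_ge_atTop 62
  have hall := ((E1.and E6).and (E4.and E5)).and (Filter.eventually_ge_atTop (n₁ + 4))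
  obtain ⟨n₀, hn₀⟩ := Filter.eventually_atTop.1 hall
  refine ⟨n₀, fun n hn => ?_⟩
  obtain ⟨⟨⟨hE1, hE6⟩, hE4, hE5⟩, hn4⟩ := hn₀ n hn
  rw [Real.rpow_one] at hE5
  rw [pow_one] at hE5
  rw [one_mul] at hE1
  rw [← Real.sqrt_eq_rpow] at hE4
  obtain ⟨m, hm1, hm2⟩ := hgrow n (by omega)
  obtain ⟨t, ht⟩ : ∃ t, t = C ^ (m + 1) := ⟨_, rfl⟩
  rw [← ht] at hm2
  have hT : 0 < 2 ^ t := by positivity
  obtain ⟨q, hq⟩ : ∃ q, q = (n - 1) / 2 ^ t := ⟨_, rfl⟩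
  have hdiv := Nat.div_add_mod (n - 1) (2 ^ t)
  have hmod := Nat.mod_lt (n - 1) hT
  rw [← hq] at hdiv
  obtain ⟨N, hN⟩ : ∃ N, N = 2 ^ t * q := ⟨_, rfl⟩
  obtain ⟨r, hr⟩ : ∃ r, r = (n - 1) % 2 ^ t + 1 := ⟨_, rfl⟩
  rw [← hN] at hdiv
  have hnN : N + r = n := by omega
  have hr1 : 1 ≤ r := by omega
  have hrR : r ≤ 2 ^ t := by omega
  have hqn : q ≤ tow m := by
    have : q ≤ n - 1 := by rw [hq]; exact Nat.div_le_self _ _
    omega
  have hh := hHad m q t hqn (by rw [ht])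
  rw [← hN] at hh
  obtain ⟨H, hHs, hHH⟩ := hh
  obtain ⟨L, hL⟩ : ∃ L, L = Real.log n := ⟨_, rfl⟩
  rw [← hL] at hE1 hE4 hE5 hE6 hm2
  have hR := small_pow (2 ^ t) hT
  have hrRR : (r : ℝ) ≤ ((2 ^ t : ℕ) : ℝ) := by exact_mod_cast hrR
  have hr1' : (1 : ℝ) ≤ r := by exact_mod_cast hr1
  have hrL : 240 * (r : ℝ) ^ 2 ≤ L := by
    have h1 : (r : ℝ) ^ 2 ≤ ((2 ^ t : ℕ) : ℝ) ^ 2 := pow_le_pow_left₀ (by linarith) hrRR 2
    linarith
  have hL1 : 1 ≤ L := by linarith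
  obtain ⟨j', hj1, hj2⟩ := exists_nat_pow_near hL1 (by norm_num : (1 : ℝ) < 2)
  obtain ⟨j, hj⟩ : ∃ j, j = j' + 1 := ⟨_, rfl⟩
  have hk1 : L ≤ ((2 ^ j : ℕ) : ℝ) := by
    rw [hj]; push_cast; exact hj2.le
  have hk2 : ((2 ^ j : ℕ) : ℝ) ≤ 2 * L := by
    rw [hj, pow_succ]; push_cast; linarith
  have hnr : (n : ℝ) = N + r := by exact_mod_cast hnN.symm
  have hlam : Real.sqrt (6 * L) ^ 2 = 6 * L := Real.sq_sqrt (by linarith)
  have hlam1 : 1 ≤ Real.sqrt (6 * L) := Real.one_le_sqrt.2 (by linarith)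
  have hn4' : (4 : ℝ) ≤ n := by
    have : 4 ≤ n := by omega
    exact_mod_cast this
  obtain ⟨g1, g2, g3, g4, g5, g6, g7⟩ := estimates (n := n) (N := N) (r := r) (L := L)
    (lam := Real.sqrt (6 * L)) (k := 2 ^ j) (CC (2 ^ j) : ℝ) (by positivity)
    (CC_le (by positivity)) hnr hr1'
    hE6 hL hrL hlam1 hlam hn4' hE5 hE4 hE1 hk1 hk2
  have hNr : r ≤ N := by
    have : (r : ℝ) ≤ N := by nlinarith
    exact_mod_cast this
  have hN1 : 1 ≤ N := by exact_mod_cast g1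
  have : Nonempty (Fin N) := ⟨⟨0, hN1⟩⟩
  have : Nonempty (Fin r) := ⟨⟨0, hr1⟩⟩
  have hcast : (H.map (Int.cast : ℤ → ℝ)) * (H.map (Int.cast : ℤ → ℝ))ᵀ =
      (N : ℝ) • (1 : Matrix (Fin N) (Fin N) ℝ) := by
    have h1 : (H * H.transpose).map (Int.cast : ℤ → ℝ) =
        (((N : ℕ) : ℤ) • (1 : Matrix (Fin N) (Fin N) ℤ)).map (Int.cast : ℤ → ℝ) := by rw [hHH]
    have h2 : (H * H.transpose).map (Int.cast : ℤ → ℝ) =
        H.map (Int.cast : ℤ → ℝ) * (H.map (Int.cast : ℤ → ℝ))ᵀ := by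
      ext a b
      simp only [Matrix.map_apply, Matrix.mul_apply, Matrix.transpose_apply]
      push_cast
      rfl
    rw [h2] at h1
    rw [h1]
    ext a b
    simp only [Matrix.map_apply, Matrix.smul_apply, Matrix.one_apply, smul_eq_mul]
    push_cast
    split_ifs <;> simp
  obtain ⟨D⟩ := build (ρ := Fin r) (H.map (Int.cast : ℤ → ℝ)) (by
      intro a b
      rcases hHs a b with h | h
      · left; rw [Matrix.map_apply, h]; norm_num
      · right; rw [Matrix.map_apply, h]; norm_num) (N := (N : ℝ)) (by rw [Fintype.card_fin]) g1 hcast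
      (Fin.castLEEmb hNr) hlam1 g2
  have hfin := fin_main D (r := (r : ℝ)) (by rw [Fintype.card_fin]) g3 j
    (τ := 60 * L ^ 2 * (n : ℝ) ^ (1 / 4 : ℝ)) (by positivity) g4
  rw [← hnr] at hfin
  have hok : Ok (Fin N ⊕ Fin r) (n : ℝ) _ _ _ := hfin
  have hok2 := hok.congr (finSumFinEquiv.trans (finCongr hnN))
  rw [← hL]
  exact hok2.mono g5 (by positivity) g6 g7

end Pool.Agent.K1H39.NearHad
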