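import Pool.Agent.K1H39.NearHad.Rad

/-! Random matrices with independent centred entries of small variance: the sixth moment. -/

set_option autoImplicit false

namespace Pool.Agent.K1H39.NearHad

open Finset

variable {α : Type*} [Fintype α] [DecidableEq α]

/-- centred bounded values with second moment at most `q` -/
structure Cen (p : α → ℝ) (v : α → Bool → ℝ) (q : ℝ) : Prop where
  p0 : ∀ a, 0 ≤ p a
  p1 : ∀ a, p a ≤ 1
  mean : ∀ a, p a * v a true + (1 - p a) * v a false = 0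
  var : ∀ a, p a * v a true ^ 2 + (1 - p a) * v a false ^ 2 ≤ q
  bd : ∀ a b, |v a b| ≤ 2

/-- the random value at the coordinate `a` -/
def ev (v : α → Bool → ℝ) (a : α) (ξ : α → Bool) : ℝ := v a (ξ a)

theorem Indep_ev (v : α → Bool → ℝ) {a b : α} (h : b ≠ a) : Indep a (ev v b) := by
  intro ξ c
  unfold ev
  rw [Function.update_of_ne h]

omit [Fintype α] in
theorem Indep_mul {a : α} {f g : (α → Bool) → ℝ} (hf : Indep a f) (hg : Indep a g) :
    Indep a (fun ξ => f ξ * g ξ) := by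
  intro ξ c
  simp only
  rw [hf, hg]

omit [Fintype α] in
theorem Indep_pow {a : α} {f : (α → Bool) → ℝ} (hf : Indep a f) (n : ℕ) :
    Indep a (fun ξ => f ξ ^ n) := by
  intro ξ c
  simp only
  rw [hf]

variable {p : α → ℝ} {v : α → Bool → ℝ} {q : ℝ}

theorem Cen.q0 [Nonempty α] (h : Cen p v q) : 0 ≤ q := by
  obtain ⟨a⟩ := ‹Nonempty α›
  refine le_trans ?_ (h.var a)
  have := h.p0 a
  have := h.p1 a
  have h1 : 0 ≤ 1 - p a := by linarith
  positivity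

theorem L0 (h : Cen p v q) (a : α) {g : (α → Bool) → ℝ} (hg : Indep a g) :
    EE p (fun ξ => ev v a ξ * g ξ) = 0 := by
  have := EE_indep p a (v a) hg
  unfold ev
  rw [this, h.mean, zero_mul]

theorem L2 (h : Cen p v q) (a : α) {g : (α → Bool) → ℝ} (hg : Indep a g) (hg0 : ∀ ξ, 0 ≤ g ξ) :
    EE p (fun ξ => ev v a ξ ^ 2 * g ξ) ≤ q * EE p g := by
  have := EE_indep p a (fun b => v a b ^ 2) hg
  unfold ev
  rw [this]
  exact mul_le_mul_of_nonneg_right (h.var a) (EE_nonneg h.p0 h.p1 hg0)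

theorem sq_bd (h : Cen p v q) (a : α) (b : Bool) : v a b ^ 2 ≤ 4 := by
  have := h.bd a b
  have h2 := sq_le_sq' (by linarith [abs_nonneg (v a b)]) this
  rw [sq_abs] at h2
  linarith

theorem L4 (h : Cen p v q) (a : α) {g : (α → Bool) → ℝ} (hg : Indep a g) (hg0 : ∀ ξ, 0 ≤ g ξ) :
    EE p (fun ξ => ev v a ξ ^ 4 * g ξ) ≤ 4 * q * EE p g := by
  have h1 : EE p (fun ξ => ev v a ξ ^ 4 * g ξ) ≤ EE p (fun ξ => 4 * (ev v a ξ ^ 2 * g ξ)) := by
    apply EE_mono h.p0 h.p1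
    intro ξ
    have h2 := sq_bd h a (ξ a)
    have h3 : 0 ≤ v a (ξ a) ^ 2 := sq_nonneg _
    unfold ev
    have h4 : v a (ξ a) ^ 4 ≤ 4 * v a (ξ a) ^ 2 := by nlinarith
    have := mul_le_mul_of_nonneg_right h4 (hg0 ξ)
    linarith
  rw [EE_const_mul] at h1
  have := L2 h a hg hg0
  linarith

theorem L6 (h : Cen p v q) (a : α) : EE p (fun ξ => ev v a ξ ^ 6) ≤ 16 * q := by
  have h1 : EE p (fun ξ => ev v a ξ ^ 6) ≤ EE p (fun ξ => 16 * (ev v a ξ ^ 2 * 1)) := by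
    apply EE_mono h.p0 h.p1
    intro ξ
    have h2 := sq_bd h a (ξ a)
    have h3 : 0 ≤ v a (ξ a) ^ 2 := sq_nonneg _
    unfold ev
    have h4 : (v a (ξ a) ^ 2) ^ 2 ≤ 16 := by nlinarith
    nlinarith [mul_le_mul_of_nonneg_right h4 h3]
  rw [EE_const_mul] at h1
  have := L2 h a (g := fun _ => 1) (fun _ _ => rfl) (fun _ => zero_le_one)
  rw [EE_one] at this
  linarith

theorem L42 [Nonempty α] (h : Cen p v q) {a b : α} (hab : a ≠ b) :
    EE p (fun ξ => ev v a ξ ^ 4 * ev v b ξ ^ 2) ≤ 4 * q ^ 2 := by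
  have h1 := L4 h a (g := fun ξ => ev v b ξ ^ 2) (Indep_pow (Indep_ev v hab.symm) 2)
    (fun ξ => sq_nonneg _)
  have h2 := L2 h b (g := fun _ => 1) (fun _ _ => rfl) (fun _ => zero_le_one)
  rw [EE_one] at h2
  simp only [mul_one] at h2
  have h3 := mul_le_mul_of_nonneg_left h2 (by linarith [h.q0] : 0 ≤ 4 * q)
  calc _ ≤ _ := h1
    _ ≤ _ := h3
    _ = _ := by ring

theorem L222 [Nonempty α] (h : Cen p v q) {a b c : α} (hab : a ≠ b) (hac : a ≠ c) (hbc : b ≠ c) :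
    EE p (fun ξ => ev v a ξ ^ 2 * (ev v b ξ ^ 2 * ev v c ξ ^ 2)) ≤ q ^ 3 := by
  have h1 := L2 h a (g := fun ξ => ev v b ξ ^ 2 * ev v c ξ ^ 2)
    (Indep_mul (Indep_pow (Indep_ev v hab.symm) 2) (Indep_pow (Indep_ev v hac.symm) 2))
    (fun ξ => mul_nonneg (sq_nonneg _) (sq_nonneg _))
  have h2 := L2 h b (g := fun ξ => ev v c ξ ^ 2) (Indep_pow (Indep_ev v hbc.symm) 2)
    (fun ξ => sq_nonneg _)
  have h3 := L2 h c (g := fun _ => 1) (fun _ _ => rfl) (fun _ => zero_le_one)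
  rw [EE_one] at h3
  simp only [mul_one] at h3
  have h4 := mul_le_mul_of_nonneg_left h3 h.q0
  have h5 := mul_le_mul_of_nonneg_left (h2.trans h4) h.q0
  calc _ ≤ _ := h1
    _ ≤ _ := h5
    _ = _ := by ring

/-- isolated first factor -/
theorem Liso (h : Cen p v q) {a b c d e f : α} (hb : b ≠ a) (hc : c ≠ a) (hd : d ≠ a) (he : e ≠ a)
    (hf : f ≠ a) :
    EE p (fun ξ => ev v a ξ * (ev v b ξ * (ev v c ξ * (ev v d ξ * (ev v e ξ * ev v f ξ))))) = 0 :=
  L0 h a (Indep_mul (Indep_ev v hb) (Indep_mul (Indep_ev v hc) (Indep_mul (Indep_ev v hd)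
    (Indep_mul (Indep_ev v he) (Indep_ev v hf)))))

end Pool.Agent.K1H39.NearHad
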