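import Mathlib

/-! Linear algebra for nearly isometric sign matrices. -/

set_option autoImplicit false

namespace Pool.Agent.K1H39.NearHad

open Finset Matrix

/-- squared Euclidean norm -/
def nq {β : Type*} [Fintype β] (u : β → ℝ) : ℝ := ∑ i, u i ^ 2

section basics

variable {β γ : Type*} [Fintype β] [Fintype γ]

theorem nq_nonneg (u : β → ℝ) : 0 ≤ nq u := Finset.sum_nonneg fun _ _ => sq_nonneg _

theorem nq_eq_dot (u : β → ℝ) : nq u = u ⬝ᵥ u := by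
  unfold nq dotProduct
  exact Finset.sum_congr rfl fun _ _ => sq _

theorem dot_abs (x y : β → ℝ) : |x ⬝ᵥ y| ≤ Real.sqrt (nq x) * Real.sqrt (nq y) := by
  rw [abs_le]
  constructor
  · have h := Real.sum_mul_le_sqrt_mul_sqrt Finset.univ (fun i => -x i) y
    simp only [neg_sq, neg_mul, Finset.sum_neg_distrib] at h
    unfold dotProduct nq
    linarith
  · exact Real.sum_mul_le_sqrt_mul_sqrt Finset.univ x y

theorem nq_add (x y : β → ℝ) : nq (x + y) = nq x + 2 * (x ⬝ᵥ y) + nq y := by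
  rw [nq_eq_dot, nq_eq_dot, nq_eq_dot, add_dotProduct, dotProduct_add, dotProduct_add,
    dotProduct_comm y x]
  ring

theorem nq_vecMul_le (M : Matrix β γ ℝ) {μ : ℝ} (hμ : ∀ i j, |M i j| ≤ μ) (u : β → ℝ) :
    nq (u ᵥ* M) ≤ Fintype.card β * Fintype.card γ * μ ^ 2 * nq u := by
  have h1 : ∀ j ∈ (univ : Finset γ), (u ᵥ* M) j ^ 2 ≤ Fintype.card β * μ ^ 2 * nq u := by
    intro j _
    have h2 : (u ᵥ* M) j = ∑ i, u i * M i j := rfl
    rw [h2]
    refine (Finset.sum_mul_sq_le_sq_mul_sq univ u (fun i => M i j)).trans ?_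
    have h3 : ∑ i, M i j ^ 2 ≤ Fintype.card β * μ ^ 2 := by
      have : ∀ i ∈ (univ : Finset β), M i j ^ 2 ≤ μ ^ 2 := fun i _ => by
        rw [← sq_abs]
        exact pow_le_pow_left₀ (abs_nonneg _) (hμ i j) 2
      refine (Finset.sum_le_sum this).trans ?_
      rw [Finset.sum_const, nsmul_eq_mul, Finset.card_univ]
    have h4 := mul_le_mul_of_nonneg_left h3 (nq_nonneg u)
    have h5 : (∑ i, u i ^ 2) * ∑ i, M i j ^ 2 ≤ nq u * (Fintype.card β * μ ^ 2) := h4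
    linarith
  refine (Finset.sum_le_sum h1).trans (le_of_eq ?_)
  rw [Finset.sum_const, nsmul_eq_mul, Finset.card_univ]
  ring

variable {δ : Type*} [Fintype δ]

theorem nq_vecMul (M : Matrix β γ ℝ) (u : β → ℝ) : nq (u ᵥ* M) = u ⬝ᵥ ((M * Mᵀ) *ᵥ u) := by
  rw [nq_eq_dot, ← Matrix.dotProduct_mulVec, ← Matrix.mulVec_transpose, Matrix.mulVec_mulVec]

theorem cross (M : Matrix β γ ℝ) (K : Matrix δ γ ℝ) (u : β → ℝ) (v : δ → ℝ) :
    (u ᵥ* M) ⬝ᵥ (v ᵥ* K) = u ⬝ᵥ ((M * Kᵀ) *ᵥ v) := by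
  rw [← Matrix.dotProduct_mulVec, ← Matrix.mulVec_transpose K v, Matrix.mulVec_mulVec]

theorem mul_entry (A : Matrix β γ ℝ) (B : Matrix γ δ ℝ) {a b : ℝ} (ha : ∀ i j, |A i j| ≤ a)
    (hb : ∀ i j, |B i j| ≤ b) (i : β) (j : δ) : |(A * B) i j| ≤ Fintype.card γ * (a * b) := by
  rw [Matrix.mul_apply]
  refine (Finset.abs_sum_le_sum_abs _ _).trans ?_
  have h1 : ∀ k ∈ (univ : Finset γ), |A i k * B k j| ≤ a * b := by
    intro k _
    rw [abs_mul]
    exact mul_le_mul (ha i k) (hb k j) (abs_nonneg _) ((abs_nonneg _).trans (ha i k))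
  refine (Finset.sum_le_sum h1).trans (le_of_eq ?_)
  rw [Finset.sum_const, nsmul_eq_mul, Finset.card_univ]

theorem nq_add_le {x y : β → ℝ} {a b s : ℝ} (ha0 : 0 ≤ a) (hb0 : 0 ≤ b) (hs : 0 ≤ s)
    (hx : nq x ≤ a ^ 2 * s) (hy : nq y ≤ b ^ 2 * s) : nq (x + y) ≤ (a + b) ^ 2 * s := by
  rw [nq_add]
  have h1 := (le_abs_self _).trans (dot_abs x y)
  have h2 : Real.sqrt (nq x) * Real.sqrt (nq y) ≤ a * b * s := by
    have h3 : Real.sqrt (nq x) ≤ a * Real.sqrt s := by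
      rw [Real.sqrt_le_left (by positivity), mul_pow, Real.sq_sqrt hs]; exact hx
    have h4 : Real.sqrt (nq y) ≤ b * Real.sqrt s := by
      rw [Real.sqrt_le_left (by positivity), mul_pow, Real.sq_sqrt hs]; exact hy
    calc _ ≤ (a * Real.sqrt s) * (b * Real.sqrt s) :=
          mul_le_mul h3 h4 (Real.sqrt_nonneg _) (by positivity)
      _ = a * b * (Real.sqrt s * Real.sqrt s) := by ring
      _ = _ := by rw [Real.mul_self_sqrt hs]
  nlinarith

end basics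

variable {ι ρ : Type*} [Fintype ι] [DecidableEq ι] [Fintype ρ] [DecidableEq ρ]

/-- the data of the construction -/
structure Dat (ι ρ : Type*) [Fintype ι] [DecidableEq ι] [Fintype ρ] [DecidableEq ρ] (N lam : ℝ) where
  /-- Hadamard matrix -/
  H : Matrix ι ι ℝ
  /-- right border -/
  X : Matrix ι ρ ℝ
  /-- left border -/
  Y : Matrix ι ρ ℝ
  hN : (Fintype.card ι : ℝ) = N
  N1 : 1 ≤ N
  lam1 : 1 ≤ lam
  hH : ∀ i j, H i j = 1 ∨ H i j = -1
  hX : ∀ i j, X i j = 1 ∨ X i j = -1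
  hY : ∀ i j, Y i j = 1 ∨ Y i j = -1
  HHT : H * Hᵀ = N • (1 : Matrix ι ι ℝ)
  XX : Xᵀ * X = N • (1 : Matrix ρ ρ ℝ)
  YY : Yᵀ * Y = N • (1 : Matrix ρ ρ ℝ)
  bZ : ∀ i k, |(H * X) i k| ≤ lam * Real.sqrt N
  bW : ∀ i k, |(Hᵀ * Y) i k| ≤ lam * Real.sqrt N
  bT : ∀ k l, |(Xᵀ * (Hᵀ * Y)) k l| ≤ lam * N

namespace Dat

variable {N lam : ℝ} (D : Dat ι ρ N lam)

/-- images of the right border -/
def Z : Matrix ι ρ ℝ := D.H * D.X

/-- images of the left border -/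
def W : Matrix ι ρ ℝ := D.Hᵀ * D.Y

/-- cross terms -/
def T : Matrix ρ ρ ℝ := D.Xᵀ * D.W

include D in
theorem Npos : 0 < N := lt_of_lt_of_le one_pos D.N1

theorem HTH : D.Hᵀ * D.H = N • (1 : Matrix ι ι ℝ) := by
  have hN := D.Npos
  have h1 : (N⁻¹ • D.H) * D.Hᵀ = 1 := by
    rw [Matrix.smul_mul, D.HHT, smul_smul, inv_mul_cancel₀ hN.ne', one_smul]
  have h2 := mul_eq_one_comm.1 h1
  rw [Matrix.mul_smul] at h2
  have h3 := congrArg (fun M => N • M) h2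
  simp only [smul_smul, mul_inv_cancel₀ hN.ne', one_smul] at h3
  exact h3

theorem HW : D.H * D.W = N • D.Y := by
  unfold W
  rw [← Matrix.mul_assoc, D.HHT, Matrix.smul_mul, Matrix.one_mul]

theorem WTHT : D.Wᵀ * D.Hᵀ = N • D.Yᵀ := by
  rw [← Matrix.transpose_mul, D.HW, Matrix.transpose_smul]

theorem XTHT : D.Xᵀ * D.Hᵀ = D.Zᵀ := by
  rw [← Matrix.transpose_mul]; rfl

theorem WTW : D.Wᵀ * D.W = (N * N) • (1 : Matrix ρ ρ ℝ) := by
  have h1 : D.Wᵀ * D.W = D.Yᵀ * (D.H * D.W) := by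
    unfold W
    rw [Matrix.transpose_mul, Matrix.transpose_transpose, Matrix.mul_assoc]
  rw [h1, D.HW, Matrix.mul_smul, D.YY, smul_smul]

theorem WTX : D.Wᵀ * D.X = D.Tᵀ := by
  unfold T
  rw [Matrix.transpose_mul, Matrix.transpose_transpose]

include D in
theorem spos : 0 < Real.sqrt N := Real.sqrt_pos.2 D.Npos

include D in
theorem smul : Real.sqrt N * Real.sqrt N = N := Real.mul_self_sqrt D.Npos.le

theorem aX (i : ι) (k : ρ) : |D.X i k| ≤ 1 := by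
  rcases D.hX i k with h | h <;> rw [h] <;> simp

theorem aY (i : ι) (k : ρ) : |D.Y i k| ≤ 1 := by
  rcases D.hY i k with h | h <;> rw [h] <;> simp

theorem ZTZ : D.Zᵀ * D.Z = (N * N) • (1 : Matrix ρ ρ ℝ) := by
  unfold Z
  rw [Matrix.transpose_mul, Matrix.mul_assoc, ← Matrix.mul_assoc D.Hᵀ, D.HTH, Matrix.smul_mul,
    Matrix.one_mul, Matrix.mul_smul, D.XX, smul_smul]

theorem ZTY : D.Zᵀ * D.Y = D.T := by
  unfold Z T W
  rw [Matrix.transpose_mul, Matrix.mul_assoc]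

theorem YTZ : D.Yᵀ * D.Z = D.Tᵀ := by
  rw [← D.ZTY, Matrix.transpose_mul, Matrix.transpose_transpose]

theorem HTZ : D.Hᵀ * D.Z = N • D.X := by
  unfold Z
  rw [← Matrix.mul_assoc, D.HTH, Matrix.smul_mul, Matrix.one_mul]

end Dat

end Pool.Agent.K1H39.NearHad
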