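import Pool.Agent.K1H39.NearHad.Flip
import Pool.Agent.K1H39.NearHad.Lin

/-! All moments of random matrices with independent centred entries of small variance. -/

set_option autoImplicit false
set_option linter.unusedSectionVars false

namespace Pool.Agent.K1H39.NearHad

open Finset Matrix

section walks

variable {V : Type*} [Fintype V] [DecidableEq V]

/-- product along a walk -/
def pw (S : Matrix V V ℝ) : (m : ℕ) → V → (Fin m → V) → V → ℝ
  | 0, x, _, y => S x y
  | m + 1, x, w, y => S x (w 0) * pw S m (w 0) (Fin.tail w) y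

theorem sum_cons {β : Type*} [AddCommMonoid β] (m : ℕ) (f : (Fin (m + 1) → V) → β) :
    ∑ w : Fin (m + 1) → V, f w = ∑ z : V, ∑ w : Fin m → V, f (Fin.cons z w) := by
  rw [← (Fin.consEquiv (fun _ => V)).sum_comp, Fintype.sum_prod_type]
  rfl

theorem pow_eq_sum (S : Matrix V V ℝ) (m : ℕ) : ∀ x y, (S ^ (m + 1)) x y =
    ∑ w : Fin m → V, pw S m x w y := by
  induction m with
  | zero =>
    intro x y
    rw [zero_add, pow_one, Fintype.sum_unique]
    rfl
  | succ m ih =>
    intro x y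
    rw [pow_succ', Matrix.mul_apply, sum_cons]
    refine Finset.sum_congr rfl fun z _ => ?_
    rw [ih, Finset.mul_sum]
    refine Finset.sum_congr rfl fun w _ => ?_
    simp only [pw, Fin.cons_zero, Fin.tail_cons]

/-- vertices of a walk -/
def vset {m : ℕ} (x : V) (w : Fin m → V) (y : V) : Finset V := insert x (insert y (univ.image w))

theorem vset_cons {m : ℕ} (x z : V) (w : Fin m → V) (y : V) :
    vset x (Fin.cons z w : Fin (m + 1) → V) y = insert x (vset z w y) := by
  unfold vset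
  ext t
  simp only [Finset.mem_insert, Finset.mem_image, Finset.mem_univ, true_and]
  constructor
  · rintro (h | h | ⟨i, hi⟩)
    · exact Or.inl h
    · exact Or.inr (Or.inr (Or.inl h))
    · refine Fin.cases (fun hi => ?_) (fun i hi => ?_) i hi
      · rw [Fin.cons_zero] at hi; exact Or.inr (Or.inl hi.symm)
      · rw [Fin.cons_succ] at hi; exact Or.inr (Or.inr (Or.inr ⟨i, hi⟩))
  · rintro (h | h | h | ⟨i, hi⟩)
    · exact Or.inl h
    · exact Or.inr (Or.inr ⟨0, by rw [Fin.cons_zero]; exact h.symm⟩)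
    · exact Or.inr (Or.inl h)
    · exact Or.inr (Or.inr ⟨i.succ, by rw [Fin.cons_succ]; exact hi⟩)

/-- counting constant -/
def PP : ℕ → ℕ → ℕ
  | 0, _ => 1
  | m + 1, a => (a + 1) * PP m (a + 1)

theorem PP_mono (m : ℕ) : ∀ a b, a ≤ b → PP m a ≤ PP m b := by
  induction m with
  | zero => intro a b _; exact le_refl _
  | succ m ih =>
    intro a b h
    exact Nat.mul_le_mul (by omega) (ih _ _ (by omega))

theorem PP_pos (m : ℕ) : ∀ a, 0 < PP m a := by
  induction m with
  | zero => intro a; exact Nat.one_pos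
  | succ m ih => intro a; exact Nat.mul_pos (by omega) (ih _)

theorem sum_weights {K : ℝ} (hK : (Fintype.card V : ℝ) = K) (hK0 : 0 < K) (m : ℕ) :
    ∀ s : Finset V, ∑ w : Fin m → V, (K⁻¹) ^ (s ∪ univ.image w).card ≤
      PP m s.card * (K⁻¹) ^ s.card := by
  induction m with
  | zero =>
    intro s
    rw [Fintype.sum_unique]
    have : (univ.image (default : Fin 0 → V)) = ∅ := by
      rw [Finset.image_eq_empty, Finset.univ_eq_empty]
    rw [this, Finset.union_empty]
    simp [PP]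
  | succ m ih =>
    intro s
    rw [sum_cons]
    have h1 : ∀ z : V, ∑ w : Fin m → V,
        (K⁻¹) ^ (s ∪ univ.image (Fin.cons z w : Fin (m + 1) → V)).card ≤
        PP m (insert z s).card * (K⁻¹) ^ (insert z s).card := by
      intro z
      refine le_trans (le_of_eq ?_) (ih (insert z s))
      refine Finset.sum_congr rfl fun w _ => ?_
      congr 2
      ext t
      simp only [Finset.mem_union, Finset.mem_image, Finset.mem_univ, true_and, Finset.mem_insert]
      constructor
      · rintro (h | ⟨i, hi⟩)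
        · exact Or.inl (Or.inr h)
        · refine Fin.cases (fun hi => ?_) (fun i hi => ?_) i hi
          · rw [Fin.cons_zero] at hi; exact Or.inl (Or.inl hi.symm)
          · rw [Fin.cons_succ] at hi; exact Or.inr ⟨i, hi⟩
      · rintro ((h | h) | ⟨i, hi⟩)
        · exact Or.inr ⟨0, by rw [Fin.cons_zero]; exact h.symm⟩
        · exact Or.inl h
        · exact Or.inr ⟨i.succ, by rw [Fin.cons_succ]; exact hi⟩
    have hKi : 0 < K⁻¹ := inv_pos.2 hK0
    have h2 : ∀ z : V, (PP m (insert z s).card : ℝ) * (K⁻¹) ^ (insert z s).card ≤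
        (if z ∈ s then (PP m (s.card + 1) : ℝ) * (K⁻¹) ^ s.card else 0) +
          (PP m (s.card + 1) : ℝ) * (K⁻¹) ^ (s.card + 1) := by
      intro z
      split_ifs with hz
      · rw [Finset.insert_eq_of_mem hz]
        have h3 : (PP m s.card : ℝ) ≤ PP m (s.card + 1) := by
          exact_mod_cast PP_mono m _ _ (Nat.le_succ _)
        have h4 : 0 ≤ (PP m (s.card + 1) : ℝ) * (K⁻¹) ^ (s.card + 1) := by positivity
        have h5 := mul_le_mul_of_nonneg_right h3 (pow_nonneg hKi.le s.card)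
        linarith
      · rw [Finset.card_insert_of_notMem hz, zero_add]
    refine (Finset.sum_le_sum fun z _ => (h1 z).trans (h2 z)).trans (le_of_eq ?_)
    rw [Finset.sum_add_distrib, Finset.sum_const, ← Finset.sum_filter, Finset.sum_const,
      Finset.filter_mem_eq_inter, Finset.univ_inter, Finset.card_univ, nsmul_eq_mul, nsmul_eq_mul,
      hK]
    have h6 : K * ((PP m (s.card + 1) : ℝ) * (K⁻¹) ^ (s.card + 1)) =
        (PP m (s.card + 1) : ℝ) * (K⁻¹) ^ s.card := by
      rw [pow_succ]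
      field_simp
    rw [h6]
    simp only [PP]
    push_cast
    ring

end walks

section expectation

variable {α : Type*} [Fintype α] [DecidableEq α] {p : α → ℝ} {v : α → Bool → ℝ} {q : ℝ}

theorem EE_prod_pow (c : α → ℕ) (t : Finset α) :
    EE p (fun ξ => ∏ a ∈ t, ev v a ξ ^ c a) =
      ∏ a ∈ t, (p a * v a true ^ c a + (1 - p a) * v a false ^ c a) := by
  induction t using Finset.induction_on with
  | empty => simp only [Finset.prod_empty]; exact EE_one p
  | insert a t ha ih =>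
    rw [Finset.prod_insert ha, ← ih]
    simp only [Finset.prod_insert ha]
    have := EE_indep p a (fun b => v a b ^ c a) (g := fun ξ => ∏ a ∈ t, ev v a ξ ^ c a) (by
      intro ξ b
      refine Finset.prod_congr rfl fun a' ha' => ?_
      have hne : a' ≠ a := fun h => ha (h ▸ ha')
      unfold ev
      rw [Function.update_of_ne hne])
    exact this

theorem mom_bd (h : Cen p v q) (a : α) {c : ℕ} (hc : 2 ≤ c) :
    |p a * v a true ^ c + (1 - p a) * v a false ^ c| ≤ q * 2 ^ c := by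
  obtain ⟨k, rfl⟩ := Nat.exists_eq_add_of_le hc
  have h1 : ∀ b, |v a b ^ (2 + k)| ≤ v a b ^ 2 * 2 ^ (2 + k) := by
    intro b
    rw [pow_add, abs_mul, abs_pow, abs_pow, sq_abs]
    have h2 : |v a b| ^ k ≤ 2 ^ k := pow_le_pow_left₀ (abs_nonneg _) (h.bd a b) k
    have h3 : (2 : ℝ) ^ k ≤ 2 ^ (2 + k) := pow_le_pow_right₀ (by norm_num) (by omega)
    exact mul_le_mul_of_nonneg_left (h2.trans h3) (sq_nonneg _)
  have h4 := h.p0 a
  have h5 : 0 ≤ 1 - p a := sub_nonneg.2 (h.p1 a)
  calc |p a * v a true ^ (2 + k) + (1 - p a) * v a false ^ (2 + k)| ≤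
      |p a * v a true ^ (2 + k)| + |(1 - p a) * v a false ^ (2 + k)| := abs_add_le _ _
    _ = p a * |v a true ^ (2 + k)| + (1 - p a) * |v a false ^ (2 + k)| := by
        rw [abs_mul, abs_mul, abs_of_nonneg h4, abs_of_nonneg h5]
    _ ≤ p a * (v a true ^ 2 * 2 ^ (2 + k)) + (1 - p a) * (v a false ^ 2 * 2 ^ (2 + k)) :=
        add_le_add (mul_le_mul_of_nonneg_left (h1 _) h4) (mul_le_mul_of_nonneg_left (h1 _) h5)
    _ = (p a * v a true ^ 2 + (1 - p a) * v a false ^ 2) * 2 ^ (2 + k) := by ring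
    _ ≤ q * 2 ^ (2 + k) := mul_le_mul_of_nonneg_right (h.var a) (by positivity)

theorem EE_list [Nonempty α] (h : Cen p v q) (l : List α) :
    EE p (fun ξ => (l.map (fun a => ev v a ξ)).prod) = 0 ∨
      (2 * l.toFinset.card ≤ l.length ∧
        |EE p (fun ξ => (l.map (fun a => ev v a ξ)).prod)| ≤ q ^ l.toFinset.card * 2 ^ l.length) := by
  have h0 : (fun ξ => (l.map (fun a => ev v a ξ)).prod) =
      fun ξ : α → Bool => ∏ a ∈ l.toFinset, ev v a ξ ^ l.count a := by
    funext ξ
    rw [Finset.prod_list_map_count]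
  rw [h0, EE_prod_pow]
  by_cases h1 : ∃ a ∈ l.toFinset, l.count a = 1
  · left
    obtain ⟨a, ha, hc⟩ := h1
    apply Finset.prod_eq_zero ha
    rw [hc, pow_one, pow_one]
    exact h.mean a
  · right
    push Not at h1
    have h2 : ∀ a ∈ l.toFinset, 2 ≤ l.count a := by
      intro a ha
      have h3 : 0 < l.count a := List.count_pos_iff.2 (List.mem_toFinset.1 ha)
      have := h1 a ha
      omega
    have h3 : ∑ a ∈ l.toFinset, l.count a = l.length := List.sum_toFinset_count_eq_length l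
    constructor
    · have : ∑ a ∈ l.toFinset, 2 ≤ ∑ a ∈ l.toFinset, l.count a := Finset.sum_le_sum h2
      rw [h3, Finset.sum_const, smul_eq_mul, mul_comm] at this
      exact this
    · rw [Finset.abs_prod]
      refine (Finset.prod_le_prod (fun a _ => abs_nonneg _) (fun a ha => mom_bd h a (h2 a ha))).trans
        (le_of_eq ?_)
      rw [Finset.prod_mul_distrib, Finset.prod_const, Finset.prod_pow_eq_pow_sum, h3]

end expectation


section trace

variable {ι κ : Type*} [Fintype ι] [DecidableEq ι] [Fintype κ] [DecidableEq κ]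
variable {p : ι × κ → ℝ} {v : ι × κ → Bool → ℝ} {q : ℝ}

/-- symmetric matrix of a rectangular random matrix -/
def Sm (v : ι × κ → Bool → ℝ) (ξ : ι × κ → Bool) : Matrix (ι ⊕ κ) (ι ⊕ κ) ℝ :=
  Matrix.fromBlocks 0 (Matrix.of fun i j => ev v (i, j) ξ) (Matrix.of fun j i => ev v (i, j) ξ) 0

theorem Sm_symm (v : ι × κ → Bool → ℝ) (ξ : ι × κ → Bool) : (Sm v ξ)ᵀ = Sm v ξ := by
  ext a b
  rcases a with a | a <;> rcases b with b | b <;> rfl

theorem pw_list (v : ι × κ → Bool → ℝ) (m : ℕ) : ∀ (x : ι ⊕ κ) (w : Fin m → ι ⊕ κ) (y : ι ⊕ κ),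
    (∀ ξ, pw (Sm v ξ) m x w y = 0) ∨ ∃ l : List (ι × κ), l.length = m + 1 ∧
      (∀ ξ, pw (Sm v ξ) m x w y = (l.map (fun a => ev v a ξ)).prod) ∧
      (vset x w y).card ≤ l.toFinset.card + 1 ∧
      ∀ a ∈ l, Sum.inl a.1 ∈ vset x w y ∧ Sum.inr a.2 ∈ vset x w y := by
  have hS : ∀ x y : ι ⊕ κ, (∀ ξ, Sm v ξ x y = 0) ∨ ∃ a : ι × κ, (∀ ξ, Sm v ξ x y = ev v a ξ) ∧
      ((x = Sum.inl a.1 ∧ y = Sum.inr a.2) ∨ (x = Sum.inr a.2 ∧ y = Sum.inl a.1)) := by
    intro x y
    rcases x with x | x <;> rcases y with y | y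
    · exact Or.inl fun ξ => rfl
    · exact Or.inr ⟨(x, y), fun ξ => rfl, Or.inl ⟨rfl, rfl⟩⟩
    · exact Or.inr ⟨(y, x), fun ξ => rfl, Or.inr ⟨rfl, rfl⟩⟩
    · exact Or.inl fun ξ => rfl
  induction m with
  | zero =>
    intro x w y
    have hv : vset x w y = {x, y} := by
      unfold vset
      rw [Finset.univ_eq_empty, Finset.image_empty]
      rfl
    rcases hS x y with h | ⟨a, h1, h2⟩
    · exact Or.inl h
    · right
      refine ⟨[a], rfl, fun ξ => ?_, ?_, ?_⟩
      · rw [List.map_singleton, List.prod_singleton]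
        exact h1 ξ
      · rw [hv]
        refine (Finset.card_insert_le _ _).trans ?_
        simp
      · intro a' ha'
        rw [List.mem_singleton] at ha'
        subst ha'
        rw [hv]
        rcases h2 with ⟨h3, h4⟩ | ⟨h3, h4⟩
        · rw [h3, h4]; simp
        · rw [h3, h4]; simp
  | succ m ih =>
    intro x w y
    obtain ⟨z, w', rfl⟩ : ∃ z w', w = (Fin.cons z w' : Fin (m + 1) → ι ⊕ κ) :=
      ⟨w 0, Fin.tail w, (Fin.cons_self_tail w).symm⟩
    have hpw : ∀ ξ, pw (Sm v ξ) (m + 1) x (Fin.cons z w') y =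
        Sm v ξ x z * pw (Sm v ξ) m z w' y := by
      intro ξ
      simp only [pw, Fin.cons_zero, Fin.tail_cons]
    simp only [hpw]
    rw [vset_cons]
    rcases hS x z with h | ⟨a, h1, h2⟩
    · left
      intro ξ
      rw [h, zero_mul]
    · rcases ih z w' y with h | ⟨l, hl, h3, h4, h5⟩
      · left
        intro ξ
        rw [h, mul_zero]
      · right
        have hz : z ∈ vset z w' y := Finset.mem_insert_self _ _
        refine ⟨a :: l, by rw [List.length_cons, hl], fun ξ => ?_, ?_, ?_⟩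
        · rw [List.map_cons, List.prod_cons, h1, h3]
        · by_cases hx : x ∈ vset z w' y
          · rw [Finset.insert_eq_of_mem hx, List.toFinset_cons]
            have := Finset.card_le_card (Finset.subset_insert a l.toFinset)
            omega
          · rw [Finset.card_insert_of_notMem hx, List.toFinset_cons,
              Finset.card_insert_of_notMem]
            · omega
            · intro ha
              have h6 := h5 a (List.mem_toFinset.1 ha)
              rcases h2 with ⟨h7, _⟩ | ⟨h7, _⟩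
              · exact hx (h7 ▸ h6.1)
              · exact hx (h7 ▸ h6.2)
        · intro a' ha'
          rw [List.mem_cons] at ha'
          rcases ha' with rfl | ha'
          · rcases h2 with ⟨h7, h8⟩ | ⟨h7, h8⟩
            · rw [← h7, ← h8]
              exact ⟨Finset.mem_insert_self _ _, Finset.mem_insert_of_mem hz⟩
            · rw [← h7, ← h8]
              exact ⟨Finset.mem_insert_of_mem hz, Finset.mem_insert_self _ _⟩
          · exact ⟨Finset.mem_insert_of_mem (h5 a' ha').1, Finset.mem_insert_of_mem (h5 a' ha').2⟩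

/-- moment constant -/
def CC (k : ℕ) : ℕ := 4 ^ k * PP (2 * k - 1) 1

theorem CC_pos (k : ℕ) : 0 < CC k := Nat.mul_pos (by positivity) (PP_pos _ _)

theorem EE_trace [Nonempty (ι × κ)] (h : Cen p v q) (hq1 : q ≤ 1) {K : ℝ}
    (hK : (Fintype.card (ι ⊕ κ) : ℝ) = K) (hKq : 1 ≤ K * q) {k : ℕ} (hk : 0 < k) :
    EE p (fun ξ => (Sm v ξ ^ (2 * k)).trace) ≤ CC k * (K * (K * q) ^ k) := by
  have hq0 := h.q0
  have hK0 : 0 < K := by
    by_contra hc
    push Not at hc
    nlinarith
  obtain ⟨m, hm⟩ : ∃ m, 2 * k = m + 1 := ⟨2 * k - 1, by omega⟩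
  have h1 : ∀ (x : ι ⊕ κ) (w : Fin m → ι ⊕ κ), EE p (fun ξ => pw (Sm v ξ) m x w x) ≤
      (4 ^ k * (K * q) ^ k * K) * (K⁻¹) ^ ({x} ∪ univ.image w).card := by
    intro x w
    have hvs : vset x w x = {x} ∪ univ.image w := by
      unfold vset
      rw [Finset.insert_idem]
      rfl
    rw [← hvs]
    have hpos : 0 ≤ (4 ^ k * (K * q) ^ k * K) * (K⁻¹) ^ (vset x w x).card := by positivity
    rcases pw_list v m x w x with h2 | ⟨l, hl, h3, h4, -⟩
    · have h5 : EE p (fun ξ => pw (Sm v ξ) m x w x) = 0 := by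
        simp only [h2]
        exact EE_const p 0
      rw [h5]; exact hpos
    · have h5 : EE p (fun ξ => pw (Sm v ξ) m x w x) =
          EE p (fun ξ => (l.map (fun a => ev v a ξ)).prod) := by
        simp only [h3]
      rw [h5]
      rcases EE_list h l with h6 | ⟨h6, h7⟩
      · rw [h6]; exact hpos
      · refine (le_abs_self _).trans (h7.trans ?_)
        have h8 : 1 ≤ (vset x w x).card := Finset.card_pos.2 ⟨x, Finset.mem_insert_self _ _⟩
        obtain ⟨c, hc⟩ : ∃ c, (vset x w x).card = c + 1 := ⟨(vset x w x).card - 1, by omega⟩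
        rw [hc] at h4 ⊢
        have h9 : q ^ l.toFinset.card ≤ q ^ c := pow_le_pow_of_le_one hq0 hq1 (by omega)
        have h10 : (2 : ℝ) ^ l.length = 4 ^ k := by
          rw [hl, ← hm, pow_mul]; norm_num
        have h11 : (K * q) ^ c ≤ (K * q) ^ k := pow_le_pow_right₀ hKq (by omega)
        rw [h10]
        have h12 : (4 : ℝ) ^ k * (K * q) ^ k * K * K⁻¹ ^ (c + 1) =
            (K * q) ^ k * K⁻¹ ^ c * 4 ^ k := by
          rw [pow_succ]
          field_simp
        rw [h12]
        have h13 : q ^ c = (K * q) ^ c * K⁻¹ ^ c := by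
          rw [mul_pow, inv_pow]
          field_simp
        calc q ^ l.toFinset.card * 4 ^ k ≤ q ^ c * 4 ^ k :=
              mul_le_mul_of_nonneg_right h9 (by positivity)
          _ = (K * q) ^ c * K⁻¹ ^ c * 4 ^ k := by rw [h13]
          _ ≤ (K * q) ^ k * K⁻¹ ^ c * 4 ^ k := by gcongr
  have h2 : (fun ξ => (Sm v ξ ^ (2 * k)).trace) =
      fun ξ => ∑ x, ∑ w : Fin m → ι ⊕ κ, pw (Sm v ξ) m x w x := by
    funext ξ
    rw [hm]
    unfold Matrix.trace
    exact Finset.sum_congr rfl fun x _ => pow_eq_sum _ _ _ _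
  rw [h2, EE_sum]
  simp only [EE_sum]
  have h3 : ∀ x : ι ⊕ κ, ∑ w : Fin m → ι ⊕ κ, EE p (fun ξ => pw (Sm v ξ) m x w x) ≤
      (4 ^ k * (K * q) ^ k * K) * (PP m 1 * K⁻¹) := by
    intro x
    refine (Finset.sum_le_sum fun w _ => h1 x w).trans ?_
    rw [← Finset.mul_sum]
    have := sum_weights hK hK0 m ({x} : Finset (ι ⊕ κ))
    rw [Finset.card_singleton, pow_one] at this
    exact mul_le_mul_of_nonneg_left this (by positivity)
  refine (Finset.sum_le_sum fun x _ => h3 x).trans (le_of_eq ?_)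
  rw [Finset.sum_const, nsmul_eq_mul, Finset.card_univ, hK]
  unfold CC
  have : 2 * k - 1 = m := by omega
  rw [this]
  push_cast
  field_simp

end trace

section norm

variable {V : Type*} [Fintype V] [DecidableEq V]

theorem nq_frob (S : Matrix V V ℝ) (hS : Sᵀ = S) (x : V → ℝ) :
    nq (S *ᵥ x) ≤ (S ^ 2).trace * nq x := by
  have h1 : (S ^ 2).trace = ∑ i, ∑ j, S i j ^ 2 := by
    rw [sq]
    unfold Matrix.trace
    refine Finset.sum_congr rfl fun i _ => ?_
    rw [Matrix.diag_apply, Matrix.mul_apply]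
    refine Finset.sum_congr rfl fun j _ => ?_
    have : S j i = S i j := by
      conv_lhs => rw [← hS]
      rfl
    rw [this, sq]
  rw [h1, Finset.sum_mul]
  refine Finset.sum_le_sum fun i _ => ?_
  exact Finset.sum_mul_sq_le_sq_mul_sq univ (S i) x

theorem nq_step (S : Matrix V V ℝ) (hS : Sᵀ = S) (x : V → ℝ) :
    nq (S *ᵥ x) ^ 2 ≤ nq x * nq ((S ^ 2) *ᵥ x) := by
  have h1 : nq (S *ᵥ x) = x ⬝ᵥ ((S ^ 2) *ᵥ x) := by
    rw [nq_eq_dot, sq, ← Matrix.mulVec_mulVec, Matrix.dotProduct_mulVec x, ← Matrix.mulVec_transpose,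
      hS]
  have h2 := dot_abs x ((S ^ 2) *ᵥ x)
  rw [← h1, ← Real.sqrt_mul (nq_nonneg _)] at h2
  have h3 := pow_le_pow_left₀ (abs_nonneg _) h2 2
  rw [sq_abs, Real.sq_sqrt (mul_nonneg (nq_nonneg _) (nq_nonneg _))] at h3
  exact h3

theorem nq_pow (j : ℕ) : ∀ (S : Matrix V V ℝ), Sᵀ = S → ∀ x : V → ℝ,
    nq (S *ᵥ x) ^ (2 ^ j) ≤ (S ^ (2 * 2 ^ j)).trace * nq x ^ (2 ^ j) := by
  induction j with
  | zero =>
    intro S hS x
    simpa using nq_frob S hS x
  | succ j ih =>
    intro S hS x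
    have h1 : (S ^ 2)ᵀ = S ^ 2 := by rw [Matrix.transpose_pow, hS]
    have h2 := ih (S ^ 2) h1 x
    rw [← pow_mul] at h2
    have h3 := nq_step S hS x
    have h4 := pow_le_pow_left₀ (sq_nonneg _) h3 (2 ^ j)
    rw [← pow_mul, mul_pow] at h4
    have e1 : 2 ^ (j + 1) = 2 * 2 ^ j := by ring
    rw [e1]
    have h5 := mul_le_mul_of_nonneg_left h2 (pow_nonneg (nq_nonneg x) (2 ^ j))
    calc nq (S *ᵥ x) ^ (2 * 2 ^ j) ≤ nq x ^ 2 ^ j * nq ((S ^ 2) *ᵥ x) ^ 2 ^ j := h4
      _ ≤ nq x ^ 2 ^ j * ((S ^ (2 * (2 * 2 ^ j))).trace * nq x ^ 2 ^ j) := h5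
      _ = (S ^ (2 * (2 * 2 ^ j))).trace * nq x ^ (2 * 2 ^ j) := by
          rw [two_mul (2 ^ j), pow_add]; ring

theorem trace_nonneg (S : Matrix V V ℝ) (hS : Sᵀ = S) (k : ℕ) : 0 ≤ (S ^ (2 * k)).trace := by
  have h1 : (S ^ (2 * k)).trace = ∑ i, ∑ j, (S ^ k) i j ^ 2 := by
    rw [mul_comm, pow_mul, sq]
    unfold Matrix.trace
    refine Finset.sum_congr rfl fun i _ => ?_
    rw [Matrix.diag_apply, Matrix.mul_apply]
    refine Finset.sum_congr rfl fun j _ => ?_
    have : (S ^ k) j i = (S ^ k) i j := by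
      have h2 : (S ^ k)ᵀ = S ^ k := by rw [Matrix.transpose_pow, hS]
      conv_lhs => rw [← h2]
      rfl
    rw [this, sq]
  rw [h1]
  exact Finset.sum_nonneg fun _ _ => Finset.sum_nonneg fun _ _ => sq_nonneg _

variable {ι κ : Type*} [Fintype ι] [DecidableEq ι] [Fintype κ] [DecidableEq κ]

theorem nq_vecMul_pow (v : ι × κ → Bool → ℝ) (ξ : ι × κ → Bool) (j : ℕ) (u : ι → ℝ) :
    nq (u ᵥ* (Matrix.of fun i j => ev v (i, j) ξ)) ^ (2 ^ j) ≤
      (Sm v ξ ^ (2 * 2 ^ j)).trace * nq u ^ (2 ^ j) := by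
  have h := nq_pow j (Sm v ξ) (Sm_symm v ξ) (Sum.elim u 0)
  have h1 : nq (Sum.elim u (0 : κ → ℝ)) = nq u := by
    unfold nq
    rw [Fintype.sum_sum_type]
    simp
  have h2 : nq (Sm v ξ *ᵥ Sum.elim u 0) = nq (u ᵥ* (Matrix.of fun i j => ev v (i, j) ξ)) := by
    unfold nq
    rw [Fintype.sum_sum_type]
    have h3 : ∀ i : ι, (Sm v ξ *ᵥ Sum.elim u 0) (Sum.inl i) = 0 := by
      intro i
      unfold Matrix.mulVec dotProduct
      rw [Fintype.sum_sum_type]
      simp [Sm]
    have h4 : ∀ j : κ, (Sm v ξ *ᵥ Sum.elim u 0) (Sum.inr j) =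
        (u ᵥ* (Matrix.of fun i j => ev v (i, j) ξ)) j := by
      intro j
      unfold Matrix.mulVec Matrix.vecMul dotProduct
      rw [Fintype.sum_sum_type]
      simp only [Sm, Matrix.fromBlocks_apply₂₁, Sum.elim_inl, Sum.elim_inr, Pi.zero_apply, mul_zero,
        Finset.sum_const_zero, add_zero, Matrix.of_apply]
      exact Finset.sum_congr rfl fun i _ => mul_comm _ _
    simp only [h3, h4]
    simp
  rw [h1, h2] at h
  exact h

end norm

end Pool.Agent.K1H39.NearHad
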