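import Pool.Agent.K1H39.NearHad.Flip

/-! Choice of a good outcome. -/

set_option autoImplicit false
set_option linter.unusedSectionVars false

namespace Pool.Agent.K1H39.NearHad

open Finset

theorem exp_le_quad {y : ℝ} (hy : |y| ≤ 1) : Real.exp y ≤ 1 + y + y ^ 2 := by
  have := Real.abs_exp_sub_one_sub_id_le hy
  have := (abs_le.1 this).2
  linarith

section

variable {α : Type*} [Fintype α] [DecidableEq α] {p : α → ℝ} {v : α → Bool → ℝ} {q : ℝ}

theorem one_coord (h : Cen p v q) (a : α) {x : ℝ} (hx : |x| ≤ 1 / 2) :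
    p a * Real.exp (x * v a true) + (1 - p a) * Real.exp (x * v a false) ≤
      Real.exp (x ^ 2 * q) := by
  have hb : ∀ b, |x * v a b| ≤ 1 := by
    intro b
    rw [abs_mul]
    calc |x| * |v a b| ≤ 1 / 2 * 2 := mul_le_mul hx (h.bd a b) (abs_nonneg _) (by norm_num)
      _ = 1 := by norm_num
  have h1 := mul_le_mul_of_nonneg_left (exp_le_quad (hb true)) (h.p0 a)
  have h2 := mul_le_mul_of_nonneg_left (exp_le_quad (hb false)) (sub_nonneg.2 (h.p1 a))
  have h3 := mul_le_mul_of_nonneg_left (h.var a) (sq_nonneg x)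
  have h4 := Real.add_one_le_exp (x ^ 2 * q)
  have h5 : x * (p a * v a true + (1 - p a) * v a false) = 0 := by rw [h.mean, mul_zero]
  nlinarith

end

variable {ι κ : Type*} [Fintype ι] [DecidableEq ι] [Fintype κ] [DecidableEq κ]
variable {p : ι × κ → ℝ} {v : ι × κ → Bool → ℝ} {q : ℝ}

theorem expRow (h : Cen p v q) (hq : 0 ≤ q) {n : ℕ} (hκ : Fintype.card κ = n) (r : ι)
    (b : κ → (ι × κ → Bool) → ℝ) (η : ℝ) (hη : |η| ≤ 1 / 2) (hb1 : ∀ j ξ, |b j ξ| ≤ 1)
    (hb2 : ∀ j j', Indep (r, j') (b j)) :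
    EE p (fun ξ => Real.exp (η * ∑ j, b j ξ * ev v (r, j) ξ)) ≤ Real.exp (n * (η ^ 2 * q)) := by
  have h1 := EE_exp h.p0 h.p1 (fun (a : ι × κ) ξ => η * b a.2 ξ) v (fun _ => η ^ 2 * q)
    (({r} : Finset ι) ×ˢ (univ : Finset κ)) (by
      intro a ha a' _ ξ c
      rw [Finset.mem_product, Finset.mem_singleton] at ha
      have e1 : a = (r, a.2) := by rw [← ha.1]
      show η * b a'.2 _ = η * b a'.2 ξ
      rw [e1, hb2 a'.2 a.2]) (by
      intro a _ ξ
      have hx : |η * b a.2 ξ| ≤ 1 / 2 := by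
        rw [abs_mul]
        calc |η| * |b a.2 ξ| ≤ 1 / 2 * 1 := mul_le_mul hη (hb1 _ _) (abs_nonneg _) (by norm_num)
          _ = _ := by norm_num
      refine (one_coord h a hx).trans (Real.exp_le_exp.2 ?_)
      apply mul_le_mul_of_nonneg_right _ hq
      rw [mul_pow]
      have h2 : b a.2 ξ ^ 2 ≤ 1 := by
        have := hb1 a.2 ξ
        have := abs_le.1 this
        nlinarith
      nlinarith [sq_nonneg η])
  have e1 : ∀ ξ : ι × κ → Bool, ∑ a ∈ (({r} : Finset ι) ×ˢ (univ : Finset κ)),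
      η * b a.2 ξ * v a (ξ a) = η * ∑ j, b j ξ * ev v (r, j) ξ := by
    intro ξ
    rw [Finset.sum_product, Finset.sum_singleton, Finset.mul_sum]
    exact Finset.sum_congr rfl fun j _ => by unfold ev; ring
  have e2 : ∑ _a ∈ (({r} : Finset ι) ×ˢ (univ : Finset κ)), η ^ 2 * q = n * (η ^ 2 * q) := by
    rw [Finset.sum_const, Finset.card_product, Finset.card_singleton, Finset.card_univ, hκ,
      one_mul, nsmul_eq_mul]
  simp only [e1, e2] at h1
  exact h1

theorem select [Nonempty (ι × κ)] (h : Cen p v q) {n : ℕ}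
    (hκ : Fintype.card κ = n) (hnq : 4 ≤ n * q) {S : Type*} [Fintype S] [Nonempty S] (row : S → ι)
    (b : S → κ → (ι × κ → Bool) → ℝ) (hb1 : ∀ s j ξ, |b s j ξ| ≤ 1)
    (hb2 : ∀ s j j', Indep (row s, j') (b s j)) (W : (ι × κ → Bool) → ℝ) (hW0 : ∀ ξ, 0 ≤ W ξ)
    {w : ℝ} (hw : 0 < w) (hW : EE p W ≤ w) :
    ∃ ξ, W ξ ≤ 2 * w ∧ ∀ s, |∑ j, b s j ξ * ev v (row s, j) ξ| ≤
      (Real.log (4 * Fintype.card S) + 2) * Real.sqrt (n * q) := by
  have hq := h.q0
  have hn0 : (0 : ℝ) ≤ n := Nat.cast_nonneg _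
  have hq1 : 0 < q := by
    rcases eq_or_lt_of_le hq with h1 | h1
    · rw [← h1] at hnq; norm_num at hnq
    · exact h1
  have hn1 : (0 : ℝ) < n := by
    rcases eq_or_lt_of_le hn0 with h1 | h1
    · rw [← h1] at hnq; norm_num at hnq
    · exact h1
  have hsq : 2 ≤ Real.sqrt (n * q) := by
    apply Real.le_sqrt_of_sq_le
    linarith
  have hsq0 : 0 < Real.sqrt (n * q) := by linarith
  have hsqs : Real.sqrt (n * q) ^ 2 = n * q := Real.sq_sqrt (by positivity)
  obtain ⟨η, hη⟩ : ∃ η, η = 1 / Real.sqrt (n * q) := ⟨_, rfl⟩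
  have hη0 : 0 < η := by rw [hη]; positivity
  have hη1 : η ≤ 1 / 2 := by
    rw [hη]
    exact one_div_le_one_div_of_le (by norm_num) hsq
  have hηq : (n : ℝ) * (η ^ 2 * q) = 1 := by
    rw [hη, div_pow, hsqs]
    field_simp
  have hS0 : (0 : ℝ) < Fintype.card S := by exact_mod_cast Fintype.card_pos
  obtain ⟨c, hc⟩ : ∃ c : ℝ, c = Fintype.card S := ⟨_, rfl⟩
  rw [← hc] at hS0 ⊢
  obtain ⟨T, hT⟩ : ∃ T : S → (ι × κ → Bool) → ℝ, T = fun s ξ => ∑ j, b s j ξ * ev v (row s, j) ξ :=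
    ⟨_, rfl⟩
  have hT' : ∀ s ξ, T s ξ = ∑ j, b s j ξ * ev v (row s, j) ξ := by intro s ξ; rw [hT]
  simp only [← hT']
  have hpos : ∀ s, EE p (fun ξ => Real.exp (η * T s ξ)) ≤ Real.exp 1 := by
    intro s
    have := expRow h hq hκ (row s) (b s) η (by rw [abs_of_pos hη0]; exact hη1) (hb1 s) (hb2 s)
    rw [hηq] at this
    simpa only [hT'] using this
  have hneg : ∀ s, EE p (fun ξ => Real.exp (-η * T s ξ)) ≤ Real.exp 1 := by
    intro s
    have := expRow h hq hκ (row s) (b s) (-η) (by rw [abs_neg, abs_of_pos hη0]; exact hη1)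
      (hb1 s) (hb2 s)
    rw [neg_sq, hηq] at this
    simpa only [hT'] using this
  have hE : 0 < 4 * c * Real.exp 1 := by positivity
  have hmain : EE p (fun ξ => W ξ * (1 / (2 * w)) +
      (∑ s, (Real.exp (η * T s ξ) + Real.exp (-η * T s ξ))) * (1 / (4 * c * Real.exp 1))) ≤ 1 := by
    rw [EE_add, EE_mul_const, EE_mul_const, EE_sum]
    have h10 : EE p (fun ξ => W ξ) * (1 / (2 * w)) ≤ 1 / 2 := by
      rw [mul_one_div, div_le_iff₀ (by positivity)]
      have : EE p (fun ξ => W ξ) ≤ w := hW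
      linarith
    have h11 : ∑ s : S, EE p (fun ξ => Real.exp (η * T s ξ) + Real.exp (-η * T s ξ)) ≤
        2 * c * Real.exp 1 := by
      have : ∀ s ∈ (univ : Finset S), EE p (fun ξ => Real.exp (η * T s ξ) +
          Real.exp (-η * T s ξ)) ≤ 2 * Real.exp 1 := by
        intro s _
        rw [EE_add]
        linarith [hpos s, hneg s]
      refine (Finset.sum_le_sum this).trans ?_
      rw [Finset.sum_const, nsmul_eq_mul, Finset.card_univ, ← hc]
      linarith
    have h12 : (∑ s : S, EE p (fun ξ => Real.exp (η * T s ξ) + Real.exp (-η * T s ξ))) *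
        (1 / (4 * c * Real.exp 1)) ≤ 1 / 2 := by
      rw [mul_one_div, div_le_iff₀ hE]
      linarith
    linarith
  obtain ⟨ξ, hξ⟩ := exists_le_EE h.p0 h.p1 hmain
  have hΦ0 : 0 ≤ ∑ s, (Real.exp (η * T s ξ) + Real.exp (-η * T s ξ)) :=
    Finset.sum_nonneg fun _ _ => by positivity
  refine ⟨ξ, ?_, fun s => ?_⟩
  · have h13 : 0 ≤ (∑ s, (Real.exp (η * T s ξ) + Real.exp (-η * T s ξ))) *
        (1 / (4 * c * Real.exp 1)) := by positivity
    have h14 : W ξ * (1 / (2 * w)) ≤ 1 := by linarith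
    rw [mul_one_div, div_le_one (by positivity)] at h14
    exact h14
  · have h13 : 0 ≤ W ξ * (1 / (2 * w)) := mul_nonneg (hW0 ξ) (by positivity)
    have h14 : (∑ s, (Real.exp (η * T s ξ) + Real.exp (-η * T s ξ))) *
        (1 / (4 * c * Real.exp 1)) ≤ 1 := by linarith
    rw [mul_one_div, div_le_one hE] at h14
    have h15 := Finset.single_le_sum (f := fun s => Real.exp (η * T s ξ) + Real.exp (-η * T s ξ))
      (fun s _ => by positivity) (Finset.mem_univ s)
    have h16 : Real.exp (η * T s ξ) + Real.exp (-η * T s ξ) ≤ 4 * c * Real.exp 1 := h15.trans h14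
    have e1 : 4 * c * Real.exp 1 = Real.exp (Real.log (4 * c) + 1) := by
      rw [Real.exp_add, Real.exp_log (by positivity)]
    rw [e1] at h16
    have h17 : η * T s ξ ≤ Real.log (4 * c) + 1 :=
      Real.exp_le_exp.1 (by linarith [Real.exp_pos (-η * T s ξ)])
    have h18 : -η * T s ξ ≤ Real.log (4 * c) + 1 :=
      Real.exp_le_exp.1 (by linarith [Real.exp_pos (η * T s ξ)])
    have h19 : |η * T s ξ| ≤ Real.log (4 * c) + 1 := abs_le.2 ⟨by linarith, h17⟩
    rw [abs_mul, abs_of_pos hη0, hη, one_div, inv_mul_le_iff₀ hsq0] at h19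
    refine h19.trans ?_
    rw [mul_comm]
    apply mul_le_mul_of_nonneg_right _ hsq0.le
    linarith

end Pool.Agent.K1H39.NearHad
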