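import Pool.Agent.K1H39.NearHad.Bd
import Pool.Agent.K1H39.NearHad.Select
import Pool.Agent.K1H39.NearHad.Mom

/-! Rounding the orthogonal matrix to a sign matrix. -/

set_option autoImplicit false
set_option linter.unusedSectionVars false

namespace Pool.Agent.K1H39.NearHad

open Finset Matrix

variable {ι ρ : Type*} [Fintype ι] [DecidableEq ι] [Fintype ρ] [DecidableEq ρ]

/-- indicator of a bit -/
def bit (b : Bool) : ℝ := if b then 1 else 0

/-- flip probabilities -/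
noncomputable def fp (H G : Matrix ι ι ℝ) (c : ℝ) (x : ι × ι) : ℝ :=
  (c - (G x.1 x.2 - H x.1 x.2) * H x.1 x.2) / 2

/-- centred values -/
noncomputable def fv (H G : Matrix ι ι ℝ) (c : ℝ) (x : ι × ι) (b : Bool) : ℝ :=
  -2 * H x.1 x.2 * (bit b - fp H G c x)

theorem fcen {H G : Matrix ι ι ℝ} {c : ℝ} (hH : ∀ i j, H i j = 1 ∨ H i j = -1)
    (hG : ∀ i j, |G i j - H i j| ≤ c) (hc : c ≤ 1) : Cen (fp H G c) (fv H G c) (4 * c) := by
  have hHH : ∀ i j, H i j * H i j = 1 := fun i j => by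
    rcases hH i j with h | h <;> rw [h] <;> norm_num
  have hb : ∀ x : ι × ι, |(G x.1 x.2 - H x.1 x.2) * H x.1 x.2| ≤ c := by
    intro x
    rw [abs_mul]
    have : |H x.1 x.2| = 1 := by rcases hH x.1 x.2 with h | h <;> rw [h] <;> simp
    rw [this, mul_one]
    exact hG _ _
  have hp0 : ∀ x, 0 ≤ fp H G c x := by
    intro x
    have := (abs_le.1 (hb x)).2
    unfold fp
    linarith
  have hpc : ∀ x, fp H G c x ≤ c := by
    intro x
    have := (abs_le.1 (hb x)).1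
    unfold fp
    linarith
  have hp1 : ∀ x, fp H G c x ≤ 1 := fun x => (hpc x).trans hc
  refine ⟨hp0, hp1, ?_, ?_, ?_⟩
  · intro x
    simp only [fv, bit, if_true, Bool.false_eq_true, if_false]
    ring
  · intro x
    simp only [fv, bit, if_true, Bool.false_eq_true, if_false]
    have h1 := hp0 x
    have h2 := hpc x
    have h3 := hHH x.1 x.2
    obtain ⟨P, hP⟩ : ∃ P, P = fp H G c x := ⟨_, rfl⟩
    obtain ⟨h, hh⟩ : ∃ h, h = H x.1 x.2 := ⟨_, rfl⟩
    rw [← hP] at h1 h2 ⊢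
    rw [← hh] at h3 ⊢
    have e : P * (-2 * h * (1 - P)) ^ 2 + (1 - P) * (-2 * h * (0 - P)) ^ 2 =
        4 * (h * h) * (P * (1 - P)) := by ring
    rw [e, h3]
    nlinarith [mul_nonneg h1 h1]
  · intro x b
    have h1 := hp0 x
    have h2 := hp1 x
    have h3 : |H x.1 x.2| = 1 := by rcases hH x.1 x.2 with h | h <;> rw [h] <;> simp
    unfold fv
    rw [abs_mul, abs_mul, h3]
    have h4 : |bit b - fp H G c x| ≤ 1 := by
      unfold bit
      rw [abs_le]
      split_ifs <;> constructor <;> linarith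
    have h5 : |(-2 : ℝ)| = 2 := by norm_num
    rw [h5]
    linarith

theorem fval {H G : Matrix ι ι ℝ} {c : ℝ} (hH : ∀ i j, H i j = 1 ∨ H i j = -1)
    (ξ : ι × ι → Bool) (i j : ι) :
    G i j - c * H i j + ev (fv H G c) (i, j) ξ = H i j * (1 - 2 * bit (ξ (i, j))) := by
  have h3 : H i j * H i j = 1 := by
    rcases hH i j with h | h <;> rw [h] <;> norm_num
  unfold ev fv fp
  simp only
  linear_combination (c * H i j - (G i j - H i j) - c * H i j) * h3

namespace Dat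

variable {N lam : ℝ} (D : Dat ι ρ N lam) {r : ℝ} {M : Matrix ρ ρ ℝ} {a b : ℝ}

theorem mm_entry (hr : (Fintype.card ρ : ℝ) = r) (hr1 : 1 ≤ r) (hrN : r ≤ N)
    (hM : M * D.Lm = 1) (hM2 : ∀ k l, |M k l| ≤ 2) (ha1 : 1 ≤ a) (ha2 : a ≤ 1 + r / N)
    (ha : a ^ 2 * N = N + r) {c : ℝ} (hc : 0 ≤ c) {i k : ι} (hik : i ≠ k) :
    |((D.Gp M a - c • D.H) * (D.Gp M a - c • D.H)ᵀ) i k + (D.Y * D.Yᵀ) i k| ≤
      2 * r ^ 3 / N + 2 * (c * (19 * (r ^ 2 * lam ^ 2))) := by
  have hN := D.Npos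
  have hr0 : 0 < r := by linarith
  have e1 : ((D.Gp M a - c • D.H) * (D.Gp M a - c • D.H)ᵀ) i k + (D.Y * D.Yᵀ) i k =
      (-(r / N) * (D.Y * D.Yᵀ) i k + r / N * (D.Y * Jm ρ * D.Yᵀ) i k) -
        (c * (D.Gp M a * D.Hᵀ) i k + c * (D.Gp M a * D.Hᵀ) k i) := by
    have e2 : (D.Gp M a - c • D.H) * (D.Gp M a - c • D.H)ᵀ = D.Gp M a * (D.Gp M a)ᵀ -
        c • (D.Gp M a * D.Hᵀ) - (c • (D.Gp M a * D.Hᵀ)ᵀ - c • c • (D.H * D.Hᵀ)) := by
      rw [Matrix.transpose_sub, Matrix.transpose_smul, Matrix.sub_mul, Matrix.mul_sub,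
        Matrix.mul_sub, Matrix.mul_smul, Matrix.smul_mul, Matrix.smul_mul, Matrix.mul_smul,
        Matrix.transpose_mul, Matrix.transpose_transpose]
    rw [e2, D.GpGpT hM hr, D.HHT]
    simp only [Matrix.sub_apply, Matrix.add_apply, Matrix.smul_apply, smul_eq_mul,
      Matrix.one_apply_ne hik, Matrix.transpose_apply]
    have e3 : a ^ 2 = 1 + r / N := by field_simp; linarith
    rw [e3]
    ring
  rw [e1]
  have h1 := mul_entry D.Y D.Yᵀ (a := 1) (b := 1) D.aY (fun k j => D.aY j k) i k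
  have h2 := mul_entry D.Y (Jm ρ) (a := 1) (b := 1) D.aY (fun k j => by simp [Jm])
  have h3 := mul_entry (D.Y * Jm ρ) D.Yᵀ h2 (b := 1) (fun k j => D.aY j k) i k
  rw [hr] at h1 h3
  have h4 := D.bGpHT hr hr1 hrN hM2 ha1 ha2 hik
  have h5 := D.bGpHT hr hr1 hrN hM2 ha1 ha2 hik.symm
  refine (abs_sub _ _).trans (add_le_add ?_ ?_)
  · refine (abs_add_le _ _).trans ?_
    rw [abs_mul, abs_mul, abs_neg, abs_of_pos (by positivity : 0 < r / N)]
    have h6 : r / N * |(D.Y * D.Yᵀ) i k| ≤ r / N * (r * (1 * 1)) :=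
      mul_le_mul_of_nonneg_left h1 (by positivity)
    have h7 : r / N * |(D.Y * Jm ρ * D.Yᵀ) i k| ≤ r / N * (r * (r * (1 * 1) * 1)) :=
      mul_le_mul_of_nonneg_left h3 (by positivity)
    have h8 : r / N * (r * (1 * 1)) ≤ r ^ 3 / N := by
      have : r / N * (r * (1 * 1)) = r ^ 2 / N := by ring
      rw [this]
      apply div_le_div_of_nonneg_right _ hN.le
      exact pow_le_pow_right₀ hr1 (by norm_num)
    have h9 : r / N * (r * (r * (1 * 1) * 1)) = r ^ 3 / N := by ring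
    have e : 2 * r ^ 3 / N = r ^ 3 / N + r ^ 3 / N := by ring
    rw [e]
    linarith
  · refine (abs_add_le _ _).trans ?_
    rw [abs_mul, abs_mul, abs_of_nonneg hc]
    have h6 := mul_le_mul_of_nonneg_left h4 hc
    have h7 := mul_le_mul_of_nonneg_left h5 hc
    linarith

theorem nq_H (u : ι → ℝ) : nq (u ᵥ* D.H) = N * nq u := by
  rw [nq_vecMul, D.HHT, Matrix.smul_mulVec, Matrix.one_mulVec, dotProduct_smul, nq_eq_dot,
    smul_eq_mul]

end Dat

end Pool.Agent.K1H39.NearHad
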