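import Pool.Agent.K1H39.NearHad.Lin

/-! Orthogonal matrices whose order is not divisible by four are not too flat. -/

set_option autoImplicit false
set_option linter.unusedSectionVars false

namespace Pool.Agent.K1H39.NearHad

open Finset Matrix

variable {n : ℕ}

/-- inner products of the rows -/
def ip (A : Fin n → Fin n → ℤ) (i k : Fin n) : ℤ := ∑ j, A i j * A k j

theorem ip_self {A : Fin n → Fin n → ℤ} (hA : ∀ i j, A i j = 1 ∨ A i j = -1) (i : Fin n) :
    ip A i i = n := by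
  unfold ip
  have : ∀ j, A i j * A i j = 1 := fun j => by rcases hA i j with h | h <;> rw [h] <;> norm_num
  simp [this]

theorem ip_parity {A : Fin n → Fin n → ℤ} (hA : ∀ i j, A i j = 1 ∨ A i j = -1) (i k : Fin n) :
    (2 : ℤ) ∣ n - ip A i k := by
  have : (n : ℤ) - ip A i k = ∑ j : Fin n, (1 - A i j * A k j) := by
    rw [Finset.sum_sub_distrib]
    simp [ip]
  rw [this]
  apply Finset.dvd_sum
  intro j _
  rcases hA i j with h | h <;> rcases hA k j with h' | h' <;> rw [h, h'] <;> norm_num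

theorem ip_triple {A : Fin n → Fin n → ℤ} (hA : ∀ i j, A i j = 1 ∨ A i j = -1) (i k l : Fin n) :
    (4 : ℤ) ∣ n + ip A i k + ip A k l + ip A i l := by
  have : (n : ℤ) + ip A i k + ip A k l + ip A i l =
      ∑ j : Fin n, (1 + A i j * A k j + A k j * A l j + A i j * A l j) := by
    simp only [Finset.sum_add_distrib]
    simp [ip]
  rw [this]
  apply Finset.dvd_sum
  intro j _
  rcases hA i j with h | h <;> rcases hA k j with h' | h' <;> rcases hA l j with h'' | h'' <;>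
    rw [h, h', h''] <;> norm_num

/-- excess of the Gram matrix -/
def ff (A : Fin n → Fin n → ℤ) (i k : Fin n) : ℤ := ip A i k - if i = k then (n : ℤ) else 0

theorem lower {A : Fin n → Fin n → ℤ} (hA : ∀ i j, A i j = 1 ∨ A i j = -1) (hn : 3 ≤ n)
    (h4 : ¬ 4 ∣ n) : 2 * (n : ℤ) ^ 2 ≤ 3 * ∑ i, ∑ k, ff A i k ^ 2 := by
  rcases Nat.even_or_odd n with he | ho
  · -- even
    obtain ⟨m, hm⟩ := he
    have h6 : 6 ≤ n := by omega
    have hodd : ¬ (4 : ℤ) ∣ n := by exact_mod_cast h4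
    have key : ∀ i k l : Fin n, 4 * (1 - (if i = k then 1 else 0) - (if k = l then 1 else 0) -
        (if i = l then 1 else 0) : ℤ) ≤ ff A i k ^ 2 + ff A k l ^ 2 + ff A i l ^ 2 := by
      intro i k l
      by_cases h1 : i = k
      · rw [if_pos h1]
        split_ifs <;> nlinarith [sq_nonneg (ff A i k), sq_nonneg (ff A k l), sq_nonneg (ff A i l)]
      by_cases h2 : k = l
      · rw [if_pos h2]
        split_ifs <;> nlinarith [sq_nonneg (ff A i k), sq_nonneg (ff A k l), sq_nonneg (ff A i l)]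
      by_cases h3 : i = l
      · rw [if_pos h3]
        split_ifs <;> nlinarith [sq_nonneg (ff A i k), sq_nonneg (ff A k l), sq_nonneg (ff A i l)]
      rw [if_neg h1, if_neg h2, if_neg h3]
      have e1 : ff A i k = ip A i k := by unfold ff; rw [if_neg h1, sub_zero]
      have e2 : ff A k l = ip A k l := by unfold ff; rw [if_neg h2, sub_zero]
      have e3 : ff A i l = ip A i l := by unfold ff; rw [if_neg h3, sub_zero]
      rw [e1, e2, e3]
      have p1 := ip_parity hA i k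
      have p2 := ip_parity hA k l
      have p3 := ip_parity hA i l
      have p4 := ip_triple hA i k l
      have hev : (2 : ℤ) ∣ n := ⟨m, by push_cast [hm]; ring⟩
      obtain ⟨x, hx⟩ : (2 : ℤ) ∣ ip A i k := (dvd_sub_right hev).1 p1
      obtain ⟨y, hy⟩ : (2 : ℤ) ∣ ip A k l := (dvd_sub_right hev).1 p2
      obtain ⟨z, hz⟩ : (2 : ℤ) ∣ ip A i l := (dvd_sub_right hev).1 p3
      rw [hx, hy, hz] at p4 ⊢
      have hxyz : ¬ (x = 0 ∧ y = 0 ∧ z = 0) := by
        rintro ⟨h7, h8, h9⟩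
        rw [h7, h8, h9] at p4
        apply hodd
        simpa using p4
      have hpos : 1 ≤ x ^ 2 + y ^ 2 + z ^ 2 := by
        by_contra hc
        have hx0 := sq_nonneg x
        have hy0 := sq_nonneg y
        have hz0 := sq_nonneg z
        apply hxyz
        refine ⟨?_, ?_, ?_⟩ <;> apply pow_eq_zero_iff (two_ne_zero) |>.1 <;> omega
      nlinarith
    have hsum : ∑ i, ∑ k, ∑ l, 4 * (1 - (if i = k then 1 else 0) - (if k = l then 1 else 0) -
        (if i = l then 1 else 0) : ℤ) ≤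
        ∑ i : Fin n, ∑ k : Fin n, ∑ l : Fin n, (ff A i k ^ 2 + ff A k l ^ 2 + ff A i l ^ 2) :=
      Finset.sum_le_sum fun i _ => Finset.sum_le_sum fun k _ => Finset.sum_le_sum fun l _ =>
        key i k l
    have e1 : ∑ i : Fin n, ∑ k : Fin n, ∑ l : Fin n, (ff A i k ^ 2 + ff A k l ^ 2 + ff A i l ^ 2) =
        3 * (n * ∑ i, ∑ k, ff A i k ^ 2) := by
      simp only [Finset.sum_add_distrib, Finset.sum_const, Finset.card_univ, Fintype.card_fin,
        smul_eq_mul, nsmul_eq_mul, ← Finset.mul_sum]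
      ring
    have e2 : ∑ i : Fin n, ∑ k : Fin n, ∑ l : Fin n, 4 * (1 - (if i = k then 1 else 0) -
        (if k = l then 1 else 0) - (if i = l then 1 else 0) : ℤ) = 4 * (n ^ 3 - 3 * n ^ 2) := by
      simp only [← Finset.mul_sum, Finset.sum_sub_distrib, Finset.sum_const, Finset.card_univ,
        Fintype.card_fin, smul_eq_mul, nsmul_eq_mul, Finset.sum_ite_eq, Finset.mem_univ, if_true]
      ring
    rw [e1, e2] at hsum
    obtain ⟨F, hF⟩ : ∃ F, F = ∑ i, ∑ k, ff A i k ^ 2 := ⟨_, rfl⟩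
    rw [← hF] at hsum ⊢
    have h6' : (6 : ℤ) ≤ n := by exact_mod_cast h6
    have hn0 : (0 : ℤ) < n := by linarith
    have h7 : (n : ℤ) * (4 * (n ^ 2 - 3 * n)) ≤ n * (3 * F) := by nlinarith
    have h8 := le_of_mul_le_mul_left h7 hn0
    nlinarith
  · -- odd
    have key : ∀ i k : Fin n, (1 - (if i = k then 1 else 0) : ℤ) ≤ ff A i k ^ 2 := by
      intro i k
      by_cases h1 : i = k
      · rw [if_pos h1]
        nlinarith [sq_nonneg (ff A i k)]
      rw [if_neg h1]
      have e1 : ff A i k = ip A i k := by unfold ff; rw [if_neg h1, sub_zero]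
      rw [e1]
      have p1 := ip_parity hA i k
      obtain ⟨m, hm⟩ := ho
      have hne : ip A i k ≠ 0 := by
        intro h0
        rw [h0] at p1
        omega
      have : 0 < ip A i k ^ 2 := by positivity
      omega
    have hsum : ∑ i : Fin n, ∑ k : Fin n, (1 - (if i = k then 1 else 0) : ℤ) ≤
        ∑ i, ∑ k, ff A i k ^ 2 :=
      Finset.sum_le_sum fun i _ => Finset.sum_le_sum fun k _ => key i k
    have e2 : ∑ i : Fin n, ∑ k : Fin n, (1 - (if i = k then 1 else 0) : ℤ) = n ^ 2 - n := by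
      simp only [Finset.sum_sub_distrib, Finset.sum_const, Finset.card_univ,
        Fintype.card_fin, smul_eq_mul, nsmul_eq_mul, Finset.sum_ite_eq, Finset.mem_univ, if_true]
      ring
    rw [e2] at hsum
    have h3 : (3 : ℤ) ≤ n := by exact_mod_cast hn
    nlinarith

theorem sharp (hn : 3 ≤ n) (h4 : ¬ 4 ∣ n) (Q : Matrix (Fin n) (Fin n) ℝ)
    (hQ : Q * Qᵀ = (n : ℝ) • (1 : Matrix (Fin n) (Fin n) ℝ)) :
    ∃ i j, 1 / (4 * Real.sqrt n) < |(|Q i j| - 1)| := by
  by_contra hcon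
  push Not at hcon
  have hn0 : (0 : ℝ) < n := by
    have : 0 < n := by omega
    exact_mod_cast this
  have hs : 0 < Real.sqrt n := Real.sqrt_pos.2 hn0
  obtain ⟨δ, hδ⟩ : ∃ δ, δ = 1 / (4 * Real.sqrt n) := ⟨_, rfl⟩
  have hδ0 : 0 < δ := by rw [hδ]; positivity
  have hδ2 : n * δ ^ 2 = 1 / 16 := by
    rw [hδ, div_pow, mul_pow, Real.sq_sqrt hn0.le]
    field_simp
    norm_num
  rw [← hδ] at hcon
  obtain ⟨A, hA'⟩ : ∃ A : Fin n → Fin n → ℤ, A = fun i j => if 0 ≤ Q i j then 1 else -1 := ⟨_, rfl⟩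
  have hA : ∀ i j, A i j = 1 ∨ A i j = -1 := by
    intro i j
    rw [hA']
    by_cases h : 0 ≤ Q i j
    · left; simp [h]
    · right; simp [h]
  obtain ⟨D, hD⟩ : ∃ D : Matrix (Fin n) (Fin n) ℝ, D = Matrix.of fun i j => Q i j - A i j := ⟨_, rfl⟩
  have hDe : ∀ i j, D i j = Q i j - A i j := by intro i j; rw [hD]; rfl
  have hD1 : ∀ i j, |D i j| ≤ δ := by
    intro i j
    have h := hcon i j
    rw [hDe, hA']
    by_cases h0 : 0 ≤ Q i j
    · rw [abs_of_nonneg h0] at h
      simp only [h0, if_true]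
      simpa using h
    · have h1 : Q i j < 0 := not_le.1 h0
      rw [abs_of_neg h1] at h
      simp only [h0, if_false]
      have : Q i j - ((-1 : ℤ) : ℝ) = -(-Q i j - 1) := by push_cast; ring
      rw [this, abs_neg]
      exact h
  have hAe : ∀ i j, (A i j : ℝ) = Q i j - D i j := by intro i j; rw [hDe]; ring
  have hff : ∀ i k, ((ff A i k : ℤ) : ℝ) =
      -((Q * Dᵀ) i k) - (D * Qᵀ) i k + (D * Dᵀ) i k := by
    intro i k
    have h1 : ((ip A i k : ℤ) : ℝ) = (Q * Qᵀ) i k - (Q * Dᵀ) i k - (D * Qᵀ) i k + (D * Dᵀ) i k := by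
      unfold ip
      push_cast
      simp only [Matrix.mul_apply, Matrix.transpose_apply]
      rw [← Finset.sum_sub_distrib, ← Finset.sum_sub_distrib, ← Finset.sum_add_distrib]
      refine Finset.sum_congr rfl fun j _ => ?_
      rw [hAe, hAe]
      ring
    unfold ff
    push_cast
    rw [h1, hQ, Matrix.smul_apply, Matrix.one_apply, smul_eq_mul]
    split_ifs <;> ring
  have hQT : Qᵀ * Q = (n : ℝ) • (1 : Matrix (Fin n) (Fin n) ℝ) := by
    have h1 : ((n : ℝ)⁻¹ • Q) * Qᵀ = 1 := by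
      rw [Matrix.smul_mul, hQ, smul_smul, inv_mul_cancel₀ hn0.ne', one_smul]
    have h2 := mul_eq_one_comm.1 h1
    rw [Matrix.mul_smul] at h2
    have h3 := congrArg (fun M => (n : ℝ) • M) h2
    simp only [smul_smul, mul_inv_cancel₀ hn0.ne', one_smul] at h3
    exact h3
  have hDsq : ∀ k, nq (D k) ≤ 1 / 16 := by
    intro k
    rw [← hδ2]
    unfold nq
    have : ∀ j ∈ (univ : Finset (Fin n)), D k j ^ 2 ≤ δ ^ 2 := by
      intro j _
      rw [← sq_abs]
      exact pow_le_pow_left₀ (abs_nonneg _) (hD1 k j) 2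
    refine (Finset.sum_le_sum this).trans (le_of_eq ?_)
    rw [Finset.sum_const, Finset.card_univ, Fintype.card_fin, nsmul_eq_mul]
  have hQD : ∀ k, ∑ i, (Q * Dᵀ) i k ^ 2 ≤ n / 16 := by
    intro k
    have h1 : ∑ i, (Q * Dᵀ) i k ^ 2 = nq (D k ᵥ* Qᵀ) := by
      unfold nq
      refine Finset.sum_congr rfl fun i _ => ?_
      congr 1
      rw [Matrix.mul_apply]
      exact Finset.sum_congr rfl fun j _ => mul_comm _ _
    rw [h1, nq_vecMul, Matrix.transpose_transpose, hQT, Matrix.smul_mulVec, Matrix.one_mulVec,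
      dotProduct_smul, ← nq_eq_dot, smul_eq_mul]
    have := mul_le_mul_of_nonneg_left (hDsq k) hn0.le
    linarith
  have h1 : ∑ i, ∑ k, (Q * Dᵀ) i k ^ 2 ≤ n * (n / 16) := by
    rw [Finset.sum_comm]
    refine (Finset.sum_le_sum fun k _ => hQD k).trans (le_of_eq ?_)
    rw [Finset.sum_const, Finset.card_univ, Fintype.card_fin, nsmul_eq_mul]
  have h2 : ∑ i, ∑ k, (D * Qᵀ) i k ^ 2 ≤ n * (n / 16) := by
    have e : ∀ i k, (D * Qᵀ) i k = (Q * Dᵀ) k i := by
      intro i k
      rw [Matrix.mul_apply, Matrix.mul_apply]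
      exact Finset.sum_congr rfl fun j _ => mul_comm _ _
    simp only [e]
    rw [Finset.sum_comm]
    exact h1
  have h3 : ∑ i, ∑ k, (D * Dᵀ) i k ^ 2 ≤ n * (n * (1 / 256)) := by
    have h4 : ∀ i k, (D * Dᵀ) i k ^ 2 ≤ 1 / 256 := by
      intro i k
      have h5 := mul_entry D Dᵀ hD1 (fun a b => hD1 b a) i k
      rw [Fintype.card_fin] at h5
      have h6 : (n : ℝ) * (δ * δ) = 1 / 16 := by rw [← hδ2]; ring
      rw [h6] at h5
      rw [← sq_abs]
      calc |(D * Dᵀ) i k| ^ 2 ≤ (1 / 16) ^ 2 := pow_le_pow_left₀ (abs_nonneg _) h5 2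
        _ = 1 / 256 := by norm_num
    refine (Finset.sum_le_sum fun i _ => Finset.sum_le_sum fun k _ => h4 i k).trans (le_of_eq ?_)
    rw [Finset.sum_const, Finset.sum_const, Finset.card_univ, Fintype.card_fin, nsmul_eq_mul,
      nsmul_eq_mul]
  have hup : (∑ i, ∑ k, ((ff A i k : ℤ) : ℝ) ^ 2) ≤
      3 * (n * (n / 16) + n * (n / 16) + n * (n * (1 / 256))) := by
    have h4 : ∀ i k, ((ff A i k : ℤ) : ℝ) ^ 2 ≤
        3 * ((Q * Dᵀ) i k ^ 2 + (D * Qᵀ) i k ^ 2 + (D * Dᵀ) i k ^ 2) := by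
      intro i k
      rw [hff]
      nlinarith [sq_nonneg ((Q * Dᵀ) i k - (D * Qᵀ) i k), sq_nonneg ((Q * Dᵀ) i k + (D * Dᵀ) i k),
        sq_nonneg ((D * Qᵀ) i k + (D * Dᵀ) i k)]
    refine (Finset.sum_le_sum fun i _ => Finset.sum_le_sum fun k _ => h4 i k).trans ?_
    simp only [← Finset.mul_sum, Finset.sum_add_distrib]
    linarith
  have hlow := lower hA hn h4
  have hlow' : 2 * (n : ℝ) ^ 2 ≤ 3 * ∑ i, ∑ k, ((ff A i k : ℤ) : ℝ) ^ 2 := by
    exact_mod_cast hlow
  nlinarith [mul_pos hn0 hn0]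

end Pool.Agent.K1H39.NearHad
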