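import Pool.Agent.K1H39.NearHad.Final
import Pool.Agent.K1H39.NearHad.Sharp

/-! The two theorems in explicit form. -/

set_option autoImplicit false
set_option linter.unusedSectionVars false

namespace Pool.Agent.K1H39.NearHad

open Finset Matrix

theorem flat : ∃ n₀ : ℕ, ∀ n : ℕ, n₀ ≤ n → ∃ Q : Matrix (Fin n) (Fin n) ℝ,
    Q * Qᵀ = (n : ℝ) • (1 : Matrix (Fin n) (Fin n) ℝ) ∧
      ∀ i j, |(|Q i j| - 1)| ≤ Real.log n ^ 2 / Real.sqrt n := by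
  obtain ⟨n₀, h⟩ := main
  refine ⟨n₀, fun n hn => ?_⟩
  obtain ⟨Q, A, h1, h2, -⟩ := h n hn
  exact ⟨Q, h1, h2⟩

theorem sqrt_nq_add {β : Type*} [Fintype β] (x y : β → ℝ) :
    Real.sqrt (nq (x + y)) ≤ Real.sqrt (nq x) + Real.sqrt (nq y) := by
  apply Real.sqrt_le_iff.2 ⟨by positivity, ?_⟩
  rw [nq_add, add_sq, Real.sq_sqrt (nq_nonneg x), Real.sq_sqrt (nq_nonneg y)]
  have := (le_abs_self _).trans (dot_abs x y)
  linarith

theorem near : ∃ n₀ : ℕ, ∀ n : ℕ, n₀ ≤ n →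
    ∃ A : Matrix (Fin n) (Fin n) ℝ, (∀ i j, A i j = 1 ∨ A i j = -1) ∧
      (∀ x : Fin n → ℝ, |Real.sqrt (∑ j, (∑ i, x i * A i j) ^ 2) -
        Real.sqrt n * Real.sqrt (∑ i, x i ^ 2)| ≤
          (n : ℝ) ^ (1 / 4 : ℝ) * Real.log n ^ 3 * Real.sqrt (∑ i, x i ^ 2)) ∧
      ∀ i k, i ≠ k → |∑ j, A i j * A k j| ≤ (n : ℝ) ^ (1 / 4 : ℝ) * Real.log n ^ 3 := by
  obtain ⟨n₀, h⟩ := main
  refine ⟨n₀, fun n hn => ?_⟩
  obtain ⟨Q, A, h1, -, h3, h4, h5⟩ := h n hn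
  refine ⟨A, h3, fun x => ?_, fun i k hik => ?_⟩
  · have e1 : ∑ j, (∑ i, x i * A i j) ^ 2 = nq (x ᵥ* A) := rfl
    have e2 : ∑ i, x i ^ 2 = nq x := rfl
    rw [e1, e2]
    have hτ : 0 ≤ (n : ℝ) ^ (1 / 4 : ℝ) * Real.log n ^ 3 :=
      mul_nonneg (by positivity) (pow_nonneg (Real.log_natCast_nonneg n) 3)
    have hQ : Real.sqrt (nq (x ᵥ* Q)) = Real.sqrt n * Real.sqrt (nq x) := by
      rw [nq_vecMul, h1, Matrix.smul_mulVec, Matrix.one_mulVec, dotProduct_smul, ← nq_eq_dot,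
        smul_eq_mul, Real.sqrt_mul (Nat.cast_nonneg n)]
    have hD : Real.sqrt (nq (x ᵥ* (A - Q))) ≤ (n : ℝ) ^ (1 / 4 : ℝ) * Real.log n ^ 3 * Real.sqrt (nq x) := by
      have := Real.sqrt_le_sqrt (h4 x)
      rwa [Real.sqrt_mul (sq_nonneg _), Real.sqrt_sq hτ] at this
    have hD' : Real.sqrt (nq (x ᵥ* (Q - A))) ≤ (n : ℝ) ^ (1 / 4 : ℝ) * Real.log n ^ 3 * Real.sqrt (nq x) := by
      have : nq (x ᵥ* (Q - A)) = nq (x ᵥ* (A - Q)) := by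
        have h6 : x ᵥ* (Q - A) = -(x ᵥ* (A - Q)) := by
          rw [Matrix.vecMul_sub, Matrix.vecMul_sub]; abel
        rw [h6]
        unfold nq
        exact Finset.sum_congr rfl fun i _ => by rw [Pi.neg_apply, neg_sq]
      rw [this]; exact hD
    have g1 := sqrt_nq_add (x ᵥ* Q) (x ᵥ* (A - Q))
    have g2 := sqrt_nq_add (x ᵥ* A) (x ᵥ* (Q - A))
    rw [← Matrix.vecMul_add, add_sub_cancel] at g1 g2
    rw [hQ] at g1 g2
    rw [abs_le]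
    constructor <;> linarith
  · have := h5 i k hik
    rw [Matrix.mul_apply] at this
    exact this

end Pool.Agent.K1H39.NearHad
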