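import Mathlib

/-! Finite product probability spaces on `α → Bool`. -/

set_option autoImplicit false

namespace Pool.Agent.K1H39.NearHad

open Finset

variable {α : Type*} [Fintype α] [DecidableEq α]

/-- weight of a coordinate -/
def wb (p : ℝ) (b : Bool) : ℝ := if b then p else 1 - p

/-- expectation of `g` over independent coordinates, coordinate `a` is `true` with probability
`p a` -/
def EE (p : α → ℝ) (g : (α → Bool) → ℝ) : ℝ := ∑ ξ : α → Bool, (∏ a, wb (p a) (ξ a)) * g ξ

theorem wb_nonneg {p : ℝ} (h0 : 0 ≤ p) (h1 : p ≤ 1) (b : Bool) : 0 ≤ wb p b := by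
  unfold wb; split_ifs <;> linarith

theorem EE_add (p : α → ℝ) (f g : (α → Bool) → ℝ) :
    EE p (fun ξ => f ξ + g ξ) = EE p f + EE p g := by
  unfold EE
  rw [← Finset.sum_add_distrib]
  exact Finset.sum_congr rfl fun _ _ => by ring

theorem EE_mul_const (p : α → ℝ) (f : (α → Bool) → ℝ) (c : ℝ) :
    EE p (fun ξ => f ξ * c) = EE p f * c := by
  unfold EE
  rw [Finset.sum_mul]
  exact Finset.sum_congr rfl fun _ _ => by ring

theorem EE_const_mul (p : α → ℝ) (f : (α → Bool) → ℝ) (c : ℝ) :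
    EE p (fun ξ => c * f ξ) = c * EE p f := by
  unfold EE
  rw [Finset.mul_sum]
  exact Finset.sum_congr rfl fun _ _ => by ring

theorem EE_sum {β : Type*} (s : Finset β) (p : α → ℝ) (f : β → (α → Bool) → ℝ) :
    EE p (fun ξ => ∑ b ∈ s, f b ξ) = ∑ b ∈ s, EE p (f b) := by
  unfold EE
  rw [Finset.sum_comm]
  exact Finset.sum_congr rfl fun _ _ => by rw [Finset.mul_sum]

theorem EE_mono {p : α → ℝ} (h0 : ∀ a, 0 ≤ p a) (h1 : ∀ a, p a ≤ 1) {f g : (α → Bool) → ℝ}
    (h : ∀ ξ, f ξ ≤ g ξ) : EE p f ≤ EE p g := by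
  unfold EE
  exact Finset.sum_le_sum fun ξ _ => mul_le_mul_of_nonneg_left (h ξ)
    (Finset.prod_nonneg fun a _ => wb_nonneg (h0 a) (h1 a) _)

theorem EE_one (p : α → ℝ) : EE p (fun _ => 1) = 1 := by
  unfold EE
  simp only [mul_one]
  have h := (Finset.prod_univ_sum (fun _ : α => (Finset.univ : Finset Bool))
    (fun a b => wb (p a) b))
  rw [Fintype.piFinset_univ] at h
  rw [← h]
  apply Finset.prod_eq_one
  intro a _
  simp [wb]

theorem EE_const (p : α → ℝ) (c : ℝ) : EE p (fun _ => c) = c := by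
  have := EE_const_mul p (fun _ => 1) c
  rw [EE_one] at this
  simpa using this

theorem EE_nonneg {p : α → ℝ} (h0 : ∀ a, 0 ≤ p a) (h1 : ∀ a, p a ≤ 1) {f : (α → Bool) → ℝ}
    (h : ∀ ξ, 0 ≤ f ξ) : 0 ≤ EE p f := by
  have := EE_mono h0 h1 (f := fun _ => 0) h
  rwa [EE_const] at this

theorem exists_le_EE {p : α → ℝ} (h0 : ∀ a, 0 ≤ p a) (h1 : ∀ a, p a ≤ 1) {f : (α → Bool) → ℝ}
    {c : ℝ} (h : EE p f ≤ c) : ∃ ξ, f ξ ≤ c := by
  by_contra hcon
  push Not at hcon
  have h2 : EE p (fun _ => c) < EE p f := by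
    have hw : ∃ ξ : α → Bool, 0 < ∏ a, wb (p a) (ξ a) := by
      by_contra hc
      push Not at hc
      have h3 := EE_one p
      unfold EE at h3
      simp only [mul_one] at h3
      have h4 := Finset.sum_nonpos (fun ξ (_ : ξ ∈ (Finset.univ : Finset (α → Bool))) => hc ξ)
      linarith
    obtain ⟨ξ₀, hξ₀⟩ := hw
    unfold EE
    apply Finset.sum_lt_sum
    · intro ξ _
      exact mul_le_mul_of_nonneg_left (hcon ξ).le
        (Finset.prod_nonneg fun a _ => wb_nonneg (h0 a) (h1 a) _)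
    · exact ⟨ξ₀, Finset.mem_univ _, mul_lt_mul_of_pos_left (hcon ξ₀) hξ₀⟩
  rw [EE_const] at h2
  linarith

/-- resampling a coordinate does not change the expectation -/
theorem EE_resample (p : α → ℝ) (a : α) (g : (α → Bool) → ℝ) :
    EE p g = EE p (fun ξ => p a * g (Function.update ξ a true) +
      (1 - p a) * g (Function.update ξ a false)) := by
  have key : ∀ F : (α → Bool) → ℝ, EE p F =
      ∑ η : {j // j ≠ a} → Bool, (∏ j : {j // j ≠ a}, wb (p j) (η j)) *
        ∑ b : Bool, wb (p a) b * F ((Equiv.funSplitAt a Bool).symm (b, η)) := by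
    intro F
    unfold EE
    rw [← (Equiv.funSplitAt a Bool).symm.sum_comp, Fintype.sum_prod_type_right]
    refine Finset.sum_congr rfl fun η _ => ?_
    rw [Finset.mul_sum]
    refine Finset.sum_congr rfl fun b _ => ?_
    rw [Fintype.prod_eq_mul_prod_subtype_ne _ a]
    have e1 : (Equiv.funSplitAt a Bool).symm (b, η) a = b := by simp [Equiv.funSplitAt, Equiv.piSplitAt]
    have e2 : ∀ j : {j // j ≠ a}, (Equiv.funSplitAt a Bool).symm (b, η) j = η j := by
      intro j
      simp [Equiv.funSplitAt, Equiv.piSplitAt, j.2]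
    rw [e1]
    have e3 : (∏ j : {j // j ≠ a}, wb (p j) ((Equiv.funSplitAt a Bool).symm (b, η) j)) =
        ∏ j : {j // j ≠ a}, wb (p j) (η j) := Finset.prod_congr rfl fun j _ => by rw [e2]
    rw [e3]
    ring
  have hupd : ∀ (b b' : Bool) (η : {j // j ≠ a} → Bool),
      Function.update ((Equiv.funSplitAt a Bool).symm (b, η)) a b' =
        (Equiv.funSplitAt a Bool).symm (b', η) := by
    intro b b' η
    funext j
    by_cases hj : j = a
    · subst hj
      simp [Equiv.funSplitAt, Equiv.piSplitAt]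
    · simp [Equiv.funSplitAt, Equiv.piSplitAt, hj]
  rw [key g, key]
  refine Finset.sum_congr rfl fun η _ => ?_
  congr 1
  simp only [hupd, Fintype.sum_bool, wb, if_true]
  simp
  ring

/-- a function does not depend on the coordinate `a` -/
def Indep (a : α) (g : (α → Bool) → ℝ) : Prop := ∀ ξ b, g (Function.update ξ a b) = g ξ

theorem EE_indep (p : α → ℝ) (a : α) (f : Bool → ℝ) {g : (α → Bool) → ℝ} (hg : Indep a g) :
    EE p (fun ξ => f (ξ a) * g ξ) = (p a * f true + (1 - p a) * f false) * EE p g := by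
  rw [EE_resample p a, ← EE_const_mul]
  congr 1
  funext ξ
  rw [hg ξ true, hg ξ false, Function.update_self, Function.update_self]
  ring

/-- a coordinate may appear in the first factor together with independent parameters -/
theorem EE_resample_le {p : α → ℝ} (h0 : ∀ a, 0 ≤ p a) (h1 : ∀ a, p a ≤ 1) (a : α)
    (F : (α → Bool) → Bool → ℝ) {g : (α → Bool) → ℝ} {c : ℝ}
    (hF : ∀ ξ b b', F (Function.update ξ a b) b' = F ξ b') (hg : Indep a g) (hg0 : ∀ ξ, 0 ≤ g ξ)
    (hc : ∀ ξ, p a * F ξ true + (1 - p a) * F ξ false ≤ c) :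
    EE p (fun ξ => F ξ (ξ a) * g ξ) ≤ c * EE p g := by
  rw [EE_resample p a, ← EE_const_mul]
  apply EE_mono h0 h1
  intro ξ
  rw [hg ξ true, hg ξ false, Function.update_self, Function.update_self, hF, hF]
  have := mul_le_mul_of_nonneg_right (hc ξ) (hg0 ξ)
  linarith

end Pool.Agent.K1H39.NearHad
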