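import Pool.Agent.K1H39.NearHad.Prob

/-! Exponential moments and sign vectors with small inner products. -/

set_option autoImplicit false

namespace Pool.Agent.K1H39.NearHad

open Finset

variable {α : Type*} [Fintype α] [DecidableEq α]

theorem EE_exp {p : α → ℝ} (h0 : ∀ a, 0 ≤ p a) (h1 : ∀ a, p a ≤ 1)
    (b : α → (α → Bool) → ℝ) (v : α → Bool → ℝ) (κ : α → ℝ) (t : Finset α)
    (hb : ∀ a ∈ t, ∀ a' ∈ t, Indep a (b a'))
    (hκ : ∀ a ∈ t, ∀ ξ, p a * Real.exp (b a ξ * v a true) +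
      (1 - p a) * Real.exp (b a ξ * v a false) ≤ Real.exp (κ a)) :
    EE p (fun ξ => Real.exp (∑ a ∈ t, b a ξ * v a (ξ a))) ≤ Real.exp (∑ a ∈ t, κ a) := by
  induction t using Finset.induction_on with
  | empty =>
    simp only [Finset.sum_empty, Real.exp_zero]
    rw [EE_one]
  | insert a t ha ih =>
    have e1 : (fun ξ : α → Bool => Real.exp (∑ a ∈ insert a t, b a ξ * v a (ξ a))) =
        fun ξ => (fun (ξ : α → Bool) (c : Bool) => Real.exp (b a ξ * v a c)) ξ (ξ a) *
          Real.exp (∑ a ∈ t, b a ξ * v a (ξ a)) := by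
      funext ξ
      simp only
      rw [Finset.sum_insert ha, Real.exp_add]
    rw [e1]
    have hbi : ∀ a' ∈ insert a t, ∀ ξ c, b a' (Function.update ξ a c) = b a' ξ := fun a' ha' ξ c =>
      hb a (Finset.mem_insert_self a t) a' ha' ξ c
    have h := EE_resample_le h0 h1 a (fun (ξ : α → Bool) (c : Bool) => Real.exp (b a ξ * v a c))
      (g := fun ξ => Real.exp (∑ a ∈ t, b a ξ * v a (ξ a))) (c := Real.exp (κ a))
      (by
        intro ξ c c'
        rw [hbi a (Finset.mem_insert_self a t)])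
      (by
        intro ξ c
        show Real.exp _ = Real.exp _
        congr 1
        refine Finset.sum_congr rfl fun a' ha' => ?_
        have hne : a' ≠ a := fun h => ha (h ▸ ha')
        rw [hbi a' (Finset.mem_insert_of_mem ha'), Function.update_of_ne hne])
      (fun ξ => (Real.exp_pos _).le) (fun ξ => hκ a (Finset.mem_insert_self a t) ξ)
    refine h.trans ?_
    rw [Finset.sum_insert ha, Real.exp_add]
    apply mul_le_mul_of_nonneg_left _ (Real.exp_pos _).le
    exact ih (fun a' ha' a'' ha'' => hb a' (Finset.mem_insert_of_mem ha') a''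
      (Finset.mem_insert_of_mem ha'')) (fun a' ha' => hκ a' (Finset.mem_insert_of_mem ha'))

/-- sign of a bit -/
def sg (b : Bool) : ℝ := if b then 1 else -1

theorem sg_cases (b : Bool) : sg b = 1 ∨ sg b = -1 := by unfold sg; split_ifs <;> simp

theorem rademacher {S : Type*} [Fintype S] (a : S → α → ℝ) (σ : S → ℝ) (lam : ℝ)
    (hσ : ∀ s, 0 < σ s) (ha : ∀ s, ∑ j, a s j ^ 2 ≤ σ s ^ 2) (hlam : 0 < lam)
    (hS : 2 * (Fintype.card S : ℝ) ≤ Real.exp (lam ^ 2 / 2)) :
    ∃ d : α → ℝ, (∀ j, d j = 1 ∨ d j = -1) ∧ ∀ s, |∑ j, a s j * d j| ≤ lam * σ s := by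
  have hp0 : ∀ j : α, (0 : ℝ) ≤ (fun _ => 1 / 2) j := fun _ => by norm_num
  have hp1 : ∀ j : α, ((fun _ => 1 / 2) j : ℝ) ≤ 1 := fun _ => by norm_num
  have key : ∀ (s : S) (μ : ℝ), μ ^ 2 = (lam / σ s) ^ 2 →
      EE (fun _ : α => 1 / 2) (fun ξ => Real.exp (∑ j ∈ (univ : Finset α), (μ * a s j) * sg (ξ j))) ≤
        Real.exp (lam ^ 2 / 2) := by
    intro s μ hμ
    have h := EE_exp (p := fun _ : α => 1 / 2) hp0 hp1 (fun j _ => μ * a s j) (fun _ b => sg b)
      (fun j => (μ * a s j) ^ 2 / 2) univ (fun _ _ _ _ _ _ => rfl) (by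
        intro j _ ξ
        have h2 := Real.cosh_le_exp_half_sq (μ * a s j)
        rw [Real.cosh_eq] at h2
        simp only [sg, if_true, Bool.false_eq_true, if_false, mul_one, mul_neg]
        linarith)
    refine h.trans (Real.exp_le_exp.2 ?_)
    have e1 : ∑ j ∈ (univ : Finset α), (μ * a s j) ^ 2 / 2 = μ ^ 2 / 2 * ∑ j, a s j ^ 2 := by
      rw [Finset.mul_sum]
      exact Finset.sum_congr rfl fun j _ => by ring
    rw [e1, hμ]
    have h3 : (lam / σ s) ^ 2 / 2 * ∑ j, a s j ^ 2 ≤ (lam / σ s) ^ 2 / 2 * σ s ^ 2 :=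
      mul_le_mul_of_nonneg_left (ha s) (by positivity)
    refine h3.trans (le_of_eq ?_)
    have := (hσ s).ne'
    field_simp
  have hΦ : EE (fun _ : α => 1 / 2) (fun ξ => ∑ s : S,
      (Real.exp (∑ j ∈ (univ : Finset α), (lam / σ s * a s j) * sg (ξ j)) +
        Real.exp (∑ j ∈ (univ : Finset α), (-(lam / σ s) * a s j) * sg (ξ j)))) ≤
      Real.exp (lam ^ 2) := by
    rw [EE_sum]
    have h1 : ∀ s ∈ (univ : Finset S), EE (fun _ : α => 1 / 2) (fun ξ =>
        (Real.exp (∑ j ∈ (univ : Finset α), (lam / σ s * a s j) * sg (ξ j)) +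
        Real.exp (∑ j ∈ (univ : Finset α), (-(lam / σ s) * a s j) * sg (ξ j)))) ≤
        2 * Real.exp (lam ^ 2 / 2) := by
      intro s _
      rw [EE_add]
      have h2 := key s (lam / σ s) rfl
      have h3 := key s (-(lam / σ s)) (by ring)
      linarith
    refine (Finset.sum_le_sum h1).trans ?_
    rw [Finset.sum_const, nsmul_eq_mul, Finset.card_univ]
    have h4 : Real.exp (lam ^ 2) = Real.exp (lam ^ 2 / 2) * Real.exp (lam ^ 2 / 2) := by
      rw [← Real.exp_add]; congr 1; ring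
    rw [h4]
    calc (Fintype.card S : ℝ) * (2 * Real.exp (lam ^ 2 / 2)) =
        (2 * (Fintype.card S : ℝ)) * Real.exp (lam ^ 2 / 2) := by ring
      _ ≤ _ := mul_le_mul_of_nonneg_right hS (Real.exp_pos _).le
  obtain ⟨ξ, hξ⟩ := exists_le_EE hp0 hp1 hΦ
  refine ⟨fun j => sg (ξ j), fun j => sg_cases _, fun s => ?_⟩
  have h1 := Finset.single_le_sum (f := fun s : S =>
      (Real.exp (∑ j ∈ (univ : Finset α), (lam / σ s * a s j) * sg (ξ j)) +
        Real.exp (∑ j ∈ (univ : Finset α), (-(lam / σ s) * a s j) * sg (ξ j))))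
      (fun s _ => by positivity) (Finset.mem_univ s)
  have h2 := h1.trans hξ
  have e1 : ∑ j ∈ (univ : Finset α), (lam / σ s * a s j) * sg (ξ j) =
      lam / σ s * ∑ j, a s j * sg (ξ j) := by
    rw [Finset.mul_sum]; exact Finset.sum_congr rfl fun j _ => by ring
  have e2 : ∑ j ∈ (univ : Finset α), (-(lam / σ s) * a s j) * sg (ξ j) =
      -(lam / σ s * ∑ j, a s j * sg (ξ j)) := by
    rw [Finset.mul_sum, ← Finset.sum_neg_distrib]; exact Finset.sum_congr rfl fun j _ => by ring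
  rw [e1, e2] at h2
  have hσs := hσ s
  have h3 : lam / σ s * ∑ j, a s j * sg (ξ j) ≤ lam ^ 2 := by
    have := Real.exp_pos (-(lam / σ s * ∑ j, a s j * sg (ξ j)))
    exact Real.exp_le_exp.1 (by linarith)
  have h4 : -(lam / σ s * ∑ j, a s j * sg (ξ j)) ≤ lam ^ 2 := by
    have := Real.exp_pos (lam / σ s * ∑ j, a s j * sg (ξ j))
    exact Real.exp_le_exp.1 (by linarith)
  have h5 : |lam / σ s * ∑ j, a s j * sg (ξ j)| ≤ lam ^ 2 := abs_le.2 ⟨by linarith, h3⟩
  rw [abs_mul, abs_of_pos (div_pos hlam hσs), div_mul_eq_mul_div, div_le_iff₀ hσs] at h5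
  have h6 : lam * |∑ j, a s j * sg (ξ j)| ≤ lam * (lam * σ s) := by
    calc _ ≤ _ := h5
      _ = _ := by ring
  exact le_of_mul_le_mul_left h6 hlam

end Pool.Agent.K1H39.NearHad
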